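import Pool.Agent.SIRP.Defs
import Pool.Agent.SIRM.Read
import Pool.Agent.SIRM.FamS
import Pool.Agent.SIRM.ReadU

/-! # Small conditions -/

set_option autoImplicit false

namespace Pool.Agent.SIRP

open Pool.Agent.SIRM MvPolynomial Pool.Agent.SparseIrr Pool.Agent.PT Pool.Agent.Book19

variable {F : Type} [Field F]

private theorem supp_Act (x : List (Option (F ⊕ Bool))) (hx : Good x) :
    (∀ u, u < tT x → (Finsupp.equivFunOnFinite.symm fun i : Fin (nn x) => ee x u i) ∈
      (pol x).support) ∧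
      ∀ m ∈ (pol x).support, ∃ u, u < tT x ∧ ∀ i : Fin (nn x), m i = ee x u i := by
  obtain ⟨-, -, -, h4, h5⟩ := hx
  exact (support_fam (nn x) (tT x) (ee x) (cc x) h4 h5).2

private theorem deg_Act (x : List (Option (F ⊕ Bool))) (hx : Good x) (D : ℕ) :
    D ≤ (pol x).totalDegree ↔ ∃ u, u < tT x ∧ D ≤ ∑ i ∈ Finset.range (nn x), ee x u i := by
  obtain ⟨h1, -, -, h4, h5⟩ := hx
  exact (degree_fam (nn x) (tT x) (ee x) (cc x) h4 h5).2 D h1

private theorem dvd_Act (x : List (Option (F ⊕ Bool))) (hx : Good x) (i : Fin (nn x)) :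
    X i ∣ pol x ↔ ∀ u, u < tT x → ee x u i ≠ 0 := by
  classical
  obtain ⟨h1, h2⟩ := supp_Act x hx
  constructor
  · rintro ⟨q, hq⟩ u hu h0
    have h3 := h1 u hu
    rw [mem_support_iff, hq, coeff_X_mul', if_neg] at h3
    · exact h3 rfl
    · rw [Finsupp.mem_support_iff, not_not]
      exact h0
  · intro h
    rw [X_dvd_iff_modMonomial_eq_zero]
    ext m
    rw [coeff_zero]
    by_cases hm : Finsupp.single i 1 ≤ m
    · exact coeff_modMonomial_of_le _ hm
    · rw [coeff_modMonomial_of_not_le _ hm]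
      by_contra hne
      apply hm
      obtain ⟨u, hu, hm'⟩ := h2 m (mem_support_iff.mpr hne)
      have h3 := h u hu
      rw [← hm' i] at h3
      rw [Finsupp.single_le_iff]
      omega

/-- `θ_i f = c f` iff `(ee u i : F) = c` for all terms `u` (`coeff_theta`, `support_fam`), and
`(a : F) = (b : F)` iff `a % p = b % p`. -/
theorem act_iff (p : ℕ) [Fact p.Prime] [CharP F p] (x : List (Option (F ⊕ Bool))) (hx : Good x)
    (i : Fin (nn x)) : act p x i ↔ ¬ ∃ c : F, theta i (pol x) = C c * pol x := by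
  obtain ⟨h1, h2⟩ := supp_Act x hx
  constructor
  · rintro ⟨u, hu, v, hv, huv⟩ ⟨c, hc⟩
    have key : ∀ w, w < tT x → ((ee x w i : ℕ) : F) = c := by
      intro w hw
      have h3 := congrArg
        (coeff (Finsupp.equivFunOnFinite.symm fun i : Fin (nn x) => ee x w i)) hc
      rw [coeff_theta, coeff_C_mul] at h3
      exact mul_right_cancel₀ (mem_support_iff.1 (h1 w hw)) h3
    apply huv
    have h3 : ((ee x u i : ℕ) : F) = ((ee x v i : ℕ) : F) := by rw [key u hu, key v hv]
    exact (CharP.natCast_eq_natCast F p).1 h3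
  · intro h
    by_contra hact
    apply h
    have h0 : 0 < tT x := hx.1
    refine ⟨((ee x 0 i : ℕ) : F), ?_⟩
    ext m
    rw [coeff_theta, coeff_C_mul]
    by_cases hm : m ∈ (pol x).support
    · obtain ⟨u, hu, hmu⟩ := h2 m hm
      congr 1
      rw [hmu i]
      apply (CharP.natCast_eq_natCast F p).2
      change ee x u i % p = ee x 0 i % p
      by_contra hne
      exact hact ⟨u, hu, 0, h0, hne⟩
    · rw [notMem_support_iff.1 hm, mul_zero, mul_zero]

/-- `X_i ∣ f` implies degree one, by counting -/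
def Ax (x : List (Option (F ⊕ Bool))) : Prop :=
  ∀ i, i < nn x → (∀ u, u < tT x → ee x u i ≠ 0) →
    ∀ u, u < tT x → ∑ k ∈ Finset.range (nn x), ee x u k ≤ 1

theorem pos_iff (x : List (Option (F ⊕ Bool))) (hx : Good x) :
    0 < (pol x).totalDegree ↔ ∃ u, u < tT x ∧ ∃ i, i < nn x ∧ ee x u i ≠ 0 := by
  have h1 := deg_Act x hx 1
  rw [Nat.succ_le_iff] at h1
  rw [h1]
  refine exists_congr fun u => and_congr_right fun _ => ?_
  rw [Nat.succ_le_iff, Finset.sum_pos_iff]
  simp only [Finset.mem_range, Nat.pos_iff_ne_zero]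

/-- `X i ∣ f` iff all exponents in the variable `i` are positive (`X_dvd_of_forall` in
`SparseIrr/Main.lean`, `X_dvd_iff_modMonomial_eq_zero`); `degree_fam`. -/
theorem ax_iff (x : List (Option (F ⊕ Bool))) (hx : Good x) (h0 : 0 < (pol x).totalDegree) :
    (∀ i, X i ∣ pol x → (pol x).totalDegree = 1) ↔ Ax x := by
  have h2 := deg_Act x hx 2
  have h3 : (pol x).totalDegree = 1 ↔
      ∀ u, u < tT x → ∑ k ∈ Finset.range (nn x), ee x u k ≤ 1 := by
    constructor
    · intro h u hu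
      by_contra hcon
      have h4 := h2.2 ⟨u, hu, by omega⟩
      omega
    · intro h
      by_contra hcon
      obtain ⟨u, hu, h4⟩ := h2.1 (by omega)
      have h5 := h u hu
      omega
  rw [h3]
  constructor
  · intro h i hi hu
    exact h ⟨i, hi⟩ ((dvd_Act x hx ⟨i, hi⟩).2 hu)
  · intro h i hi
    exact h i i.2 ((dvd_Act x hx i).1 hi)

/-- `UP2.ball`, `UP2.imp`, `uf_nn`, `uf_tT`, `uf_ee` (`SIRM/ReadU.lean`), `UF2.sum`. -/
theorem up_Ax [Fintype F] : UP2 fun (x : List (Option (F ⊕ Bool))) _ _ => Ax x := by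
  have he : ∀ f g : List (Option (F ⊕ Bool)) → List Bool → (ℕ → ℕ) → ℕ, UF2 f → UF2 g →
      UF2 fun (x : List (Option (F ⊕ Bool))) w e => ee x (f x w e) (g x w e) :=
    fun f g hf hg => UF2.comp₂ (f := fun (x : List (Option (F ⊕ Bool))) _ a b => ee x a b)
      uf_ee hf hg
  refine UP2.ball (P := fun x _ _ i => (∀ u, u < tT x → ee x u i ≠ 0) →
    ∀ u, u < tT x → ∑ k ∈ Finset.range (nn x), ee x u k ≤ 1) uf_nn ?_
  refine UP2.imp ?_ ?_
  · refine UP2.ball (P := fun x _ e u => ee x u (e 0) ≠ 0) uf_tT ?_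
    exact (UP2.eq (he _ _ (UF2.var 0) (UF2.var 1)) (UF2.const 0)).not
  · refine UP2.ball (P := fun x _ _ u => ∑ k ∈ Finset.range (nn x), ee x u k ≤ 1) uf_tT ?_
    refine UP2.le ?_ (UF2.const 1)
    exact UF2.sum (f := fun x _ e k => ee x (e 0) k) uf_nn (he _ _ (UF2.var 1) (UF2.var 0))

end Pool.Agent.SIRP
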