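import Pool.Agent.SIRM.UV

/-!
# From terms on a word and a certificate to terms on the word, logarithms, powers, casts
-/

set_option autoImplicit false

namespace Pool.Agent.SIRP

open Pool.Agent.PT Pool.Agent.Book19 Pool.Agent.SIRM

variable {Γ F : Type}

private theorem Base_tr_p : ∀ t : Tm (Γ ⊕ Bool), ∃ t' : Tm Γ,
    ∀ (x : List Γ) (e : ℕ → ℕ), t'.eval x e = t.eval (Pool.Agent.SIRM.pw x []) e
  | .var i => ⟨.var i, fun _ _ => rfl⟩
  | .const c => ⟨.const c, fun _ _ => rfl⟩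
  | .len => ⟨.len, fun x e => by simp [Tm.eval, Pool.Agent.SIRM.pw]⟩
  | .sym (Sum.inl a) t => by
    obtain ⟨t', ht'⟩ := Base_tr_p t
    refine ⟨.sym a t', fun x e => ?_⟩
    have h0 := ht' x e
    simp only [Tm.eval]
    generalize hk0 : t'.eval x e = k at h0 ⊢
    rw [← h0]
    have h1 : (Pool.Agent.SIRM.pw x [])[k]? = some (Sum.inl a) ↔ x[k]? = some a := by
      unfold Pool.Agent.SIRM.pw
      rw [List.map_nil, List.append_nil, List.getElem?_map]
      cases x[k]? <;> simp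
    by_cases h : x[k]? = some a
    · rw [if_pos h, if_pos (h1.2 h)]
    · rw [if_neg h, if_neg fun h' => h (h1.1 h')]
  | .sym (Sum.inr b) t => by
    refine ⟨.const 0, fun x e => ?_⟩
    simp only [Tm.eval]
    generalize t.eval (Pool.Agent.SIRM.pw x []) e = k
    have h1 : ¬ (Pool.Agent.SIRM.pw x [])[k]? = some (Sum.inr b) := by
      unfold Pool.Agent.SIRM.pw
      rw [List.map_nil, List.append_nil, List.getElem?_map]
      cases x[k]? <;> simp
    rw [if_neg h1]
  | .add s t => by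
    obtain ⟨s', hs'⟩ := Base_tr_p s
    obtain ⟨t', ht'⟩ := Base_tr_p t
    exact ⟨.add s' t', fun x e => by simp only [Tm.eval, hs', ht']⟩
  | .sub s t => by
    obtain ⟨s', hs'⟩ := Base_tr_p s
    obtain ⟨t', ht'⟩ := Base_tr_p t
    exact ⟨.sub s' t', fun x e => by simp only [Tm.eval, hs', ht']⟩
  | .sum s t => by
    obtain ⟨s', hs'⟩ := Base_tr_p s
    obtain ⟨t', ht'⟩ := Base_tr_p t
    exact ⟨.sum s' t', fun x e => by simp only [Tm.eval, hs', ht']⟩
  | .lett s t => by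
    obtain ⟨s', hs'⟩ := Base_tr_p s
    obtain ⟨t', ht'⟩ := Base_tr_p t
    exact ⟨.lett s' t', fun x e => by simp only [Tm.eval, hs', ht']⟩
  | .ren σ t => by
    obtain ⟨t', ht'⟩ := Base_tr_p t
    exact ⟨.ren σ t', fun x e => by simp only [Tm.eval, ht']⟩

private theorem Base_pow_p {p : ℕ} (hp : p.Prime) {q : ℕ} (hq : p ≤ q) :
    (∀ d, d < q + 1 → q % d = 0 → d = 1 ∨ d % p = 0) ↔ ∃ k, q = p ^ (k + 1) := by
  constructor
  · intro h
    have h1 : ∀ {r : ℕ}, r.Prime → r ∣ q → r = p := by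
      intro r hr hrq
      have hq0 : 0 < q := lt_of_lt_of_le hp.pos hq
      rcases h r (Nat.lt_succ_of_le (Nat.le_of_dvd hq0 hrq)) (Nat.mod_eq_zero_of_dvd hrq) with
        h2 | h2
      · exact absurd h2 hr.ne_one
      · exact ((Nat.prime_dvd_prime_iff_eq hp hr).1 (Nat.dvd_of_mod_eq_zero h2)).symm
    have h2 := Nat.eq_prime_pow_of_unique_prime_dvd (n := q) (p := p)
      (by have := hp.pos; omega) h1
    have h3 : q.primeFactorsList.length ≠ 0 := by
      intro h4
      rw [h4, pow_zero] at h2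
      have := hp.two_le
      omega
    obtain ⟨k, hk⟩ := Nat.exists_eq_succ_of_ne_zero h3
    exact ⟨k, by rw [← Nat.succ_eq_add_one, ← hk]; exact h2⟩
  · rintro ⟨k, rfl⟩ d _ hd2
    obtain ⟨i, _, rfl⟩ := (Nat.dvd_prime_pow hp).1 (Nat.dvd_of_mod_eq_zero hd2)
    rcases Nat.eq_zero_or_pos i with h | h
    · left
      rw [h, pow_zero]
    · right
      exact Nat.mod_eq_zero_of_dvd (dvd_pow_self p (Nat.pos_iff_ne_zero.1 h))

private theorem Base_log_p {p : ℕ} (hp : p.Prime) (m : ℕ) :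
    Nat.log p m = ((Finset.range (m + 1)).filter fun q =>
      p ≤ q ∧ ∀ d, d < q + 1 → q % d = 0 → d = 1 ∨ d % p = 0).card := by
  have this : (Finset.range (m + 1)).filter (fun q =>
      p ≤ q ∧ ∀ d, d < q + 1 → q % d = 0 → d = 1 ∨ d % p = 0) =
      (Finset.range (Nat.log p m)).image fun k => p ^ (k + 1) := by
    ext q
    simp only [Finset.mem_filter, Finset.mem_range, Finset.mem_image]
    constructor
    · rintro ⟨h1, h2, h3⟩
      obtain ⟨k, rfl⟩ := (Base_pow_p hp h2).1 h3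
      refine ⟨k, ?_, rfl⟩
      have hm : m ≠ 0 := by
        rintro rfl
        have := hp.two_le
        omega
      exact Nat.lt_of_succ_le ((Nat.le_log_iff_pow_le hp.one_lt hm).2 (by
        rw [Nat.succ_eq_add_one]; omega))
    · rintro ⟨k, hk, rfl⟩
      have h2 : p ≤ p ^ (k + 1) := Nat.le_self_pow (Nat.succ_ne_zero k) p
      have hm : m ≠ 0 := by
        rintro rfl
        simp at hk
      have h3 := (Nat.le_log_iff_pow_le hp.one_lt hm).1 (Nat.succ_le_of_lt hk)
      exact ⟨by rw [Nat.succ_eq_add_one] at h3; omega, h2, (Base_pow_p hp h2).2 ⟨k, rfl⟩⟩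
  rw [this, Finset.card_image_of_injective _ (fun a b hab => by
    have := Nat.pow_right_injective hp.two_le hab
    simpa using this), Finset.card_range]

private theorem Base_lt_p {p q j : ℕ} (hp : 1 < p) (hq : 1 ≤ q) :
    Nat.log p q < j ↔ q < p ^ j := by
  rw [← not_le, ← not_le, Nat.le_log_iff_pow_le hp (by omega)]

/-- Take the empty certificate: every term `t` over `Γ ⊕ Bool` has a term `t'` over `Γ` with
`t'.eval x e = t.eval (x.map Sum.inl) e` (induction on `t`; a letter `Sum.inl a` becomes `a`, the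
letters `Sum.inr b` never occur: the constant `0`; compare `Base_trans` in `SIRM/Base.lean`). -/
theorem uf_of_uf2 {f : List Γ → (ℕ → ℕ) → ℕ} (h : UF2 fun x _ e => f x e) : UF f := by
  obtain ⟨G, ⟨t, ht⟩, hG⟩ := h
  obtain ⟨t', ht'⟩ := Base_tr_p t
  exact ⟨t', fun x e => by rw [ht', ht, hG]⟩

/-- From `uf_of_uf2`. -/
theorem up_of_up2 {P : List Γ → (ℕ → ℕ) → Prop} (h : UP2 fun x _ e => P x e) : UP P := by
  classical
  obtain ⟨Q, hQ, h1⟩ := h
  refine uf_of_uf2 ⟨_, hQ, fun x w e => ?_⟩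
  simp only [h1]

/-- As `UF.log` in `SIRM/Base.lean`: for a prime `p`, `Nat.log p n` is the number of the `q ≤ n`,
`p ≤ q`, all of whose divisors `d` satisfy `d = 1 ∨ d % p = 0` (the powers of `p`). -/
theorem uf2_logp (p : ℕ) (hp : p.Prime) {f : List Γ → List Bool → (ℕ → ℕ) → ℕ} (hf : UF2 f) :
    UF2 fun x w e => Nat.log p (f x w e) := by
  classical
  have h1 : UP2 (Γ := Γ) fun _ _ e => p ≤ e 0 ∧
      ∀ d, d < e 0 + 1 → e 0 % d = 0 → d = 1 ∨ d % p = 0 :=
    (UP2.le (UF2.const p) (UF2.var 0)).and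
      (UP2.ball (P := fun _ _ e d => e 0 % d = 0 → d = 1 ∨ d % p = 0)
        ((UF2.var 0).add (UF2.const 1))
        ((UP2.eq ((UF2.var 1).mod (UF2.var 0)) (UF2.const 0)).imp
          ((UP2.eq (UF2.var 0) (UF2.const 1)).or
            (UP2.eq ((UF2.var 0).mod (UF2.const p)) (UF2.const 0)))))
  refine (UF2.sum (b := fun x w e => f x w e + 1) (f := fun _ _ _ q =>
    if p ≤ q ∧ ∀ d, d < q + 1 → q % d = 0 → d = 1 ∨ d % p = 0 then 1 else 0)
    (UF2.add hf (UF2.const 1)) (UF2.ite h1 (UF2.const 1) (UF2.const 0))).congr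
      fun x w e => ?_
  rw [Base_log_p hp, Finset.card_filter]

/-- The power `p ^ j`, if it is at most `B`. -/
def pw (p B j : ℕ) : ℕ := 1 + ∑ q ∈ Finset.range B, if 1 ≤ q ∧ Nat.log p q < j then 1 else 0

/-- For `1 ≤ q`: `Nat.log p q < j ↔ q < p ^ j` (`Nat.log_lt_iff_lt_pow`, or `Nat.lt_pow_iff_log_lt`);
so the sum counts the `q` with `1 ≤ q < p ^ j`. -/
theorem pw_eq (p B j : ℕ) (hp : 1 < p) (h : p ^ j ≤ B) : pw p B j = p ^ j := by
  have hp0 : 0 < p := by omega
  have hj : 0 < p ^ j := Nat.pow_pos hp0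
  unfold pw
  rw [← Finset.card_filter]
  have h1 : (Finset.range B).filter (fun q => 1 ≤ q ∧ Nat.log p q < j) =
      Finset.Ico 1 (p ^ j) := by
    ext q
    simp only [Finset.mem_filter, Finset.mem_range, Finset.mem_Ico]
    constructor
    · rintro ⟨_, h3, h4⟩
      exact ⟨h3, (Base_lt_p hp h3).1 h4⟩
    · rintro ⟨h3, h4⟩
      exact ⟨by omega, h3, (Base_lt_p hp h3).2 h4⟩
  rw [h1, Nat.card_Ico]
  omega

theorem pw_pos (p B j : ℕ) : 0 < pw p B j := by
  unfold pw
  omega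

/-- `uf2_logp`, `UF2.sum`, `UF2.ite`. -/
theorem uf2_pw (p : ℕ) (hp : p.Prime) {B j : List Γ → List Bool → (ℕ → ℕ) → ℕ} (hB : UF2 B)
    (hj : UF2 j) : UF2 fun x w e => pw p (B x w e) (j x w e) := by
  classical
  have h1 : UP2 (Γ := Γ) fun x w e => 1 ≤ e 0 ∧ Nat.log p (e 0) < j x w (fun i => e (i + 1)) :=
    (UP2.le (UF2.const 1) (UF2.var 0)).and
      (UP2.lt (uf2_logp p hp (UF2.var 0)) (UF2.ren (fun i => i + 1) hj))
  refine (UF2.add (UF2.const 1) (UF2.sum (b := B) (f := fun x w e q =>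
    if 1 ≤ q ∧ Nat.log p q < j x w e then 1 else 0) hB
    (UF2.ite h1 (UF2.const 1) (UF2.const 0)))).congr fun x w e => ?_
  rfl

/-- The value depends on the remainder modulo `p`: `UV.table`. -/
theorem uv_natCast [Field F] (p : ℕ) [Fact p.Prime] [CharP F p]
    {f : List Γ → List Bool → (ℕ → ℕ) → ℕ} (hf : UF2 f) :
    UV fun x w e => ((f x w e : ℕ) : F) := by
  have hp : 0 < p := (Fact.out : p.Prime).pos
  refine (UV.table (fun k => (k : F)) p (hf.mod (UF2.const p)) fun x w e =>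
    Nat.mod_lt _ hp).congr fun x w e => ?_
  have h1 : ((f x w e : ℕ) : F) = ((f x w e % p + p * (f x w e / p) : ℕ) : F) := by
    rw [Nat.mod_add_div]
  rw [h1, Nat.cast_add, Nat.cast_mul, CharP.cast_eq_zero F p, zero_mul, add_zero]

end Pool.Agent.SIRP
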