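import Pool.Agent.SIRP.CandA

/-! # The polynomial bound -/

set_option autoImplicit false

namespace Pool.Agent.SIRP

open Pool.Agent.SIRM

variable {F : Type} [Field F]

private theorem bigB_two_pow (N : ℕ) : 2 ^ Nat.log 2 N ≤ N + 1 := by
  rcases Nat.eq_zero_or_pos N with h | h
  · subst h
    simp
  · exact (Nat.pow_log_le_self 2 h.ne').trans (Nat.le_succ N)

private theorem bigB_mm (p : ℕ) (hp : p.Prime) (x : List (Option (F ⊕ Bool))) (d : ℕ)
    (h : ∀ u, u < tT x → ∀ i, i < nn x → ee x u i ≤ d) : mm p x ≤ Nat.log 2 d + 1 := by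
  unfold mm
  have h1 : dd x ≤ d := dd_le_of x d h
  have h2 : Nat.log p (dd x) ≤ Nat.log 2 (dd x) :=
    Nat.log_anti_left (by norm_num) hp.two_le
  have h3 : Nat.log 2 (dd x) ≤ Nat.log 2 d := Nat.log_mono_right h1
  omega

/-- With `a = Nat.log 2 (tT x)`, `b = Nat.log 2 d`, `L = Nat.log 2 x.length`: `tt x = a + 1`,
`mm p x ≤ b + 1` (`dd x ≤ d` by `dd_le_of`; `Nat.log p ≤ Nat.log 2`), so the exponent is at most
`(a + 1) * ((p + 1) * (b + 1))`, and `(a + 1) (b + 1) ≤ (c + 2) L + 1`, `2 ^ L ≤ x.length`. -/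
theorem big_of (p : ℕ) (hp : p.Prime) (c : ℕ) (x : List (Option (F ⊕ Bool))) (hx : Good x)
    (d : ℕ) (hd : d ≤ x.length) (h : ∀ u, u < tT x → ∀ i, i < nn x → ee x u i ≤ d)
    (hl : Nat.log 2 (tT x) * Nat.log 2 d ≤ c * Nat.log 2 x.length) :
    2 ^ (tt x * ((p - 1) * mm p x + 2)) ≤ 2 ^ (p + 1) * (x.length + 1) ^ ((p + 1) * (c + 2)) := by
  have h1 := bigB_mm p hp x d h
  have hT := (good_sizes x hx).1
  set a := Nat.log 2 (tT x) with ha
  set b := Nat.log 2 d with hb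
  set L := Nat.log 2 x.length with hL
  have h2 : a ≤ L := Nat.log_mono_right hT
  have h3 : b ≤ L := Nat.log_mono_right hd
  have h4 : tt x = a + 1 := rfl
  obtain ⟨r, hr⟩ : ∃ r, p = r + 2 := ⟨p - 2, by have := hp.two_le; omega⟩
  have h5 : tt x * ((p - 1) * mm p x + 2) ≤ (p + 1) + L * ((p + 1) * (c + 2)) := by
    have h6 : (p - 1) * mm p x + 2 ≤ (p + 1) * (b + 1) := by
      calc (p - 1) * mm p x + 2 ≤ (p - 1) * (b + 1) + 2 * (b + 1) :=
            add_le_add (Nat.mul_le_mul_left _ h1) (by omega)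
        _ = (p + 1) * (b + 1) := by
            rw [hr]
            have : r + 2 - 1 = r + 1 := by omega
            rw [this]
            ring
    calc tt x * ((p - 1) * mm p x + 2) ≤ (a + 1) * ((p + 1) * (b + 1)) := by
          rw [h4]
          exact Nat.mul_le_mul_left _ h6
      _ = (p + 1) * (a * b + a + b + 1) := by ring
      _ ≤ (p + 1) * (c * L + L + L + 1) := Nat.mul_le_mul_left _ (by omega)
      _ = _ := by ring
  calc 2 ^ (tt x * ((p - 1) * mm p x + 2)) ≤ 2 ^ ((p + 1) + L * ((p + 1) * (c + 2))) :=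
        Nat.pow_le_pow_right (by norm_num) h5
    _ = 2 ^ (p + 1) * (2 ^ L) ^ ((p + 1) * (c + 2)) := by rw [pow_add, pow_mul 2 L]
    _ ≤ _ := Nat.mul_le_mul_left _ (Nat.pow_le_pow_left (bigB_two_pow x.length) _)

/-- `2 ^ tt x ≤ 2 * tT x ≤ 2 * x.length` and `mm p x ≤ Nat.log 2 t + 1`. -/
theorem big_of_le (p : ℕ) (hp : p.Prime) (t : ℕ) (x : List (Option (F ⊕ Bool))) (hx : Good x)
    (h : ∀ u, u < tT x → ∀ i, i < nn x → ee x u i ≤ t) :
    2 ^ (tt x * ((p - 1) * mm p x + 2)) ≤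
      (2 * (x.length + 1)) ^ ((p - 1) * (Nat.log 2 t + 1) + 2) := by
  have h1 := bigB_mm p hp x t h
  have hT := (good_sizes x hx).1
  have h2 : 2 ^ tt x ≤ 2 * (x.length + 1) := by
    have h3 : tt x = Nat.log 2 (tT x) + 1 := rfl
    rw [h3, pow_succ, mul_comm]
    refine Nat.mul_le_mul_left _ ?_
    exact (bigB_two_pow (tT x)).trans (by omega)
  calc 2 ^ (tt x * ((p - 1) * mm p x + 2)) = (2 ^ tt x) ^ ((p - 1) * mm p x + 2) := pow_mul _ _ _
    _ ≤ (2 * (x.length + 1)) ^ ((p - 1) * mm p x + 2) := Nat.pow_le_pow_left h2 _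
    _ ≤ _ := Nat.pow_le_pow_right (by omega)
        (Nat.add_le_add_right (Nat.mul_le_mul_left _ h1) 2)

end Pool.Agent.SIRP
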