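import Pool.Agent.SIRP.Defs
import Pool.Agent.SIRM.Read

/-! # Powers and digits -/

set_option autoImplicit false

namespace Pool.Agent.SIRP

open Pool.Agent.SIRM

variable {F : Type} [Field F]

/-- `pw_eq`. -/
theorem two_eq (p : ℕ) (P : Polynomial ℕ) (x : List (Option (F ⊕ Bool))) (hB : Big p P x) (k : ℕ)
    (hk : k ≤ tt x * ((p - 1) * mm p x + 2)) : two P x k = 2 ^ k := by
  unfold two
  exact pw_eq 2 _ k one_lt_two ((Nat.pow_le_pow_right two_pos hk).trans hB)

theorem dd_le (x : List (Option (F ⊕ Bool))) : dd x ≤ x.length := by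
  classical
  unfold dd
  refine (Finset.sum_le_sum (g := fun _ => 1) fun q _ => ?_).trans ?_
  · split_ifs <;> omega
  · simp

/-- `ee x u i ≤ x.length` by `good_sizes`, so the sum `dd x` is the maximum. -/
theorem ee_le_dd (x : List (Option (F ⊕ Bool))) (hx : Good x) (u : ℕ) (hu : u < tT x) (i : ℕ)
    (hi : i < nn x) : ee x u i ≤ dd x := by
  classical
  have h1 : ee x u i ≤ x.length := (Finset.single_le_sum (f := fun i => ee x u i)
    (fun _ _ => Nat.zero_le _) (Finset.mem_range.2 hi)).trans ((good_sizes x hx).2.2 u hu)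
  unfold dd
  have h2 : ∑ q ∈ Finset.range (ee x u i), 1 ≤ ∑ q ∈ Finset.range (ee x u i),
      if ∃ u, u < tT x ∧ ∃ i, i < nn x ∧ q < ee x u i then 1 else 0 := by
    refine Finset.sum_le_sum fun q hq => ?_
    rw [if_pos ⟨u, hu, i, hi, Finset.mem_range.1 hq⟩]
  rw [Finset.sum_const, Finset.card_range, smul_eq_mul, mul_one] at h2
  refine h2.trans (Finset.sum_le_sum_of_subset ?_)
  exact Finset.range_mono h1

/-- `dd x` is an upper bound only if it is attained: for all `d`, if all exponents are at most `d`,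
then `dd x ≤ d`. -/
theorem dd_le_of (x : List (Option (F ⊕ Bool))) (d : ℕ)
    (h : ∀ u, u < tT x → ∀ i, i < nn x → ee x u i ≤ d) : dd x ≤ d := by
  classical
  unfold dd
  rw [← Finset.sum_filter, Finset.sum_const, smul_eq_mul, mul_one]
  have h1 : (Finset.range x.length).filter
      (fun q => ∃ u, u < tT x ∧ ∃ i, i < nn x ∧ q < ee x u i) ⊆ Finset.range d := by
    intro q hq
    obtain ⟨-, u, hu, i, hi, h2⟩ := Finset.mem_filter.1 hq
    exact Finset.mem_range.2 (h2.trans_le (h u hu i hi))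
  exact (Finset.card_le_card h1).trans (by rw [Finset.card_range])

/-- `p ^ Nat.log p (dd x) ≤ max (dd x) 1`. -/
theorem pwx_eq (p : ℕ) (hp : p.Prime) (x : List (Option (F ⊕ Bool))) (j : ℕ) (hj : j ≤ mm p x) :
    pwx p x j = p ^ j := by
  unfold pwx
  refine pw_eq p _ j hp.one_lt ?_
  refine (Nat.pow_le_pow_right hp.pos hj).trans ?_
  unfold mm
  rw [pow_succ, mul_comm]
  refine Nat.mul_le_mul_left p ?_
  by_cases h : dd x = 0
  · rw [h, Nat.log_zero_right, pow_zero]
    omega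
  · have h1 := Nat.pow_log_le_self p h
    have h2 := dd_le x
    omega

theorem ee_lt (p : ℕ) (hp : p.Prime) (x : List (Option (F ⊕ Bool))) (hx : Good x) (u : ℕ)
    (hu : u < tT x) (i : ℕ) (hi : i < nn x) : ee x u i < p ^ mm p x :=
  (ee_le_dd x hx u hu i hi).trans_lt (Nat.lt_pow_succ_log_self hp.one_lt _)

/-- sums of digits are small -/
private theorem digits_lt (b : ℕ) (d : ℕ → ℕ) (hd : ∀ r, d r < b) (N : ℕ) :
    ∑ r ∈ Finset.range N, d r * b ^ r < b ^ N := by
  induction N with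
  | zero => simp
  | succ N ih =>
    rw [Finset.sum_range_succ, pow_succ]
    have h1 : (d N + 1) * b ^ N ≤ b * b ^ N := Nat.mul_le_mul_right _ (hd N)
    have h2 : (d N + 1) * b ^ N = d N * b ^ N + b ^ N := by ring
    have h3 : b * b ^ N = b ^ N * b := mul_comm _ _
    omega

private theorem digits_get (b : ℕ) (d : ℕ → ℕ) (hd : ∀ r, d r < b) (N r : ℕ) (hr : r < N) :
    (∑ r ∈ Finset.range N, d r * b ^ r) / b ^ r % b = d r := by
  have hb : 0 < b := (Nat.zero_le _).trans_lt (hd 0)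
  obtain ⟨M, rfl⟩ : ∃ M, N = r + (1 + M) := ⟨N - r - 1, by omega⟩
  rw [Finset.sum_range_add, add_comm 1 M, Finset.sum_range_succ']
  have h1 : ∀ q ∈ Finset.range M, d (r + (q + 1)) * b ^ (r + (q + 1)) =
      b ^ r * (b * (d (r + (q + 1)) * b ^ q)) := fun q _ => by ring
  rw [Finset.sum_congr rfl h1, ← Finset.mul_sum, ← Finset.mul_sum]
  have h2 : ∑ x ∈ Finset.range r, d x * b ^ x +
      (b ^ r * (b * ∑ q ∈ Finset.range M, d (r + (q + 1)) * b ^ q) +
        d (r + 0) * b ^ (r + 0)) = ∑ x ∈ Finset.range r, d x * b ^ x +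
      b ^ r * (d r + b * ∑ q ∈ Finset.range M, d (r + (q + 1)) * b ^ q) := by
    rw [add_zero]
    ring
  rw [h2, Nat.add_mul_div_left _ _ (pow_pos hb r), Nat.div_eq_of_lt (digits_lt b d hd r),
    zero_add, Nat.add_mul_mod_self_left, Nat.mod_eq_of_lt (hd r)]

/-- `κ = ∑ r, d r * (2 ^ tt) ^ r`; `two_eq`. Digits in base `2 ^ tt x` with
`(p - 1) * mm p x + 2` digits. -/
theorem exists_digits (p : ℕ) (P : Polynomial ℕ) (x : List (Option (F ⊕ Bool))) (hB : Big p P x)
    (d : ℕ → ℕ) (hd : ∀ r, d r < tT x) :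
    ∃ κ, κ < SS p P x ∧ ∀ r, r < (p - 1) * mm p x + 2 → dg P x κ r = d r := by
  have hT : tT x < 2 ^ tt x := Nat.lt_pow_succ_log_self one_lt_two _
  have hd' : ∀ r, d r < 2 ^ tt x := fun r => (hd r).trans hT
  refine ⟨∑ r ∈ Finset.range ((p - 1) * mm p x + 2), d r * (2 ^ tt x) ^ r, ?_, fun r hr => ?_⟩
  · unfold SS
    rw [two_eq p P x hB _ le_rfl, pow_mul]
    exact digits_lt _ d hd' _
  · unfold dg
    rw [two_eq p P x hB _ (Nat.mul_le_mul_left _ hr.le), two_eq p P x hB _ ?_, pow_mul]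
    · exact digits_get _ d hd' _ r hr
    · exact Nat.le_mul_of_pos_right _ (by omega)

end Pool.Agent.SIRP
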