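import Pool.Agent.SIRP.CandA
import Pool.Agent.SparseIrr.Cand

/-! # The candidates contain `cand` -/

set_option autoImplicit false

namespace Pool.Agent.SIRP

open Pool.Agent.SIRM MvPolynomial Pool.Agent.SparseIrr

variable {F : Type} [Field F]

open Classical in
private theorem support_pol (x : List (Option (F ⊕ Bool))) (β : Fin (nn x) →₀ ℕ)
    (h : β ∈ (pol x).support) : ∃ v, v < tT x ∧ ∀ i : Fin (nn x), β i = ee x v i := by
  rw [mem_support_iff] at h
  by_contra h1
  apply h
  unfold pol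
  rw [coeff_fam]
  refine Finset.sum_eq_zero fun v hv => ?_
  rw [if_neg]
  intro h2
  exact h1 ⟨v, Finset.mem_range.mp hv, fun i => (h2 i).symm⟩

/-- The exponents of `f ^ k` are sums of `k` exponents of `f` (`support_mul`, induction). -/
theorem support_pow (x : List (Option (F ⊕ Bool))) (k : ℕ) :
    ∀ β ∈ (pol x ^ k).support, ∃ d : ℕ → ℕ, (∀ r, r < k → d r < tT x) ∧
      ∀ i : Fin (nn x), β i = ∑ r ∈ Finset.range k, ee x (d r) i := by
  classical
  induction k with
  | zero =>
    intro β hβ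
    rw [pow_zero, mem_support_iff, coeff_one] at hβ
    have h0 : 0 = β := by
      by_contra h
      exact hβ (if_neg h)
    refine ⟨fun _ => 0, fun r hr => absurd hr (Nat.not_lt_zero r), fun i => ?_⟩
    rw [← h0, Finset.range_zero, Finset.sum_empty]
    rfl
  | succ k ih =>
    intro β hβ
    rw [pow_succ] at hβ
    obtain ⟨β1, h1, β2, h2, rfl⟩ := Finset.mem_add.1 (support_mul _ _ hβ)
    obtain ⟨d, hd, hs⟩ := ih β1 h1
    obtain ⟨v, hv, hv2⟩ := support_pol x β2 h2
    refine ⟨fun r => if r = k then v else d r, ?_, ?_⟩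
    · intro r hr
      by_cases h : r = k
      · simp only [h, if_true]
        exact hv
      · simp only [h, if_false]
        exact hd r (by omega)
    · intro i
      rw [Finset.sum_range_succ, Finsupp.add_apply, hs i, hv2 i]
      simp only [if_true]
      congr 1
      refine Finset.sum_congr rfl fun r hr => ?_
      rw [if_neg]
      have := Finset.mem_range.1 hr
      omega

open scoped Classical in
private theorem mem_cand_CandB {σ K : Type*} [Field K] (p m : ℕ) (f : MvPolynomial σ K)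
    (β : σ →₀ ℕ) (h : β ∈ cand p m f) :
    ∃ δ : Fin m → (σ →₀ ℕ), (∀ j, δ j ∈ (f ^ (p - 1)).support) ∧
      β = ceilDiv (p ^ m) (∑ j : Fin m, p ^ (j : ℕ) • δ j) := by
  unfold cand at h
  rw [Finset.mem_image] at h
  obtain ⟨δ, hδ, h2⟩ := h
  exact ⟨δ, Fintype.mem_piFinset.1 hδ, h2.symm⟩

private theorem sum_regroup (q : ℕ) (g : ℕ → ℕ) (m : ℕ) :
    ∑ r ∈ Finset.range (q * m), g r =
      ∑ j ∈ Finset.range m, ∑ s ∈ Finset.range q, g (q * j + s) := by
  induction m with
  | zero => simp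
  | succ m ih =>
    rw [Finset.sum_range_succ, ← ih, Nat.mul_succ, Finset.sum_range_add]

/-- `β = ceilDiv (p ^ m) (∑ j < m, p ^ j • δ j)` with `δ j` in the support of `f ^ (p - 1)`
(`support_pow`, digits `d j r`, `r < p - 1`), `m = mm p x`; take `κ` from `exists_digits` with the digit
`d j s` at the place `(p - 1) * j + s`, `0` at the last two places (`0 < tT x`); regroup the sum over
`r < (p - 1) * m` as a double sum over `j < m`, `s < p - 1` (`r / (p - 1) = j`). -/
theorem cand_subset (p : ℕ) (hp : p.Prime) (P : Polynomial ℕ) (x : List (Option (F ⊕ Bool)))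
    (hx : Good x) (hB : Big p P x) :
    ∀ β ∈ cand p (mm p x) (pol x), ∃ κ, κ < SS p P x ∧
      ∀ k : Fin (nn x), β k = cE p P x κ k := by
  classical
  intro β hβ
  obtain ⟨δ, hδ, rfl⟩ := mem_cand_CandB p (mm p x) (pol x) β hβ
  choose d hd hs using fun j => support_pow x (p - 1) (δ j) (hδ j)
  have hq : 0 < p - 1 := by
    have := hp.two_le
    omega
  obtain ⟨D, hD⟩ : ∃ D : ℕ → ℕ, D = fun ρ => if h : ρ / (p - 1) < mm p x then
    d ⟨ρ / (p - 1), h⟩ (ρ % (p - 1)) else 0 := ⟨_, rfl⟩
  have hDT : ∀ r, D r < tT x := by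
    intro r
    rw [hD]
    by_cases h : r / (p - 1) < mm p x
    · simp only [h, dif_pos]
      exact hd _ _ (Nat.mod_lt _ hq)
    · simp only [h]
      exact hx.1
  obtain ⟨κ, hκ, hdg⟩ := exists_digits p P x hB D hDT
  refine ⟨κ, hκ, fun k => ?_⟩
  have hsum : (∑ j : Fin (mm p x), p ^ (j : ℕ) • δ j) k =
      ∑ r ∈ Finset.range ((p - 1) * mm p x), pwx p x (r / (p - 1)) * eE x (dg P x κ r) k := by
    rw [Finsupp.finsetSum_apply, sum_regroup, Finset.sum_range]
    refine Finset.sum_congr rfl fun j _ => ?_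
    rw [Finsupp.smul_apply, smul_eq_mul, hs j k, Finset.mul_sum]
    refine Finset.sum_congr rfl fun s hs' => ?_
    have hs2 := Finset.mem_range.1 hs'
    have e1 : ((p - 1) * (j : ℕ) + s) / (p - 1) = j := by
      rw [Nat.mul_add_div hq, Nat.div_eq_of_lt hs2, add_zero]
    have e2 : ((p - 1) * (j : ℕ) + s) % (p - 1) = s := by
      rw [Nat.mul_add_mod, Nat.mod_eq_of_lt hs2]
    have e3 : (p - 1) * (j : ℕ) + s < (p - 1) * mm p x + 2 := by
      have h1 : (j : ℕ) + 1 ≤ mm p x := j.2
      have h2 : (p - 1) * ((j : ℕ) + 1) ≤ (p - 1) * mm p x := Nat.mul_le_mul_left _ h1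
      rw [Nat.mul_succ] at h2
      omega
    have e4 : D ((p - 1) * (j : ℕ) + s) = d j s := by
      rw [hD]
      simp only [e1, e2, Fin.is_lt, dif_pos, Fin.eta]
    rw [hdg _ e3, e1, pwx_eq p hp x _ j.2.le, e4]
    unfold eE
    rw [if_pos (hd j s hs2)]
  show (ceilDiv (p ^ mm p x) (∑ j : Fin (mm p x), p ^ (j : ℕ) • δ j)) k = _
  unfold ceilDiv cE
  rw [Finsupp.mapRange_apply, hsum, pwx_eq p hp x _ le_rfl]

end Pool.Agent.SIRP
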