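import Pool.Agent.SIRP.CandB
import Pool.Agent.SIRM.FamS

/-! # The candidates for the quotients -/

set_option autoImplicit false

namespace Pool.Agent.SIRP

open Pool.Agent.SIRM MvPolynomial Pool.Agent.SparseIrr

variable {F : Type} [Field F]

private theorem supp_char_CandC {σ : Type} (p : ℕ) [hp : Fact p.Prime] [CharP F p]
    (g : MvPolynomial σ F) (β : σ →₀ ℕ) (hβ : β ∈ (g ^ p).support) :
    ∃ α ∈ g.support, β = p • α := by
  have h1 : ∀ j, p ∣ β j := by
    intro j
    by_contra h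
    exact (mem_support_iff.mp hβ) (coeff_pow_char_eq_zero p g β j h)
  obtain ⟨α, rfl⟩ := exists_smul_eq p β h1
  refine ⟨α, ?_, rfl⟩
  rw [mem_support_iff]
  intro h2
  apply mem_support_iff.mp hβ
  rw [coeff_pow_smul, h2, zero_pow hp.out.ne_zero]

private theorem supp_charPow_CandC {σ : Type} (p : ℕ) [hp : Fact p.Prime] [CharP F p]
    (g : MvPolynomial σ F) (j : ℕ) : ∀ β ∈ (g ^ (p ^ j)).support,
    ∃ α ∈ g.support, β = p ^ j • α := by
  induction j with
  | zero =>
    intro β hβ
    rw [pow_zero, pow_one] at hβ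
    exact ⟨β, hβ, by simp⟩
  | succ j ih =>
    intro β hβ
    rw [pow_succ, pow_mul] at hβ
    obtain ⟨α, hα, rfl⟩ := supp_char_CandC p _ β hβ
    obtain ⟨α', hα', rfl⟩ := ih α hα
    exact ⟨α', hα', by rw [smul_smul, pow_succ, mul_comm]⟩

private theorem coeff_charPow_CandC {σ : Type} (p : ℕ) [hp : Fact p.Prime] [CharP F p]
    (g : MvPolynomial σ F) (α : σ →₀ ℕ) (j : ℕ) :
    coeff (p ^ j • α) (g ^ (p ^ j)) = (coeff α g) ^ (p ^ j) := by
  induction j with
  | zero => simp
  | succ j ih =>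
    rw [pow_succ, pow_mul, mul_comm (p ^ j) p, ← smul_smul, coeff_pow_smul, ih, ← pow_mul,
      mul_comm (p ^ j) p]

private theorem geom_CandC (p m : ℕ) (hp : 0 < p) :
    p ^ (m + 1) - 1 = (p ^ m - 1) + p ^ m * (p - 1) := by
  have h1 : 0 < p ^ m := pow_pos hp m
  obtain ⟨k, rfl⟩ : ∃ k, p = k + 1 := ⟨p - 1, by omega⟩
  have h2 : (k + 1) ^ (m + 1) = (k + 1) ^ m + (k + 1) ^ m * k := by ring
  rw [h2, Nat.add_sub_cancel]
  omega

private theorem supp_geom_CandC (p : ℕ) [hp : Fact p.Prime] [CharP F p]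
    (x : List (Option (F ⊕ Bool))) (m : ℕ) :
    ∀ β ∈ (pol x ^ (p ^ m - 1)).support, ∃ d : ℕ → ℕ,
      (∀ r, r < (p - 1) * m → d r < tT x) ∧
      ∀ k : Fin (nn x), β k =
        ∑ r ∈ Finset.range ((p - 1) * m), p ^ (r / (p - 1)) * ee x (d r) k := by
  classical
  have hp1 : 0 < p - 1 := by have := hp.out.two_le; omega
  induction m with
  | zero =>
    intro β hβ
    rw [pow_zero, Nat.sub_self, pow_zero, mem_support_iff, coeff_one] at hβ
    have h0 : (0 : Fin (nn x) →₀ ℕ) = β := by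
      by_contra h
      exact hβ (if_neg h)
    refine ⟨fun _ => 0, fun r hr => absurd hr (by simp), fun k => ?_⟩
    rw [← h0]
    simp
  | succ m ih =>
    intro β hβ
    rw [geom_CandC p m hp.out.pos, pow_add] at hβ
    obtain ⟨β1, h1, β2, h2, rfl⟩ := Finset.mem_add.mp (support_mul _ _ hβ)
    obtain ⟨d, hd, hd'⟩ := ih β1 h1
    rw [mul_comm (p ^ m), pow_mul] at h2
    obtain ⟨α, hα, rfl⟩ := supp_charPow_CandC p _ m β2 h2
    obtain ⟨d2, hd2, hd2'⟩ := support_pow x (p - 1) α hα
    refine ⟨fun r => if r < (p - 1) * m then d r else d2 (r - (p - 1) * m), ?_, ?_⟩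
    · intro r hr
      rw [mul_add, mul_one] at hr
      simp only
      split_ifs with h
      · exact hd r h
      · exact hd2 _ (by omega)
    · intro k
      rw [mul_add, mul_one, Finset.sum_range_add, Finsupp.add_apply, hd' k, Finsupp.smul_apply,
        hd2' k, smul_eq_mul, Finset.mul_sum]
      congr 1
      · refine Finset.sum_congr rfl fun r hr => ?_
        simp only
        rw [if_pos (Finset.mem_range.mp hr)]
      · refine Finset.sum_congr rfl fun r hr => ?_
        have hr' := Finset.mem_range.mp hr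
        simp only
        rw [if_neg (by omega), Nat.mul_add_div hp1, Nat.div_eq_of_lt hr', add_zero,
          Nat.add_sub_cancel_left]

private theorem supp_pol_CandC (x : List (Option (F ⊕ Bool))) :
    ∀ β ∈ (pol x).support, ∃ u, u < tT x ∧ ∀ k : Fin (nn x), β k = ee x u k := by
  intro β hβ
  have h1 : β ∈ (pol x ^ 1).support := by rwa [pow_one]
  obtain ⟨d, hd, hd'⟩ := support_pow x 1 β h1
  refine ⟨d 0, hd 0 Nat.one_pos, fun k => ?_⟩
  rw [hd' k, Finset.sum_range_one]

/-- The exponents of `f ^ (p ^ m - 1) * (θ_i f) ^ 2` are of the form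
`ee u + ee u' + ∑ r < (p - 1) m, p ^ (r / (p - 1)) * ee (d r)`: `f ^ (p ^ m - 1) = ∏ j < m, (f ^ (p - 1)) ^
(p ^ j)` and the exponents of `h ^ (p ^ j)` are `p ^ j` times exponents of `h` (Frobenius); the exponents
of `θ_i f` are exponents of `f`. -/
theorem support_frob (p : ℕ) [Fact p.Prime] [CharP F p] (x : List (Option (F ⊕ Bool))) (m : ℕ)
    (i : Fin (nn x)) :
    ∀ β ∈ (pol x ^ (p ^ m - 1) * theta i (pol x) ^ 2).support, ∃ (u u' : ℕ) (d : ℕ → ℕ),
      u < tT x ∧ u' < tT x ∧ (∀ r, r < (p - 1) * m → d r < tT x) ∧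
      ∀ k : Fin (nn x), β k = ee x u k + ee x u' k +
        ∑ r ∈ Finset.range ((p - 1) * m), p ^ (r / (p - 1)) * ee x (d r) k := by
  classical
  intro β hβ
  obtain ⟨β1, h1, β2, h2, rfl⟩ := Finset.mem_add.mp (support_mul _ _ hβ)
  rw [sq] at h2
  obtain ⟨β3, h3, β4, h4, rfl⟩ := Finset.mem_add.mp (support_mul _ _ h2)
  obtain ⟨d, hd, hd'⟩ := supp_geom_CandC p x m β1 h1
  obtain ⟨u, hu, hu'⟩ := supp_pol_CandC x β3 (support_theta_subset i _ h3)
  obtain ⟨u', hv, hv'⟩ := supp_pol_CandC x β4 (support_theta_subset i _ h4)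
  refine ⟨u, u', d, hu, hv, hd, fun k => ?_⟩
  rw [Finsupp.add_apply, Finsupp.add_apply, hd' k, hu' k, hv' k]
  ring

/-- Let `q = p ^ mm p x`, larger than all exponents of `f = pol x` (`ee_lt`), `f w = v (θ_i f) ^ 2`, `β` in the
support of `w` (so `v ≠ 0`). The exponents of `w` are smaller than `q` (degrees in each variable add:
`degreeOf w + degreeOf f ≤ 2 degreeOf f`). Let `α` be an exponent of `f`. The coefficient of
`w f ^ q = v f ^ (q - 1) (θ_i f) ^ 2` at `β + q α` is `w_β f_α ^ q ≠ 0`, as `f ^ q = ∑ f_α' ^ q X ^ (q α')`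
and `β + q (α - α')` has an entry outside `[0, q)` for `α' ≠ α` (compare `cofactor_bound` in
`SparseIrr/Basic.lean`). `support_frob`, and modulo `q`: `exists_digits` with the digits `u`, `u'`,
`d r` at the places `0`, `1`, `r + 2`. -/
theorem quot_support (p : ℕ) [Fact p.Prime] [CharP F p] (P : Polynomial ℕ)
    (x : List (Option (F ⊕ Bool))) (hx : Good x) (hB : Big p P x) (i : Fin (nn x))
    (w : MvPolynomial (Fin (nn x)) F) (v : F) (h : pol x * w = C v * theta i (pol x) ^ 2) :
    ∀ β ∈ w.support, ∃ κ, κ < SS p P x ∧ ∀ k : Fin (nn x), β k = c2E p P x κ k := by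
  classical
  have hp : p.Prime := Fact.out
  intro β hβ
  have hT : 0 < tT x := hx.1
  -- `f` is not zero
  obtain ⟨hcard, hsup, hsup'⟩ := support_fam (nn x) (tT x) (ee x) (cc x) hx.2.2.2.1 hx.2.2.2.2
  have hcard' : (pol x).support.card = tT x := hcard
  have hf0 : pol x ≠ 0 := by
    intro h0
    rw [h0, support_zero, Finset.card_empty] at hcard'
    omega
  have hw0 : w ≠ 0 := by
    rintro rfl
    simp at hβ
  have hne : C v * theta i (pol x) ^ 2 ≠ 0 := by
    rw [← h]
    exact mul_ne_zero hf0 hw0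
  have hv0 : v ≠ 0 := by
    rintro rfl
    rw [C_0, zero_mul] at hne
    exact hne rfl
  -- degrees
  have hfq : ∀ γ ∈ (pol x).support, ∀ k, γ k < p ^ mm p x := by
    intro γ hγ k
    obtain ⟨u, hu, hu'⟩ := supp_pol_CandC x γ hγ
    rw [hu' k]
    exact ee_lt p hp x hx u hu k k.2
  have hdegf : ∀ k, (pol x).degreeOf k < p ^ mm p x := by
    intro k
    rw [degreeOf_lt_iff (pow_pos hp.pos _)]
    exact fun γ hγ => hfq γ hγ k
  have hwq : ∀ γ ∈ w.support, ∀ k, γ k < p ^ mm p x := by
    intro γ hγ k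
    have h1 : (pol x).degreeOf k + w.degreeOf k ≤ 2 * (pol x).degreeOf k := by
      rw [← degreeOf_mul_eq hf0 hw0, h]
      refine (degreeOf_C_mul_le _ _ _).trans ((degreeOf_pow_le _ _ _).trans ?_)
      exact Nat.mul_le_mul_left 2 (degreeOf_theta_le i k _)
    have h2 : γ k ≤ w.degreeOf k := monomial_le_degreeOf k hγ
    have h3 := hdegf k
    omega
  -- the coefficient
  obtain ⟨α, hα⟩ : (pol x).support.Nonempty := by
    rw [← Finset.card_pos, hcard']
    exact hT
  have hco : coeff (p ^ mm p x • α + β) (pol x ^ (p ^ mm p x) * w) =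
      coeff α (pol x) ^ (p ^ mm p x) * coeff β w := by
    rw [coeff_mul, Finset.sum_eq_single (p ^ mm p x • α, β), coeff_charPow_CandC]
    · rintro ⟨γ1, γ2⟩ hγ hne'
      rw [Finset.HasAntidiagonal.mem_antidiagonal] at hγ
      simp only at hγ ⊢
      by_contra h0
      obtain ⟨ha, hb⟩ := mul_ne_zero_iff.mp h0
      obtain ⟨α', hα', rfl⟩ := supp_charPow_CandC p _ _ γ1 (mem_support_iff.mpr ha)
      apply hne'
      have hk : ∀ k, γ2 k = β k ∧ α' k = α k := by
        intro k
        have e1 := DFunLike.congr_fun hγ k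
        simp only [Finsupp.add_apply, Finsupp.smul_apply, smul_eq_mul] at e1
        have b1 := hwq γ2 (mem_support_iff.mpr hb) k
        have b2 := hwq β hβ k
        have hq : 0 < p ^ mm p x := pow_pos hp.pos _
        have c1 : (p ^ mm p x * α' k + γ2 k) % p ^ mm p x = γ2 k := by
          rw [Nat.mul_add_mod, Nat.mod_eq_of_lt b1]
        have c2 : (p ^ mm p x * α k + β k) % p ^ mm p x = β k := by
          rw [Nat.mul_add_mod, Nat.mod_eq_of_lt b2]
        have c3 : γ2 k = β k := by rw [← c1, ← c2, e1]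
        refine ⟨c3, ?_⟩
        rw [c3] at e1
        exact Nat.eq_of_mul_eq_mul_left hq (Nat.add_right_cancel e1)
      have e2 : γ2 = β := Finsupp.ext fun k => (hk k).1
      have e3 : α' = α := Finsupp.ext fun k => (hk k).2
      rw [e2, e3]
    · intro h0
      rw [Finset.HasAntidiagonal.mem_antidiagonal] at h0
      exact absurd rfl h0
  have hq1 : 0 < p ^ mm p x := pow_pos hp.pos _
  have hmem : p ^ mm p x • α + β ∈
      (pol x ^ (p ^ mm p x - 1) * theta i (pol x) ^ 2).support := by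
    have h1 : pol x ^ (p ^ mm p x) * w =
        C v * (pol x ^ (p ^ mm p x - 1) * theta i (pol x) ^ 2) := by
      calc pol x ^ (p ^ mm p x) * w = pol x ^ (p ^ mm p x - 1) * (pol x * w) := by
            rw [← mul_assoc, ← pow_succ, Nat.sub_add_cancel hq1]
        _ = _ := by rw [h]; ring
    rw [h1, coeff_C_mul] at hco
    rw [mem_support_iff]
    intro h0
    rw [h0, mul_zero] at hco
    exact mul_ne_zero (pow_ne_zero _ (mem_support_iff.mp hα)) (mem_support_iff.mp hβ) hco.symm
  obtain ⟨u, u', d, hu, hu', hd, hsum⟩ := support_frob p x (mm p x) i _ hmem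
  obtain ⟨κ, hκ, hdg⟩ := exists_digits p P x hB
    (fun r => if r = 0 then u else if r = 1 then u' else
      if r - 2 < (p - 1) * mm p x then d (r - 2) else 0) (by
      intro r
      split_ifs with h1 h2 h3
      · exact hu
      · exact hu'
      · exact hd _ h3
      · exact hT)
  refine ⟨κ, hκ, fun k => ?_⟩
  have hp1 : 0 < p - 1 := by have := hp.two_le; omega
  have d0 : dg P x κ 0 = u := by
    rw [hdg 0 (by omega)]
    simp
  have d1 : dg P x κ 1 = u' := by
    rw [hdg 1 (by omega)]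
    simp
  have d2 : ∀ r, r < (p - 1) * mm p x → dg P x κ (r + 2) = d r := by
    intro r hr
    rw [hdg (r + 2) (by omega)]
    rw [if_neg (by omega), if_neg (by omega), Nat.add_sub_cancel, if_pos hr]
  have hval : c2E p P x κ k = (ee x u k + ee x u' k +
      ∑ r ∈ Finset.range ((p - 1) * mm p x), p ^ (r / (p - 1)) * ee x (d r) k) % p ^ mm p x := by
    unfold c2E
    rw [pwx_eq p hp x _ le_rfl, d0, d1]
    have e1 : eE x u k = ee x u k := if_pos hu
    have e2 : eE x u' k = ee x u' k := if_pos hu'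
    rw [e1, e2]
    congr 2
    refine Finset.sum_congr rfl fun r hr => ?_
    have hr' := Finset.mem_range.mp hr
    rw [d2 r hr', pwx_eq p hp x _ (Nat.div_le_of_le_mul hr'.le)]
    have e3 : eE x (d r) k = ee x (d r) k := if_pos (hd r hr')
    rw [e3]
  have hk := hsum k
  rw [Finsupp.add_apply, Finsupp.smul_apply, smul_eq_mul] at hk
  rw [hval, ← hk, Nat.mul_add_mod, Nat.mod_eq_of_lt (hwq β hβ k)]

end Pool.Agent.SIRP
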