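import Pool.Agent.SIRP.Defs

/-! # Decoding the columns -/

set_option autoImplicit false

namespace Pool.Agent.SIRP

open Pool.Agent.SIRM

variable {F : Type} [Field F] (p : ℕ) (P : Polynomial ℕ) (e : ℕ) (x : List (Option (F ⊕ Bool)))

private theorem cols_div {a m b : ℕ} (hb : b < m) : (a * m + b) / m = a := by
  rw [Nat.add_comm, Nat.add_mul_div_right _ _ (Nat.pos_of_ne_zero (by omega)),
    Nat.div_eq_of_lt hb, Nat.zero_add]

private theorem cols_mod {a m b : ℕ} (hb : b < m) : (a * m + b) % m = b := by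
  rw [Nat.add_comm, Nat.add_mul_mod_self_right, Nat.mod_eq_of_lt hb]

private theorem cols_lt {a A m b : ℕ} (ha : a < A) (hb : b < m) : a * m + b < A * m :=
  calc a * m + b < a * m + m := by omega
    _ = (a + 1) * m := by ring
    _ ≤ A * m := Nat.mul_le_mul_right _ ha

theorem idx_lt {o i κ l : ℕ} (ho : o < 2) (hi : i < nn x) (hκ : κ < SS p P x + 1) (hl : l < e) :
    idx p P e x o i κ l < Cn p P e x :=
  cols_lt (cols_lt (cols_lt ho hi) hκ) hl

theorem cO_idx {o i κ l : ℕ} (hi : i < nn x) (hκ : κ < SS p P x + 1) (hl : l < e) :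
    cO p P e x (idx p P e x o i κ l) = o := by
  unfold cO idx
  have h : nn x * (SS p P x + 1) * e = e * (SS p P x + 1) * nn x := by ring
  rw [h, ← Nat.div_div_eq_div_mul, ← Nat.div_div_eq_div_mul, cols_div hl, cols_div hκ, cols_div hi]

theorem cI_idx {o i κ l : ℕ} (hi : i < nn x) (hκ : κ < SS p P x + 1) (hl : l < e) :
    cI p P e x (idx p P e x o i κ l) = i := by
  unfold cI idx
  have h : (SS p P x + 1) * e = e * (SS p P x + 1) := by ring
  rw [h, ← Nat.div_div_eq_div_mul, cols_div hl, cols_div hκ, cols_mod hi]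

theorem cK_idx {o i κ l : ℕ} (hκ : κ < SS p P x + 1) (hl : l < e) :
    cK p P e x (idx p P e x o i κ l) = κ := by
  unfold cK idx
  rw [cols_div hl, cols_mod hκ]

theorem mod_idx {o i κ l : ℕ} (hl : l < e) : idx p P e x o i κ l % e = l := by
  unfold idx
  exact cols_mod hl

/-- every column is decoded -/
theorem exists_idx {c : ℕ} (hc : c < Cn p P e x) : ∃ o i κ l, o < 2 ∧ i < nn x ∧
    κ < SS p P x + 1 ∧ l < e ∧ idx p P e x o i κ l = c := by
  unfold Cn at hc
  have he : 0 < e := Nat.pos_of_ne_zero fun h => by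
    rw [h, mul_zero] at hc
    omega
  have hn : 0 < nn x := Nat.pos_of_ne_zero fun h => by
    rw [h, mul_zero, zero_mul, zero_mul] at hc
    omega
  have h1 : c / e < 2 * nn x * (SS p P x + 1) := (Nat.div_lt_iff_lt_mul he).2 hc
  have h2 : c / e / (SS p P x + 1) < 2 * nn x :=
    (Nat.div_lt_iff_lt_mul (Nat.succ_pos _)).2 h1
  have h3 : c / e / (SS p P x + 1) / nn x < 2 := (Nat.div_lt_iff_lt_mul hn).2 h2
  refine ⟨c / e / (SS p P x + 1) / nn x, c / e / (SS p P x + 1) % nn x, c / e % (SS p P x + 1),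
    c % e, h3, Nat.mod_lt _ hn, Nat.mod_lt _ (Nat.succ_pos _), Nat.mod_lt _ he, ?_⟩
  unfold idx
  rw [Nat.div_add_mod', Nat.div_add_mod', Nat.div_add_mod']

private theorem cols_sum {M : Type} [AddCommMonoid M] (a m : ℕ) (g : ℕ → M) :
    ∑ c ∈ Finset.range (a * m), g c =
      ∑ q ∈ Finset.range a, ∑ r ∈ Finset.range m, g (q * m + r) := by
  induction a with
  | zero => simp
  | succ a ih =>
    rw [Finset.sum_range_succ, ← ih, Nat.succ_mul, Finset.sum_range_add]

/-- The sum over the columns, decoded (`Finset.sum_bij` or `Finset.sum_nbij'` with the lemmas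
above). -/
theorem sum_cols {M : Type} [AddCommMonoid M] (φ : ℕ → ℕ → ℕ → ℕ → ℕ → M) :
    ∑ c : Fin (Cn p P e x), φ c (cO p P e x c) (cI p P e x c) (cK p P e x c) ((c : ℕ) % e) =
      ∑ o ∈ Finset.range 2, ∑ i ∈ Finset.range (nn x), ∑ κ ∈ Finset.range (SS p P x + 1),
        ∑ l ∈ Finset.range e, φ (idx p P e x o i κ l) o i κ l := by
  have h1 : ∑ c : Fin (Cn p P e x), φ c (cO p P e x c) (cI p P e x c) (cK p P e x c)
      ((c : ℕ) % e) = ∑ c ∈ Finset.range (Cn p P e x),
        φ c (cO p P e x c) (cI p P e x c) (cK p P e x c) (c % e) :=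
    (Finset.sum_range fun c => φ c (cO p P e x c) (cI p P e x c) (cK p P e x c) (c % e)).symm
  rw [h1]
  unfold Cn
  rw [cols_sum, cols_sum, cols_sum]
  refine Finset.sum_congr rfl fun o _ => Finset.sum_congr rfl fun i hi =>
    Finset.sum_congr rfl fun κ hκ => Finset.sum_congr rfl fun l hl => ?_
  have hi' := Finset.mem_range.mp hi
  have hκ' := Finset.mem_range.mp hκ
  have hl' := Finset.mem_range.mp hl
  have e1 := cO_idx p P e x (o := o) hi' hκ' hl'
  have e2 := cI_idx p P e x (o := o) hi' hκ' hl'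
  have e3 := cK_idx p P e x (o := o) (i := i) hκ' hl'
  have e4 := mod_idx p P e x (o := o) (i := i) (κ := κ) hl'
  have e0 : ((o * nn x + i) * (SS p P x + 1) + κ) * e + l = idx p P e x o i κ l := rfl
  rw [e0, e1, e2, e3, e4]

end Pool.Agent.SIRP
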