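import Pool.Agent.SIRP.CandB
import Pool.Agent.SIRP.Act
import Pool.Agent.SparseIrr.LinearMain

/-! # The irreducibility criterion with the candidates `cE` -/

set_option autoImplicit false

namespace Pool.Agent.SIRP

open Pool.Agent.SIRM MvPolynomial Pool.Agent.SparseIrr

variable {F : Type} [Field F]

/-- `triv_of_irreducible` (`SparseIrr/LinearMain.lean`) does not use the condition on the support:
copy its proof. -/
theorem triv_of_irreducible' (p : ℕ) [Fact p.Prime] [CharP F p] {σ : Type}
    (f : MvPolynomial σ F) (hirr : Irreducible f) (u : σ → MvPolynomial σ F)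
    (h2 : ∀ i, (u i).totalDegree ≤ f.totalDegree)
    (h3 : ∀ i, proj p i (f ^ (p - 1) * u i) = u i ^ p)
    (h4 : ∀ i j, f * (theta j (u i) - theta i (u j)) = u i * theta j f - u j * theta i f) :
    Triv f u := by
  classical
  have hp : p.Prime := Fact.out
  have hE : ExpChar F p := ExpChar.prime hp
  have hprime : Prime f := hirr.prime
  have hf0 := hprime.ne_zero
  obtain ⟨α, hα⟩ := support_nonempty.mpr hf0
  have hα0 := mem_support_iff.mp hα
  have hn : ∀ i, ∃ n : ℤ, f ∣ u i - C (n : F) * theta i f := fun i =>
    exists_int_of_dvd p f (u i) (theta i f) hprime (dvd_of_proj p i f (u i) (h3 i))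
  choose n hn using hn
  have hd : ∀ i, ∃ d : F, u i - C (n i : F) * theta i f = C d * f := by
    intro i
    apply eq_C_mul_of_dvd f _ hf0 (hn i)
    refine (totalDegree_sub _ _).trans (max_le (h2 i) ?_)
    refine (totalDegree_mul _ _).trans ?_
    rw [totalDegree_C, zero_add]
    exact totalDegree_theta_le i f
  choose d hd using hd
  have hu : ∀ i, u i = C (n i : F) * theta i f + C (d i) * f := by
    intro i
    rw [← hd i]; ring
  have hnp : ∀ z : ℤ, ((z : F)) ^ p = (z : F) := by
    intro z
    have := map_intCast (frobenius F p) z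
    rwa [frobenius_def] at this
  -- the constants are in the prime field
  have hdint : ∀ i, ∃ e : ℤ, d i = (e : F) := by
    intro i
    apply exists_int_of_pow_eq p
    have h5 := congrArg (coeff (p • α)) (h3 i)
    rw [coeff_proj, if_pos (by simp), coeff_pow_smul] at h5
    have h6 : f ^ (p - 1) * u i
        = C (n i : F) * (f ^ (p - 1) * theta i f) + C (d i) * f ^ p := by
      obtain ⟨k, hk⟩ : ∃ k, p = k + 1 := ⟨p - 1, by have := hp.pos; omega⟩
      have hk' : p - 1 = k := by omega
      have e : f ^ p = f ^ (p - 1) * f := by rw [hk']; conv_lhs => rw [hk, pow_succ]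
      rw [hu i, e]; ring
    rw [h6, coeff_add, coeff_C_mul, coeff_C_mul, coeff_pow_mul_theta_char, coeff_pow_smul,
      hu i, coeff_add, coeff_C_mul, coeff_C_mul, add_pow_expChar, mul_pow, mul_pow, hnp] at h5
    have h7 := add_left_cancel h5
    exact (mul_right_cancel₀ (pow_ne_zero _ hα0) h7).symm
  choose e he using hdint
  have htriv : ∀ i, f ∣ theta i f → theta i f = C ((α i : ℤ) : F) * f := by
    intro i hi
    obtain ⟨c, hc⟩ := eq_C_mul_of_dvd f _ hf0 hi (totalDegree_theta_le i f)
    have h5 := congrArg (coeff α) hc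
    rw [coeff_theta, coeff_C_mul] at h5
    have h6 := mul_right_cancel₀ hα0 h5
    rw [hc, ← h6]
    simp
  have hmod : ∀ (c : ℤ) (i : σ), f ∣ theta i f →
      u i = C (c : F) * theta i f + C (((n i - c) * α i + e i : ℤ) : F) * f := by
    intro c i hi
    rw [hu i, he i, htriv i hi]
    push_cast
    simp only [map_add, map_sub, map_mul]
    ring
  by_cases hI : ∃ i0, ¬ f ∣ theta i0 f
  · obtain ⟨i0, hi0⟩ := hI
    refine ⟨n i0, fun i => if f ∣ theta i f then (n i - n i0) * α i + e i else e i, ?_⟩
    intro i
    by_cases hi : f ∣ theta i f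
    · simp only [if_pos hi]
      exact hmod (n i0) i hi
    · simp only [if_neg hi]
      have hni : (n i : F) = (n i0 : F) := by
        by_contra hne
        have h5 := h4 i i0
        rw [hu i, hu i0] at h5
        have h6 : (C (n i : F) - C (n i0 : F)) *
            (f * theta i0 (theta i f) - theta i f * theta i0 f) = 0 := by
          simp only [theta_add, theta_C_mul] at h5
          rw [theta_comm i i0 f] at h5
          linear_combination h5
        have h7 : (C (n i : F) - C (n i0 : F) : MvPolynomial σ F) ≠ 0 := by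
          rw [← map_sub]
          intro h0
          apply hne
          have := (C_eq_zero).mp h0
          exact sub_eq_zero.mp this
        have h8 := (mul_eq_zero.mp h6).resolve_left h7
        have h9 : f ∣ theta i f * theta i0 f := ⟨_, (sub_eq_zero.mp h8).symm⟩
        rcases hprime.dvd_or_dvd h9 with h10 | h10
        · exact hi h10
        · exact hi0 h10
      rw [hu i, hni, he i]
  · push Not at hI
    refine ⟨0, fun i => (n i - 0) * α i + e i, fun i => ?_⟩
    exact hmod 0 i (hI i)

/-- `irreducible_iff_linear` with `m = mm p x` (degrees by `ee_lt`, `degree_fam`), `cand_subset`,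
`triv_of_irreducible'`, `act_iff`. -/
theorem irr_iff (p : ℕ) [Fact p.Prime] [CharP F p] [PerfectField F] (P : Polynomial ℕ)
    (x : List (Option (F ⊕ Bool))) (hx : Good x) (hB : Big p P x)
    (h0 : 0 < (pol x).totalDegree) : Irreducible (pol x) ↔
      (∀ i, X i ∣ pol x → (pol x).totalDegree = 1) ∧
      (∀ i : Fin (nn x), act p x i → ¬ pol x ∣ theta i (pol x) ^ 2) ∧
      ∀ u, SysU p P x u → Triv (pol x) u := by
  classical
  have hp : p.Prime := Fact.out
  have hdeg : ∀ i, (pol x).degreeOf i < p ^ mm p x := by
    have h1 := ((degree_fam (nn x) (tT x) (ee x) (cc x) hx.2.2.2.1 hx.2.2.2.2).1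
      (p ^ mm p x - 1)).2 (fun u hu i hi => Nat.le_sub_one_of_lt (ee_lt p hp x hx u hu i hi))
    intro i
    exact lt_of_le_of_lt (h1 i) (Nat.sub_lt (pow_pos hp.pos _) one_pos)
  constructor
  · intro hirr
    have hl := (irreducible_iff_linear p (mm p x) (pol x) hdeg h0).1 hirr
    refine ⟨hl.1, fun i hi hd => (act_iff p x hx i).1 hi (hl.2.1 i hd), fun u hu => ?_⟩
    exact triv_of_irreducible' p (pol x) hirr u hu.2.1 hu.2.2.1 hu.2.2.2
  · rintro ⟨hA, hW, hU⟩
    refine irreducible_of_triv p (mm p x) (pol x) hdeg h0 hA (fun i hi => ?_) fun u hu => ?_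
    · by_contra hc
      exact hW i ((act_iff p x hx i).2 hc) hi
    · exact hU u ⟨fun i β hβ => cand_subset p hp P x hx hB β (hu.1 i hβ), hu.2.1, hu.2.2.1,
        hu.2.2.2⟩

end Pool.Agent.SIRP
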