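import Pool.Agent.SIRP.MatA

/-! # The entries of the matrix are denoted by terms: co2 -/

set_option autoImplicit false

namespace Pool.Agent.SIRP

open Pool.Agent.PT Pool.Agent.Book19 Pool.Agent.SIRM

variable {F : Type} [Field F] [Fintype F] {p : ℕ} [Fact p.Prime] [Algebra (ZMod p) F] {e : ℕ}

private theorem ee_MatC {g h : List (Option (F ⊕ Bool)) → List Bool → (ℕ → ℕ) → ℕ}
    (hg : UF2 g) (hh : UF2 h) :
    UF2 fun (x : List (Option (F ⊕ Bool))) w ε => ee x (g x w ε) (h x w ε) :=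
  UF2.comp₂ (f := fun (x : List (Option (F ⊕ Bool))) _ a b => ee x a b) uf_ee hg hh

omit [Algebra (ZMod p) F] in
private theorem c2E_MatC (P : Polynomial ℕ)
    {g h : List (Option (F ⊕ Bool)) → List Bool → (ℕ → ℕ) → ℕ} (hg : UF2 g) (hh : UF2 h) :
    UF2 fun (x : List (Option (F ⊕ Bool))) w ε => c2E p P x (g x w ε) (h x w ε) :=
  UF2.comp₂ (f := fun (x : List (Option (F ⊕ Bool))) _ a b => c2E p P x a b)
    (uf_c2E p Fact.out P) hg hh

private theorem comp3_MatC {Γ : Type} {f : List Γ → List Bool → ℕ → ℕ → ℕ → ℕ}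
    (hf : UF2 (fun x w e => f x w (e 0) (e 1) (e 2)))
    {g h k : List Γ → List Bool → (ℕ → ℕ) → ℕ} (hg : UF2 g) (hh : UF2 h) (hk : UF2 k) :
    UF2 (fun x w e => f x w (g x w e) (h x w e) (k x w e)) :=
  hf.subst (fun i => Nat.casesOn i g (fun j => Nat.casesOn j h (fun _ => k)))
    (fun i => by
      rcases i with _ | _ | i
      exacts [hg, hh, hk])

omit [Algebra (ZMod p) F] in
private theorem gm_MatC (P : Polynomial ℕ)
    {g h k : List (Option (F ⊕ Bool)) → List Bool → (ℕ → ℕ) → ℕ} (hg : UF2 g) (hh : UF2 h)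
    (hk : UF2 k) :
    UF2 fun (x : List (Option (F ⊕ Bool))) w ε => gm p P x (g x w ε) (h x w ε) (k x w ε) :=
  comp3_MatC (f := fun (x : List (Option (F ⊕ Bool))) _ a b c => gm p P x a b c)
    (uf_gm p Fact.out P) hg hh hk

private theorem cc_MatC {g : List (Option (F ⊕ Bool)) → List Bool → (ℕ → ℕ) → ℕ}
    (hg : UF2 g) : UV fun (x : List (Option (F ⊕ Bool))) w ε => cc x (g x w ε) :=
  UV.comp₁ (f := fun (x : List (Option (F ⊕ Bool))) _ k => cc x k) uv_cc hg

/-- As `uv_co0`. The variables are `o = ε 0`, `i0 = ε 1`, `κ = ε 2`, `l = ε 3`, `i = ε 4`,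
`a = ε 5`, `b' = ε 6`. -/
theorem uv_co2 (b : Module.Basis (Fin e) (ZMod p) F) (P : Polynomial ℕ) :
    UV fun (x : List (Option (F ⊕ Bool))) _ ε =>
      co2 b P x (ε 0) (ε 1) (ε 2) (ε 3) (ε 4) (ε 5) (ε 6) := by
  classical
  have hp : p.Prime := Fact.out
  have hchar : CharP F p := charP_of_injective_algebraMap (algebraMap (ZMod p) F).injective p
  unfold co2
  refine UV.ite ((UP2.eq (UF2.var 0) (UF2.const 0)).not.and (UP2.eq (UF2.var 1) (UF2.var 4))) ?_
    (UV.const 0)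
  refine UV.ite (UP2.lt (UF2.var 2) (uf_SS p hp P)) ?_ (UV.map (fun a : F => -a) ?_)
  · refine UV.sum (b := fun x _ _ => tT x) (f := fun x _ ε v =>
      if ∀ k, k < nn x → ee x v k + c2E p P x (ε 2) k = gm p P x (ε 5) (ε 6) k then
        cc x v * bs b (ε 3) else 0) uf_tT ?_
    refine UV.ite ?_ (UV.map₂ (fun a c : F => a * c) (cc_MatC (UF2.var 0))
      (uv_bs b (UF2.var 4))) (UV.const 0)
    refine UP2.ball (b := fun x _ _ => nn x) (P := fun x _ ε k =>
      ee x (ε 0) k + c2E p P x (ε 3) k = gm p P x (ε 6) (ε 7) k) uf_nn ?_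
    exact UP2.eq ((ee_MatC (UF2.var 1) (UF2.var 0)).add (c2E_MatC P (UF2.var 4) (UF2.var 0)))
      (gm_MatC P (UF2.var 7) (UF2.var 8) (UF2.var 0))
  · refine UV.sum (b := fun x _ _ => tT x) (f := fun x _ ε v => ∑ v' ∈ Finset.range (tT x),
      if ∀ k, k < nn x → ee x v k + ee x v' k = gm p P x (ε 5) (ε 6) k then
        cc x v * cc x v' * (ee x v (ε 4) : ℕ) * (ee x v' (ε 4) : ℕ) * bs b (ε 3) else 0) uf_tT ?_
    refine UV.sum (b := fun x _ _ => tT x) (f := fun x _ ε v' =>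
      if ∀ k, k < nn x → ee x (ε 0) k + ee x v' k = gm p P x (ε 6) (ε 7) k then
        cc x (ε 0) * cc x v' * (ee x (ε 0) (ε 5) : ℕ) * (ee x v' (ε 5) : ℕ) * bs b (ε 4)
        else 0) uf_tT ?_
    refine UV.ite ?_ ?_ (UV.const 0)
    · refine UP2.ball (b := fun x _ _ => nn x) (P := fun x _ ε k =>
        ee x (ε 1) k + ee x (ε 0) k = gm p P x (ε 7) (ε 8) k) uf_nn ?_
      exact UP2.eq ((ee_MatC (UF2.var 2) (UF2.var 0)).add (ee_MatC (UF2.var 1) (UF2.var 0)))
        (gm_MatC P (UF2.var 8) (UF2.var 9) (UF2.var 0))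
    · exact UV.map₂ (fun a c : F => a * c) (UV.map₂ (fun a c : F => a * c)
        (UV.map₂ (fun a c : F => a * c) (UV.map₂ (fun a c : F => a * c) (cc_MatC (UF2.var 1))
          (cc_MatC (UF2.var 0))) (uv_natCast p (ee_MatC (UF2.var 1) (UF2.var 6))))
        (uv_natCast p (ee_MatC (UF2.var 0) (UF2.var 6)))) (uv_bs b (UF2.var 5))

end Pool.Agent.SIRP
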