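import Pool.Agent.SIRP.MatB
import Pool.Agent.SIRP.MatC

/-! # The matrix is denoted by terms -/

set_option autoImplicit false

namespace Pool.Agent.SIRP

open Pool.Agent.PT Pool.Agent.Book19 Pool.Agent.SIRM

variable {F : Type} [Field F] [Fintype F] {p : ℕ} [Fact p.Prime] [Algebra (ZMod p) F] {e : ℕ}

omit [Algebra (ZMod p) F] in
private theorem u2_Cn (P : Polynomial ℕ) (e : ℕ) :
    UF2 fun (x : List (Option (F ⊕ Bool))) _ _ => Cn p P e x :=
  (((UF2.const 2).mul uf_nn).mul ((uf_SS p Fact.out P).add (UF2.const 1))).mul (UF2.const e)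

omit [Algebra (ZMod p) F] in
private theorem u2_N0 (P : Polynomial ℕ) (e : ℕ) :
    UF2 fun (x : List (Option (F ⊕ Bool))) _ _ => N0 p P e x :=
  (((uf_nn.mul uf_nn).mul (uf_Wn p Fact.out P)).mul (uf_Wn p Fact.out P)).mul (UF2.const e)

theorem uf_Cn (P : Polynomial ℕ) (e : ℕ) :
    UF fun (x : List (Option (F ⊕ Bool))) _ => Cn p P e x :=
  uf_of_uf2 (u2_Cn P e)

theorem uf_N0 (P : Polynomial ℕ) (e : ℕ) :
    UF fun (x : List (Option (F ⊕ Bool))) _ => N0 p P e x :=
  uf_of_uf2 (u2_N0 P e)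

/-- the function number `i` of a list -/
private def pick {Γ : Type} (L : List (List Γ → List Bool → (ℕ → ℕ) → ℕ)) (i : ℕ) :
    List Γ → List Bool → (ℕ → ℕ) → ℕ := L.getD i (fun _ _ _ => 0)

private theorem pick_uf {Γ : Type} {L : List (List Γ → List Bool → (ℕ → ℕ) → ℕ)}
    (h : ∀ g ∈ L, UF2 g) (i : ℕ) : UF2 (pick L i) := by
  unfold pick
  by_cases hi : i < L.length
  · rw [List.getD_eq_getElem _ _ hi]
    exact h _ (List.getElem_mem hi)
  · rw [List.getD_eq_default _ _ (Nat.le_of_not_lt hi)]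
    exact UF2.const 0

private theorem uv_cr (b : Module.Basis (Fin e) (ZMod p) F) {Γ : Type}
    {l : List Γ → List Bool → (ℕ → ℕ) → ℕ} (hl : UF2 l) {g : List Γ → List Bool → (ℕ → ℕ) → F}
    (hg : UV g) : UV fun x w ε => cr b (l x w ε) (g x w ε) := by
  intro a
  refine ((UP2.fex (ι := Fin e) fun k => (UP2.eq hl (UF2.const k)).and
    (UV.map (cr b (k : ℕ)) hg a)).or ((UP2.lt hl (UF2.const e)).not.and
      (UP2.const ((0 : ZMod p) = a)))).congr fun x w ε => ?_
  change _ ↔ cr b (l x w ε) (g x w ε) = a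
  constructor
  · rintro (⟨k, h1, h2⟩ | ⟨h1, h2⟩)
    · rw [h1]
      exact h2
    · unfold cr
      rw [dif_neg h1]
      exact h2
  · intro h
    by_cases hlt : l x w ε < e
    · exact Or.inl ⟨⟨_, hlt⟩, rfl, h⟩
    · refine Or.inr ⟨hlt, ?_⟩
      change cr b (l x w ε) (g x w ε) = a at h
      unfold cr at h
      rwa [dif_neg hlt] at h

/-- Substitute the decoded indices into `uv_co0`, `uv_co1`, `uv_co2`, `up_valid` (`UV.subst`,
`UP2.subst`), the coordinate map `cr b l'` is a map to `ZMod p` for each of the finitely many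
`l' < e`; `up_of_up2`. -/
theorem up_aM (b : Module.Basis (Fin e) (ZMod p) F) (P : Polynomial ℕ) (v : ZMod p) :
    UP fun (x : List (Option (F ⊕ Bool))) ε => aM b P x (ε 0) (ε 1) = v := by
  refine up_of_up2 (P := fun (x : List (Option (F ⊕ Bool))) ε => aM b P x (ε 0) (ε 1) = v) ?_
  have hc : UF2 (Γ := Option (F ⊕ Bool)) fun _ _ ε => ε 0 := UF2.var 0
  have hj : UF2 (Γ := Option (F ⊕ Bool)) fun _ _ ε => ε 1 := UF2.var 1
  have hN := u2_N0 (F := F) (p := p) P e
  have hW := uf_Wn (F := F) p Fact.out P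
  have hS := (uf_SS (F := F) p Fact.out P).add (UF2.const 1)
  have hn := uf_nn (F := F)
  have he := UF2.const (Γ := Option (F ⊕ Bool)) e
  have ht := hj.div hN
  have hr := hj.mod hN
  have hl' := hr.mod he
  have hb' := (hr.div he).mod hW
  have ha := (hr.div (hW.mul he)).mod hW
  have hi' := (hr.div ((hW.mul hW).mul he)).mod hn
  have hi := (hr.div (((hn.mul hW).mul hW).mul he)).mod hn
  have ho := hc.div ((hn.mul hS).mul he)
  have hi0 := (hc.div (hS.mul he)).mod hn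
  have hκ := (hc.div he).mod hS
  have hl := hc.mod he
  have h0 := uv_cr b hl' ((uv_co0 b P).subst _ (pick_uf (L := [_, _, _, _, _, _, _])
    (List.forall_mem_cons.2 ⟨ho, List.forall_mem_cons.2 ⟨hi0, List.forall_mem_cons.2 ⟨hκ,
      List.forall_mem_cons.2 ⟨hl, List.forall_mem_cons.2 ⟨hi, List.forall_mem_cons.2 ⟨ha,
        List.forall_mem_cons.2 ⟨hb', fun _ h => absurd h List.not_mem_nil⟩⟩⟩⟩⟩⟩⟩)))
  have h1 := uv_cr b hl' ((uv_co1 b P).subst _ (pick_uf (L := [_, _, _, _, _, _, _, _])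
    (List.forall_mem_cons.2 ⟨ho, List.forall_mem_cons.2 ⟨hi0, List.forall_mem_cons.2 ⟨hκ,
      List.forall_mem_cons.2 ⟨hl, List.forall_mem_cons.2 ⟨hi, List.forall_mem_cons.2 ⟨hi',
        List.forall_mem_cons.2 ⟨ha, List.forall_mem_cons.2 ⟨hb',
          fun _ h => absurd h List.not_mem_nil⟩⟩⟩⟩⟩⟩⟩⟩)))
  have h2 := uv_cr b hl' ((uv_co2 b P).subst _ (pick_uf (L := [_, _, _, _, _, _, _])
    (List.forall_mem_cons.2 ⟨ho, List.forall_mem_cons.2 ⟨hi0, List.forall_mem_cons.2 ⟨hκ,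
      List.forall_mem_cons.2 ⟨hl, List.forall_mem_cons.2 ⟨hi, List.forall_mem_cons.2 ⟨ha,
        List.forall_mem_cons.2 ⟨hb', fun _ h => absurd h List.not_mem_nil⟩⟩⟩⟩⟩⟩⟩)))
  have h3 := (up_valid (F := F) p Fact.out P).subst _ (pick_uf (L := [_, _, _])
    (List.forall_mem_cons.2 ⟨ho, List.forall_mem_cons.2 ⟨hi0, List.forall_mem_cons.2 ⟨hκ,
      fun _ h => absurd h List.not_mem_nil⟩⟩⟩))
  have h4 := UV.ite (inst := fun _ _ _ => Classical.propDecidable _)
    (UP2.eq ht (UF2.const 0)) h0 (UV.ite (inst := fun _ _ _ => Classical.propDecidable _)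
    (UP2.eq ht (UF2.const 1)) h1 (UV.ite (inst := fun _ _ _ => Classical.propDecidable _)
    (UP2.eq ht (UF2.const 2)) h2 (UV.ite (inst := fun _ _ _ => Classical.propDecidable _)
    ((UP2.eq hc hr).and h3.not) (UV.const (1 : ZMod p)) (UV.const (0 : ZMod p)))))
  refine (h4 v).congr fun x w ε => ?_
  unfold aM
  simp only [pick]
  exact Iff.of_eq (congrArg (· = v) (by congr))

end Pool.Agent.SIRP
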