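import Pool.Agent.SIRP.Dim
import Pool.Agent.SIRP.IrrU
import Pool.Agent.SIRP.Mat
import Pool.Agent.PGs.Main

/-! # Assembly -/

set_option autoImplicit false

namespace Pool.Agent.SIRP

open Pool.Agent.SIRM MvPolynomial Pool.Agent.SparseIrr Pool.Agent.PT Pool.Agent.Book19 Pool.Agent.PIt

variable {F : Type} [Field F] [Fintype F]

/-- `UF2.add`, `UF2.ite`, `UP2.bex`, `up_act`, `uf_of_uf2`. -/
theorem uf_dT (p : ℕ) : UF fun (x : List (Option (F ⊕ Bool))) _ => dT p x := by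
  classical
  refine uf_of_uf2 (f := fun (x : List (Option (F ⊕ Bool))) _ => dT p x) ?_
  unfold dT
  refine UF2.add uf_nn (UF2.ite ?_ (UF2.const 1) (UF2.const 0))
  exact UP2.bex (P := fun (x : List (Option (F ⊕ Bool))) _ _ i => act p x i) uf_nn (up_act p)

omit [Fintype F] in
private theorem pos_CoreP {n : ℕ} {f : MvPolynomial (Fin n) F} (hf : Irreducible f) :
    0 < f.totalDegree := by
  rcases Nat.eq_zero_or_pos f.totalDegree with h | h
  · exfalso
    rw [totalDegree_eq_zero_iff_eq_C] at h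
    rw [h] at hf
    by_cases h3 : coeff 0 f = 0
    · rw [h3, map_zero] at hf
      exact not_irreducible_zero hf
    · exact hf.not_isUnit ((isUnit_iff_ne_zero.2 h3).map (C : F →+* MvPolynomial (Fin n) F))
  · exact h

omit [Field F] [Fintype F] in
private theorem SS_pos_CoreP (p : ℕ) (P : Polynomial ℕ) (x : List (Option (F ⊕ Bool))) :
    0 < SS p P x := by
  unfold SS two
  exact pw_pos _ _ _

omit [Field F] [Fintype F] in
private theorem Wn_pos_CoreP (p : ℕ) (P : Polynomial ℕ) (x : List (Option (F ⊕ Bool))) :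
    0 < Wn p P x := by
  have := SS_pos_CoreP p P x
  unfold Wn
  omega

omit [Field F] [Fintype F] in
private theorem dT_le_CoreP (p : ℕ) (x : List (Option (F ⊕ Bool))) : dT p x ≤ nn x + 1 := by
  unfold dT
  split_ifs <;> omega

/-- **Assembly.** `inPoly_kernel` with `C = Cn p P e`, `R = 4 * N0 p P e`, `h = dT p`, `a = aM b P`
(`up_aM`) and
`G x = Good x ∧ B x ∧ (∃ u i, ee x u i ≠ 0) ∧ Ax x` (`up_good`, `hB`, `up_Ax`); `irr_iff`, `ax_iff`,
`pos_iff`, `finrank_ker`; `dT p x ≤ nn x + 1 ≤ Cn p P e x`, `0 < SS`, `0 < Wn` (`0 < tT x`), `0 < e`. `F` is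
perfect (finite); `Algebra (ZMod p) F` by `ZMod.algebra`, `b = Module.finBasis (ZMod p) F`. If all
exponents are zero, `pol x` is constant, not irreducible (`pos_iff`, an irreducible polynomial over a
field is not constant). -/
theorem core_P (p : ℕ) [Fact p.Prime] [CharP F p] (B : List (Option (F ⊕ Bool)) → Prop)
    (hB : UP2 fun x _ _ => B x) (P : Polynomial ℕ) (hP : ∀ x, Good x → B x → Big p P x) :
    InPoly {x : List (Option (F ⊕ Bool)) | Good x ∧ B x ∧ Irreducible (pol x)} := by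
  classical
  let _ : Algebra (ZMod p) F := ZMod.algebra F p
  have : Module.Finite (ZMod p) F := Module.Finite.of_finite
  obtain ⟨e, b, he⟩ : ∃ (e : ℕ) (_ : Module.Basis (Fin e) (ZMod p) F), 0 < e :=
    ⟨_, Module.finBasis (ZMod p) F, Module.finrank_pos⟩
  refine PGs.inPoly_kernel (K := ZMod p) _ (Cn p P e) (fun x => 4 * N0 p P e x) (dT p) (aM b P)
    (fun x => Good x ∧ B x ∧ (∃ u, u < tT x ∧ ∃ i, i < nn x ∧ ee x u i ≠ 0) ∧ Ax x)
    (uf_Cn P e) ((UF.const 4).mul (uf_N0 P e)) (uf_dT p) (fun v => up_aM b P v) ?_ ?_ ?_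
  · refine up_of_up2 (P := fun (x : List (Option (F ⊕ Bool))) _ => Good x ∧ B x ∧
      (∃ u, u < tT x ∧ ∃ i, i < nn x ∧ ee x u i ≠ 0) ∧ Ax x) ?_
    refine up_good.and (hB.and (UP2.and ?_ up_Ax))
    refine UP2.bex (P := fun (x : List (Option (F ⊕ Bool))) _ _ u =>
      ∃ i, i < nn x ∧ ee x u i ≠ 0) uf_tT ?_
    refine UP2.bex (P := fun (x : List (Option (F ⊕ Bool))) _ e i => ee x (e 0) i ≠ 0) uf_nn ?_
    exact (UP2.eq (UF2.comp₂ (f := fun (x : List (Option (F ⊕ Bool))) _ u i => ee x u i) uf_ee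
      (UF2.var 1) (UF2.var 0)) (UF2.const 0)).not
  · rintro x ⟨hx, -, -, -⟩
    have h1 : 0 < nn x := hx.2.1
    have h2 := SS_pos_CoreP p P x
    have h3 := Wn_pos_CoreP p P x
    refine ⟨?_, ?_, (dT_le_CoreP p x).trans ?_⟩
    · unfold Cn
      positivity
    · unfold N0
      positivity
    · unfold Cn
      calc nn x + 1 ≤ 2 * nn x * 1 * 1 := by omega
        _ ≤ 2 * nn x * (SS p P x + 1) * e :=
          Nat.mul_le_mul (Nat.mul_le_mul le_rfl (by omega)) he
  · intro x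
    constructor
    · rintro ⟨hx, hb, hirr⟩
      have h0 := pos_CoreP hirr
      obtain ⟨a1, a2, a3⟩ := (irr_iff p P x hx (hP x hx hb) h0).1 hirr
      exact ⟨⟨hx, hb, (pos_iff x hx).1 h0, (ax_iff x hx h0).1 a1⟩,
        (finrank_ker b P x hx (hP x hx hb) he).2 ⟨a2, a3⟩⟩
    · rintro ⟨⟨hx, hb, hne, hax⟩, hk⟩
      have h0 := (pos_iff x hx).2 hne
      obtain ⟨a2, a3⟩ := (finrank_ker b P x hx (hP x hx hb) he).1 hk
      exact ⟨hx, hb, (irr_iff p P x hx (hP x hx hb) h0).2 ⟨(ax_iff x hx h0).2 hax, a2, a3⟩⟩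

end Pool.Agent.SIRP
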