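import Pool.Agent.SIRP.FamT

/-! # The exponents `gm a b'` cover the supports -/

set_option autoImplicit false

namespace Pool.Agent.SIRP

open Pool.Agent.SIRM MvPolynomial Pool.Agent.SparseIrr

variable {F : Type} [Field F]

/-- the exponents of a family -/
theorem support_fam_sub (n N : ℕ) (ex : ℕ → ℕ → ℕ) (co : ℕ → F) :
    ∀ m ∈ (fam n N ex co).support, ∃ u, u < N ∧ ∀ i : Fin n, m i = ex u i := by
  intro m hm
  by_contra hcon
  rw [mem_support_iff] at hm
  apply hm
  rw [coeff_fam]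
  refine Finset.sum_eq_zero fun v hv => ?_
  rw [if_neg]
  intro h1
  exact hcon ⟨v, Finset.mem_range.mp hv, fun i => (h1 i).symm⟩

/-- all exponents are among `ex u`, `u < N` -/
private def CoverSup (n N : ℕ) (ex : ℕ → ℕ → ℕ) (g : MvPolynomial (Fin n) F) : Prop :=
  ∀ m ∈ g.support, ∃ u, u < N ∧ ∀ i : Fin n, m i = ex u i

private theorem CoverSup_sub {n N : ℕ} {ex : ℕ → ℕ → ℕ} {g h : MvPolynomial (Fin n) F}
    (hg : CoverSup n N ex g) (hh : CoverSup n N ex h) : CoverSup n N ex (g - h) := by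
  classical
  intro m hm
  rcases Finset.mem_union.mp (support_sub _ g h hm) with h1 | h1
  · exact hg m h1
  · exact hh m h1

private theorem CoverSup_theta {n N : ℕ} {ex : ℕ → ℕ → ℕ} {g : MvPolynomial (Fin n) F} (i : Fin n)
    (hg : CoverSup n N ex g) : CoverSup n N ex (theta i g) :=
  fun m hm => hg m (support_theta_subset i g hm)

private theorem CoverSup_fam (n N : ℕ) (ex : ℕ → ℕ → ℕ) (co : ℕ → F) :
    CoverSup n N ex (fam n N ex co) :=
  support_fam_sub n N ex co

/-- all exponents are covered -/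
private def CoverAll (p : ℕ) (P : Polynomial ℕ) (x : List (Option (F ⊕ Bool)))
    (g : MvPolynomial (Fin (nn x)) F) : Prop :=
  ∀ β ∈ g.support, ∃ a, a < Wn p P x ∧ ∃ b', b' < Wn p P x ∧ β = gv p P x a b'

private theorem CoverAll_sub {p : ℕ} {P : Polynomial ℕ} {x : List (Option (F ⊕ Bool))}
    {g h : MvPolynomial (Fin (nn x)) F} (hg : CoverAll p P x g) (hh : CoverAll p P x h) :
    CoverAll p P x (g - h) := by
  classical
  intro m hm
  rcases Finset.mem_union.mp (support_sub _ g h hm) with h1 | h1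
  · exact hg m h1
  · exact hh m h1

/-- Products of polynomials with exponents `ex u = WE (φ u)` and `ex' u = WE (ψ u)`. -/
private theorem CoverAll_mul {p : ℕ} {P : Polynomial ℕ} {x : List (Option (F ⊕ Bool))}
    {g h : MvPolynomial (Fin (nn x)) F} {N M : ℕ} {ex ex' : ℕ → ℕ → ℕ} (φ ψ : ℕ → ℕ)
    (hφ : ∀ u, u < N → φ u < Wn p P x ∧ ∀ i, ex u i = WE p P x (φ u) i)
    (hψ : ∀ u, u < M → ψ u < Wn p P x ∧ ∀ i, ex' u i = WE p P x (ψ u) i)
    (hg : CoverSup (nn x) N ex g) (hh : CoverSup (nn x) M ex' h) :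
    CoverAll p P x (g * h) := by
  classical
  intro m hm
  obtain ⟨a, ha, b, hb, rfl⟩ := Finset.mem_add.mp (support_mul g h hm)
  obtain ⟨u, hu, hu'⟩ := hg a ha
  obtain ⟨v, hv, hv'⟩ := hh b hb
  refine ⟨φ u, (hφ u hu).1, ψ v, (hψ v hv).1, ?_⟩
  ext i
  rw [Finsupp.add_apply, hu' i, hv' i, (hφ u hu).2, (hψ v hv).2]
  rfl

omit [Field F] in
private theorem CoverE0 (p : ℕ) (P : Polynomial ℕ) (x : List (Option (F ⊕ Bool))) (u : ℕ)
    (hu : u < tT x) : 5 * u < Wn p P x ∧ ∀ i, ee x u i = WE p P x (5 * u) i := by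
  constructor
  · unfold Wn
    omega
  · intro i
    have h1 : 5 * u % 5 = 0 := by omega
    have h2 : 5 * u / 5 = u := by omega
    unfold WE
    rw [if_pos h1, h2]
    unfold eE
    rw [if_pos hu]

omit [Field F] in
private theorem CoverE1 (p : ℕ) (P : Polynomial ℕ) (x : List (Option (F ⊕ Bool))) (u : ℕ)
    (hu : u < SS p P x) :
    5 * u + 1 < Wn p P x ∧ ∀ i, cE p P x u i = WE p P x (5 * u + 1) i := by
  constructor
  · unfold Wn
    omega
  · intro i
    have h1 : (5 * u + 1) % 5 = 1 := by omega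
    have h2 : (5 * u + 1) / 5 = u := by omega
    unfold WE
    rw [if_neg (by omega), if_pos h1, h2]

omit [Field F] in
private theorem CoverE2 (p : ℕ) (P : Polynomial ℕ) (x : List (Option (F ⊕ Bool))) (u : ℕ)
    (hu : u < SS p P x) :
    5 * u + 2 < Wn p P x ∧ ∀ i, c2E p P x u i = WE p P x (5 * u + 2) i := by
  constructor
  · unfold Wn
    omega
  · intro i
    have h1 : (5 * u + 2) % 5 = 2 := by omega
    have h2 : (5 * u + 2) / 5 = u := by omega
    unfold WE
    rw [if_neg (by omega), if_neg (by omega), if_pos h1, h2]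

omit [Field F] in
private theorem CoverE3 (p : ℕ) (P : Polynomial ℕ) (x : List (Option (F ⊕ Bool))) (u : ℕ)
    (hu : u < tT x ^ (p - 1)) :
    5 * u + 3 < Wn p P x ∧ ∀ i, pE p x u i = WE p P x (5 * u + 3) i := by
  constructor
  · unfold Wn
    omega
  · intro i
    have h1 : (5 * u + 3) % 5 = 3 := by omega
    have h2 : (5 * u + 3) / 5 = u := by omega
    unfold WE
    rw [if_neg (by omega), if_neg (by omega), if_neg (by omega), if_pos h1, h2]

omit [Field F] in
private theorem CoverE4 (p : ℕ) (P : Polynomial ℕ) (x : List (Option (F ⊕ Bool))) (u : ℕ)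
    (hu : u < SS p P x) :
    5 * u + 4 < Wn p P x ∧ ∀ i, (p - 1) * cE p P x u i = WE p P x (5 * u + 4) i := by
  constructor
  · unfold Wn
    omega
  · intro i
    have h2 : (5 * u + 4) / 5 = u := by omega
    unfold WE
    rw [if_neg (by omega), if_neg (by omega), if_neg (by omega), if_neg (by omega), h2]

/-- `U ^ p`: the exponents `p * cE κ = (p - 1) * cE κ + cE κ` (`a = 5 κ + 4`, `b' = 5 κ + 1`; in
characteristic `p` the exponents of `U ^ p` are `p` times exponents of `U`); `f ^ (p - 1) * U`: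
`pE τ + cE κ` (`a = 5 τ + 3`, `b' = 5 κ + 1`), `pol_pow`, `support_mul`, `coeff_proj`. -/
theorem cover0 (p : ℕ) [Fact p.Prime] [CharP F p] (P : Polynomial ℕ)
    (x : List (Option (F ⊕ Bool))) (co : ℕ → F) (i : Fin (nn x)) :
    ∀ β ∈ (fam (nn x) (SS p P x) (cE p P x) co ^ p -
        proj p i (pol x ^ (p - 1) * fam (nn x) (SS p P x) (cE p P x) co)).support,
      ∃ a, a < Wn p P x ∧ ∃ b', b' < Wn p P x ∧ β = gv p P x a b' := by
  refine CoverAll_sub ?_ ?_
  · intro β hβ
    rw [mem_support_iff] at hβ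
    by_cases hall : ∀ j, p ∣ β j
    · obtain ⟨α, rfl⟩ := exists_smul_eq p β hall
      rw [coeff_pow_smul] at hβ
      have h1 : α ∈ (fam (nn x) (SS p P x) (cE p P x) co).support := by
        rw [mem_support_iff]
        intro h0
        rw [h0, zero_pow (Fact.out : p.Prime).ne_zero] at hβ
        exact hβ rfl
      obtain ⟨u, hu, hu'⟩ := support_fam_sub _ _ _ _ α h1
      refine ⟨5 * u + 4, (CoverE4 p P x u hu).1, 5 * u + 1, (CoverE1 p P x u hu).1, ?_⟩
      ext i
      have h2 : gv p P x (5 * u + 4) (5 * u + 1) i =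
          WE p P x (5 * u + 4) i + WE p P x (5 * u + 1) i := rfl
      rw [h2, ← (CoverE4 p P x u hu).2, ← (CoverE1 p P x u hu).2, Finsupp.smul_apply, hu' i,
        smul_eq_mul]
      have h3 : 1 ≤ p := (Fact.out : p.Prime).one_le
      obtain ⟨q, rfl⟩ := Nat.exists_eq_add_of_le h3
      rw [Nat.add_sub_cancel_left]
      ring
    · push Not at hall
      obtain ⟨j, hj⟩ := hall
      exact absurd (coeff_pow_char_eq_zero p _ β j hj) hβ
  · have h1 : CoverAll p P x (pol x ^ (p - 1) * fam (nn x) (SS p P x) (cE p P x) co) := by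
      rw [pol_pow]
      exact CoverAll_mul (fun u => 5 * u + 3) (fun u => 5 * u + 1) (CoverE3 p P x) (CoverE1 p P x)
        (CoverSup_fam _ _ _ _) (CoverSup_fam _ _ _ _)
    intro β hβ
    refine h1 β ?_
    rw [mem_support_iff, coeff_proj] at hβ
    rw [mem_support_iff]
    split_ifs at hβ with h2
    · exact hβ
    · exact absurd rfl hβ

/-- `ee v + cE κ`: `a = 5 v`, `b' = 5 κ + 1`; `theta` does not enlarge supports
(`support_theta_subset` in `SparseIrr/Basic.lean`). -/
theorem cover1 (p : ℕ) (P : Polynomial ℕ) (x : List (Option (F ⊕ Bool))) (co co' : ℕ → F)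
    (i i' : Fin (nn x)) :
    ∀ β ∈ (pol x * (theta i' (fam (nn x) (SS p P x) (cE p P x) co) -
          theta i (fam (nn x) (SS p P x) (cE p P x) co')) -
        (fam (nn x) (SS p P x) (cE p P x) co * theta i' (pol x) -
          fam (nn x) (SS p P x) (cE p P x) co' * theta i (pol x))).support,
      ∃ a, a < Wn p P x ∧ ∃ b', b' < Wn p P x ∧ β = gv p P x a b' := by
  have hp : CoverSup (nn x) (tT x) (ee x) (pol x) := CoverSup_fam _ _ _ _
  have hc : ∀ c : ℕ → F, CoverSup (nn x) (SS p P x) (cE p P x)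
      (fam (nn x) (SS p P x) (cE p P x) c) := fun c => CoverSup_fam _ _ _ _
  refine CoverAll_sub ?_ (CoverAll_sub ?_ ?_)
  · exact CoverAll_mul (fun u => 5 * u) (fun u => 5 * u + 1) (CoverE0 p P x) (CoverE1 p P x) hp
      (CoverSup_sub (CoverSup_theta i' (hc co)) (CoverSup_theta i (hc co')))
  · exact CoverAll_mul (fun u => 5 * u + 1) (fun u => 5 * u) (CoverE1 p P x) (CoverE0 p P x)
      (hc co) (CoverSup_theta i' hp)
  · exact CoverAll_mul (fun u => 5 * u + 1) (fun u => 5 * u) (CoverE1 p P x) (CoverE0 p P x)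
      (hc co') (CoverSup_theta i hp)

/-- `ee v + c2E κ`: `a = 5 v`, `b' = 5 κ + 2`; `ee v + ee v'`: `a = 5 v`, `b' = 5 v'`. -/
theorem cover2 (p : ℕ) (P : Polynomial ℕ) (x : List (Option (F ⊕ Bool))) (co : ℕ → F) (v : F)
    (i : Fin (nn x)) :
    ∀ β ∈ (pol x * fam (nn x) (SS p P x) (c2E p P x) co - C v * theta i (pol x) ^ 2).support,
      ∃ a, a < Wn p P x ∧ ∃ b', b' < Wn p P x ∧ β = gv p P x a b' := by
  have hp : CoverSup (nn x) (tT x) (ee x) (pol x) := CoverSup_fam _ _ _ _
  refine CoverAll_sub ?_ ?_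
  · exact CoverAll_mul (fun u => 5 * u) (fun u => 5 * u + 2) (CoverE0 p P x) (CoverE2 p P x) hp
      (CoverSup_fam _ _ _ _)
  · have h1 : CoverAll p P x (theta i (pol x) * theta i (pol x)) :=
      CoverAll_mul (fun u => 5 * u) (fun u => 5 * u) (CoverE0 p P x) (CoverE0 p P x)
        (CoverSup_theta i hp) (CoverSup_theta i hp)
    intro β hβ
    refine h1 β ?_
    rw [mem_support_iff, coeff_C_mul, pow_two] at hβ
    rw [mem_support_iff]
    intro h0
    rw [h0, mul_zero] at hβ
    exact hβ rfl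

end Pool.Agent.SIRP
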