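import Pool.Agent.SIRP.Base
import Pool.Agent.SIRM.ReadDefs
import Pool.Agent.SparseIrr.Linear

/-!
# The linear system of a word

Notation for a word `x` with `Good x`: `n = nn x` variables, `T = tT x` terms, exponents `ee x j i`,
coefficients `cc x j`, `f = pol x`. `P` is a polynomial with `2 ^ (tt x * ((p - 1) * mm p x + 2)) ≤
P.eval x.length` (`Big p P x`).

* `cE κ i`, `κ < SS`: the candidate exponents for the logarithmic derivatives; `c2E κ i`: those for the
  quotients `(θ_i f) ^ 2 / f`;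
* `pE`, `pC`: exponents and coefficients of `f ^ (p - 1)`;
* `WE a`, `a < Wn`: a list of all these exponents; the equations are taken at the exponents
  `gm a b = WE a + WE b`;
* columns (unknowns) `c = ((o * n + i) * (SS + 1) + κ) * e + l`, `o < 2`, `i < n`, `κ ≤ SS`, `l < e`;
* rows (equations) `j = t * N0 + r`, `r = (((i * n + i') * Wn + a) * Wn + b) * e + l`.
-/

set_option autoImplicit false

namespace Pool.Agent.SIRP

open Pool.Agent.SIRM MvPolynomial Pool.Agent.SparseIrr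

variable {F : Type} [Field F]

/-- the maximal exponent -/
def dd (x : List (Option (F ⊕ Bool))) : ℕ :=
  open Classical in
  ∑ q ∈ Finset.range x.length, if ∃ u, u < tT x ∧ ∃ i, i < nn x ∧ q < ee x u i then 1 else 0

/-- `p ^ mm` is larger than all exponents -/
def mm (p : ℕ) (x : List (Option (F ⊕ Bool))) : ℕ := Nat.log p (dd x) + 1

/-- `2 ^ tt` is larger than the number of terms -/
def tt (x : List (Option (F ⊕ Bool))) : ℕ := Nat.log 2 (tT x) + 1

/-- `p ^ j` for `j ≤ mm p x` -/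
def pwx (p : ℕ) (x : List (Option (F ⊕ Bool))) (j : ℕ) : ℕ := pw p (p * (x.length + 1)) j

/-- `2 ^ k`, if it is at most `P.eval x.length` -/
def two (P : Polynomial ℕ) (x : List (Option (F ⊕ Bool))) (k : ℕ) : ℕ := pw 2 (P.eval x.length) k

/-- the polynomial `P` is large enough -/
def Big (p : ℕ) (P : Polynomial ℕ) (x : List (Option (F ⊕ Bool))) : Prop :=
  2 ^ (tt x * ((p - 1) * mm p x + 2)) ≤ P.eval x.length

/-- the number of candidates -/
def SS (p : ℕ) (P : Polynomial ℕ) (x : List (Option (F ⊕ Bool))) : ℕ :=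
  two P x (tt x * ((p - 1) * mm p x + 2))

/-- the digit `r` of `κ` in base `2 ^ tt` -/
def dg (P : Polynomial ℕ) (x : List (Option (F ⊕ Bool))) (κ r : ℕ) : ℕ :=
  κ / two P x (tt x * r) % two P x (tt x)

/-- exponents, zero for `j ≥ T` -/
def eE (x : List (Option (F ⊕ Bool))) (j i : ℕ) : ℕ := if j < tT x then ee x j i else 0

/-- coefficients, zero for `j ≥ T` -/
def cC (x : List (Option (F ⊕ Bool))) (j : ℕ) : F := if j < tT x then cc x j else 0

/-- the candidate exponents -/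
def cE (p : ℕ) (P : Polynomial ℕ) (x : List (Option (F ⊕ Bool))) (κ i : ℕ) : ℕ :=
  (∑ r ∈ Finset.range ((p - 1) * mm p x), pwx p x (r / (p - 1)) * eE x (dg P x κ r) i +
    (pwx p x (mm p x) - 1)) / pwx p x (mm p x)

/-- the candidate exponents of the quotients -/
def c2E (p : ℕ) (P : Polynomial ℕ) (x : List (Option (F ⊕ Bool))) (κ i : ℕ) : ℕ :=
  (eE x (dg P x κ 0) i + eE x (dg P x κ 1) i +
    ∑ r ∈ Finset.range ((p - 1) * mm p x), pwx p x (r / (p - 1)) * eE x (dg P x κ (r + 2)) i) %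
    pwx p x (mm p x)

/-- the exponents of `f ^ (p - 1)` -/
def pE (p : ℕ) (x : List (Option (F ⊕ Bool))) (τ i : ℕ) : ℕ :=
  ∑ r ∈ Finset.range (p - 1), eE x (τ / tT x ^ r % tT x) i

/-- the coefficients of `f ^ (p - 1)` -/
def pC (p : ℕ) (x : List (Option (F ⊕ Bool))) (τ : ℕ) : F :=
  ∏ r ∈ Finset.range (p - 1), cC x (τ / tT x ^ r % tT x)

/-- the list of exponents -/
def WE (p : ℕ) (P : Polynomial ℕ) (x : List (Option (F ⊕ Bool))) (a i : ℕ) : ℕ :=
  if a % 5 = 0 then eE x (a / 5) i else if a % 5 = 1 then cE p P x (a / 5) i else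
    if a % 5 = 2 then c2E p P x (a / 5) i else if a % 5 = 3 then pE p x (a / 5) i else
      (p - 1) * cE p P x (a / 5) i

def Wn (p : ℕ) (P : Polynomial ℕ) (x : List (Option (F ⊕ Bool))) : ℕ :=
  5 * (tT x + SS p P x + tT x ^ (p - 1))

/-- the exponents at which the equations are taken -/
def gm (p : ℕ) (P : Polynomial ℕ) (x : List (Option (F ⊕ Bool))) (a b i : ℕ) : ℕ :=
  WE p P x a i + WE p P x b i

/-! ### Columns -/

/-- number of columns -/
def Cn (p : ℕ) (P : Polynomial ℕ) (e : ℕ) (x : List (Option (F ⊕ Bool))) : ℕ :=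
  2 * nn x * (SS p P x + 1) * e

def idx (p : ℕ) (P : Polynomial ℕ) (e : ℕ) (x : List (Option (F ⊕ Bool))) (o i κ l : ℕ) : ℕ :=
  ((o * nn x + i) * (SS p P x + 1) + κ) * e + l

def cO (p : ℕ) (P : Polynomial ℕ) (e : ℕ) (x : List (Option (F ⊕ Bool))) (c : ℕ) : ℕ :=
  c / (nn x * (SS p P x + 1) * e)

def cI (p : ℕ) (P : Polynomial ℕ) (e : ℕ) (x : List (Option (F ⊕ Bool))) (c : ℕ) : ℕ :=
  c / ((SS p P x + 1) * e) % nn x

def cK (p : ℕ) (P : Polynomial ℕ) (e : ℕ) (x : List (Option (F ⊕ Bool))) (c : ℕ) : ℕ :=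
  c / e % (SS p P x + 1)

/-- `θ_i f` is no constant multiple of `f` -/
def act (p : ℕ) (x : List (Option (F ⊕ Bool))) (i : ℕ) : Prop :=
  ∃ u, u < tT x ∧ ∃ v, v < tT x ∧ ee x u i % p ≠ ee x v i % p

/-- valid columns: `o = 0` and `κ` is the first index of its exponent vector, whose degree is at most
that of `f`; or `o = 1`, `i` is active and `κ = SS` or `κ` is the first index of its exponent
vector -/
def valid (p : ℕ) (P : Polynomial ℕ) (x : List (Option (F ⊕ Bool))) (o i κ : ℕ) : Prop :=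
  (o = 0 ∧ κ < SS p P x ∧
    (∀ κ', κ' < κ → ∃ i', i' < nn x ∧ cE p P x κ' i' ≠ cE p P x κ i') ∧
    ∃ j, j < tT x ∧ ∑ i' ∈ Finset.range (nn x), cE p P x κ i' ≤
      ∑ i' ∈ Finset.range (nn x), ee x j i') ∨
  (o ≠ 0 ∧ act p x i ∧ (κ = SS p P x ∨ (κ < SS p P x ∧
    ∀ κ', κ' < κ → ∃ i', i' < nn x ∧ c2E p P x κ' i' ≠ c2E p P x κ i')))

/-- the entry `c` of a vector -/
def yv {p C : ℕ} (y : Fin C → ZMod p) (c : ℕ) : ZMod p := if h : c < C then y ⟨c, h⟩ else 0

/-- the exponent vector `gm a b'` -/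
noncomputable def gv (p : ℕ) (P : Polynomial ℕ) (x : List (Option (F ⊕ Bool))) (a b' : ℕ) :
    Fin (nn x) →₀ ℕ :=
  Finsupp.equivFunOnFinite.symm fun i => gm p P x a b' i

/-- zero at all columns which are not valid -/
def Zv (p : ℕ) (P : Polynomial ℕ) (e : ℕ) (x : List (Option (F ⊕ Bool))) {C : ℕ}
    (y : Fin C → ZMod p) : Prop :=
  ∀ o, o < 2 → ∀ i, i < nn x → ∀ κ, κ < SS p P x + 1 → ∀ l, l < e → ¬ valid p P x o i κ →
    yv y (idx p P e x o i κ l) = 0

/-! ### The basis of `F` over the prime field -/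

section basis

variable {p : ℕ} [Fact p.Prime] [Algebra (ZMod p) F] {e : ℕ}

/-- basis elements -/
noncomputable def bs (b : Module.Basis (Fin e) (ZMod p) F) (l : ℕ) : F :=
  if h : l < e then b ⟨l, h⟩ else 0

/-- coordinates -/
noncomputable def cr (b : Module.Basis (Fin e) (ZMod p) F) (l : ℕ) (v : F) : ZMod p :=
  if h : l < e then b.repr v ⟨l, h⟩ else 0

/-! ### Rows -/

/-- `U_i ^ p - proj p i (f ^ (p - 1) U_i)` at `gm a b'`, for the unit vector `(o, i0, κ, l)` -/
noncomputable def co0 (b : Module.Basis (Fin e) (ZMod p) F) (P : Polynomial ℕ)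
    (x : List (Option (F ⊕ Bool))) (o i0 κ l i a b' : ℕ) : F :=
  open Classical in
  if o = 0 ∧ i0 = i ∧ κ < SS p P x then
    (if ∀ i', i' < nn x → p * cE p P x κ i' = gm p P x a b' i' then bs b l ^ p else 0) -
    (if gm p P x a b' i % p = 0 then ∑ τ ∈ Finset.range (tT x ^ (p - 1)),
      if ∀ i', i' < nn x → pE p x τ i' + cE p P x κ i' = gm p P x a b' i' then
        pC p x τ * bs b l else 0 else 0)
  else 0

/-- `f (θ_i' U_i - θ_i U_i') - (U_i θ_i' f - U_i' θ_i f)` at `gm a b'` -/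
noncomputable def co1 (b : Module.Basis (Fin e) (ZMod p) F) (P : Polynomial ℕ)
    (x : List (Option (F ⊕ Bool))) (o i0 κ l i i' a b' : ℕ) : F :=
  open Classical in
  if o = 0 ∧ κ < SS p P x then
    ∑ v ∈ Finset.range (tT x), if ∀ k, k < nn x → ee x v k + cE p P x κ k = gm p P x a b' k then
      cc x v * bs b l * ((if i0 = i then ((cE p P x κ i' : ℕ) : F) - (ee x v i' : ℕ) else 0) -
        (if i0 = i' then ((cE p P x κ i : ℕ) : F) - (ee x v i : ℕ) else 0)) else 0
  else 0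

/-- `f W_i - Λ_i (θ_i f) ^ 2` at `gm a b'` -/
noncomputable def co2 (b : Module.Basis (Fin e) (ZMod p) F) (P : Polynomial ℕ)
    (x : List (Option (F ⊕ Bool))) (o i0 κ l i a b' : ℕ) : F :=
  open Classical in
  if o ≠ 0 ∧ i0 = i then
    (if κ < SS p P x then ∑ v ∈ Finset.range (tT x),
        if ∀ k, k < nn x → ee x v k + c2E p P x κ k = gm p P x a b' k then cc x v * bs b l else 0
      else -(∑ v ∈ Finset.range (tT x), ∑ v' ∈ Finset.range (tT x),
        if ∀ k, k < nn x → ee x v k + ee x v' k = gm p P x a b' k then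
          cc x v * cc x v' * (ee x v i : ℕ) * (ee x v' i : ℕ) * bs b l else 0))
  else 0

/-- number of rows of each kind -/
def N0 (p : ℕ) (P : Polynomial ℕ) (e : ℕ) (x : List (Option (F ⊕ Bool))) : ℕ :=
  nn x * nn x * Wn p P x * Wn p P x * e

/-- the matrix: column (unknown) `c`, row (equation) `j` -/
noncomputable def aM (b : Module.Basis (Fin e) (ZMod p) F) (P : Polynomial ℕ)
    (x : List (Option (F ⊕ Bool))) (c j : ℕ) : ZMod p :=
  open Classical in
  let t := j / N0 p P e x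
  let r := j % N0 p P e x
  let l' := r % e
  let b' := r / e % Wn p P x
  let a := r / (Wn p P x * e) % Wn p P x
  let i' := r / (Wn p P x * Wn p P x * e) % nn x
  let i := r / (nn x * Wn p P x * Wn p P x * e) % nn x
  let o := cO p P e x c
  let i0 := cI p P e x c
  let κ := cK p P e x c
  let l := c % e
  if t = 0 then cr b l' (co0 b P x o i0 κ l i a b')
  else if t = 1 then cr b l' (co1 b P x o i0 κ l i i' a b')
  else if t = 2 then cr b l' (co2 b P x o i0 κ l i a b')
  else if c = r ∧ ¬ valid p P x o i0 κ then 1 else 0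

/-! ### The polynomials of a vector of unknowns -/

noncomputable def cy (b : Module.Basis (Fin e) (ZMod p) F) (P : Polynomial ℕ)
    (x : List (Option (F ⊕ Bool))) {C : ℕ} (y : Fin C → ZMod p) (o i κ : ℕ) : F :=
  ∑ l ∈ Finset.range e, yv y (idx p P e x o i κ l) • bs b l

noncomputable def uP (b : Module.Basis (Fin e) (ZMod p) F) (P : Polynomial ℕ)
    (x : List (Option (F ⊕ Bool))) {C : ℕ} (y : Fin C → ZMod p) (i : ℕ) :
    MvPolynomial (Fin (nn x)) F :=
  fam (nn x) (SS p P x) (cE p P x) (fun κ => cy b P x y 0 i κ)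

noncomputable def wP (b : Module.Basis (Fin e) (ZMod p) F) (P : Polynomial ℕ)
    (x : List (Option (F ⊕ Bool))) {C : ℕ} (y : Fin C → ZMod p) (i : ℕ) :
    MvPolynomial (Fin (nn x)) F :=
  fam (nn x) (SS p P x) (c2E p P x) (fun κ => cy b P x y 1 i κ)

end basis

/-- the system with the candidate exponents `cE` -/
def SysU (p : ℕ) (P : Polynomial ℕ) (x : List (Option (F ⊕ Bool)))
    (u : Fin (nn x) → MvPolynomial (Fin (nn x)) F) : Prop :=
  (∀ i, ∀ β ∈ (u i).support, ∃ κ, κ < SS p P x ∧ ∀ k : Fin (nn x), β k = cE p P x κ k) ∧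
  (∀ i, (u i).totalDegree ≤ (pol x).totalDegree) ∧
  (∀ i, proj p i (pol x ^ (p - 1) * u i) = u i ^ p) ∧
  ∀ i j, pol x * (theta j (u i) - theta i (u j)) = u i * theta j (pol x) - u j * theta i (pol x)

/-- the pairs `(w, v)` with `f w = v (θ_i f) ^ 2` -/
def SysW (p : ℕ) (P : Polynomial ℕ) (x : List (Option (F ⊕ Bool)))
    (w : Fin (nn x) → MvPolynomial (Fin (nn x)) F) (v : Fin (nn x) → F) : Prop :=
  (∀ i, ∀ β ∈ (w i).support, ∃ κ, κ < SS p P x ∧ ∀ k : Fin (nn x), β k = c2E p P x κ k) ∧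
  (∀ i : Fin (nn x), ¬ act p x i → w i = 0 ∧ v i = 0) ∧
  ∀ i, pol x * w i = C (v i) * theta i (pol x) ^ 2

end Pool.Agent.SIRP
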