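import Pool.Agent.SIRP.Cols
import Pool.Agent.SIRM.FamS

/-! # The polynomials of a vector: existence -/

set_option autoImplicit false

namespace Pool.Agent.SIRP

open Pool.Agent.SIRM MvPolynomial Pool.Agent.SparseIrr

variable {F : Type} [Field F] {p : ℕ} [Fact p.Prime] [Algebra (ZMod p) F] {e : ℕ}
  (b : Module.Basis (Fin e) (ZMod p) F) (P : Polynomial ℕ) (x : List (Option (F ⊕ Bool)))

omit [Fact p.Prime] [Algebra (ZMod p) F] in
private theorem fam_eq_ParE (n N : ℕ) (ex : ℕ → ℕ → ℕ) (q : MvPolynomial (Fin n) F) (V : ℕ → Prop)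
    (co : ℕ → F) (h1 : ∀ κ, κ < N → V κ → co κ =
      coeff (Finsupp.equivFunOnFinite.symm fun i : Fin n => ex κ i) q)
    (h2 : ∀ κ, κ < N → ¬ V κ → co κ = 0)
    (h3 : ∀ κ, κ < N → V κ → ∀ κ', κ' < κ → ∃ i', i' < n ∧ ex κ' i' ≠ ex κ i')
    (h4 : ∀ m ∈ q.support, ∃ κ, κ < N ∧ (∀ k : Fin n, m k = ex κ k) ∧ V κ) :
    fam n N ex co = q := by
  classical
  have hvec : ∀ (κ : ℕ) (m : Fin n →₀ ℕ), (∀ i : Fin n, ex κ i = m i) →
      (Finsupp.equivFunOnFinite.symm fun i : Fin n => ex κ i) = m := by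
    intro κ m h
    ext i
    exact h i
  apply MvPolynomial.ext
  intro m
  rw [coeff_fam]
  by_cases hm : m ∈ q.support
  · obtain ⟨κ, hκ, hk, hV⟩ := h4 m hm
    rw [Finset.sum_eq_single_of_mem κ (Finset.mem_range.2 hκ)]
    · rw [if_pos fun i => (hk i).symm, h1 κ hκ hV, hvec κ m fun i => (hk i).symm]
    · intro κ' hκ' hne
      have hκ'' := Finset.mem_range.1 hκ'
      by_cases he : ∀ i : Fin n, ex κ' i = m i
      · rw [if_pos he]
        by_cases hV' : V κ'
        · exfalso
          rcases lt_or_gt_of_ne hne with hlt | hlt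
          · obtain ⟨i', hi', hne'⟩ := h3 κ hκ hV κ' hlt
            apply hne'
            rw [he ⟨i', hi'⟩, hk ⟨i', hi'⟩]
          · obtain ⟨i', hi', hne'⟩ := h3 κ' hκ'' hV' κ hlt
            apply hne'
            rw [he ⟨i', hi'⟩, hk ⟨i', hi'⟩]
        · exact h2 κ' hκ'' hV'
      · rw [if_neg he]
  · have hm0 : coeff m q = 0 := by
      by_contra h
      exact hm (mem_support_iff.2 h)
    rw [hm0]
    refine Finset.sum_eq_zero fun κ hκ => ?_
    have hκ' := Finset.mem_range.1 hκ
    by_cases he : ∀ i : Fin n, ex κ i = m i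
    · rw [if_pos he]
      by_cases hV : V κ
      · rw [h1 κ hκ' hV, hvec κ m he, hm0]
      · exact h2 κ hκ' hV
    · rw [if_neg he]

private theorem repr_ParE (z : F) : ∑ l ∈ Finset.range e, cr b l z • bs b l = z := by
  rw [Finset.sum_range]
  have h1 : ∀ l : Fin e, cr b (l : ℕ) z • bs b (l : ℕ) = b.repr z l • b l := by
    intro l
    unfold cr bs
    rw [dif_pos l.2, dif_pos l.2]
  rw [Finset.sum_congr rfl fun l _ => h1 l]
  exact b.sum_repr z

open Classical in
/-- the coefficients of the unknown vector -/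
private noncomputable def gg (p : ℕ) (P : Polynomial ℕ) (x : List (Option (F ⊕ Bool)))
    (u w : Fin (nn x) → MvPolynomial (Fin (nn x)) F) (v : Fin (nn x) → F) (o i κ : ℕ) : F :=
  if hi : i < nn x then
    if valid p P x o i κ then
      if o = 0 then coeff (Finsupp.equivFunOnFinite.symm fun k : Fin (nn x) => cE p P x κ k)
        (u ⟨i, hi⟩)
      else if κ = SS p P x then v ⟨i, hi⟩
        else coeff (Finsupp.equivFunOnFinite.symm fun k : Fin (nn x) => c2E p P x κ k) (w ⟨i, hi⟩)
    else 0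
  else 0

/-- Coordinates: `y (idx o i κ l)` is `cr b l` of the coefficient of `u i` at `cE κ` (`o = 0`), of `w i` at
`c2E κ` (`o = 1`, `κ < SS`), of `v i` (`o = 1`, `κ = SS`), if `(o, i, κ)` is valid, and `0` otherwise. Every
exponent `β` of `u i` is `cE κ` for exactly one valid `κ`, the first one (its degree is at most that of
`u i`, so at most that of `f`: `degree_fam`); `∑ l < e, cr b l v • bs b l = v` (`Module.Basis.sum_repr`);
compare the coefficients (`coeff_fam`). -/
theorem exists_y (hx : Good x) (u w : Fin (nn x) → MvPolynomial (Fin (nn x)) F)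
    (v : Fin (nn x) → F)
    (hu : ∀ i, ∀ β ∈ (u i).support, ∃ κ, κ < SS p P x ∧ ∀ k : Fin (nn x), β k = cE p P x κ k)
    (hu' : ∀ i, (u i).totalDegree ≤ (pol x).totalDegree)
    (hw : ∀ i, ∀ β ∈ (w i).support, ∃ κ, κ < SS p P x ∧ ∀ k : Fin (nn x), β k = c2E p P x κ k)
    (ha : ∀ i : Fin (nn x), ¬ act p x i → w i = 0 ∧ v i = 0) :
    ∃ y : Fin (Cn p P e x) → ZMod p, Zv p P e x y ∧ (∀ i : Fin (nn x), uP b P x y i = u i) ∧
      (∀ i : Fin (nn x), wP b P x y i = w i) ∧
      ∀ i : Fin (nn x), cy b P x y 1 i (SS p P x) = v i := by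
  classical
  set g := gg p P x u w v with hg
  set y : Fin (Cn p P e x) → ZMod p := fun c =>
    cr b ((c : ℕ) % e) (g (cO p P e x c) (cI p P e x c) (cK p P e x c)) with hy
  have cr0 : ∀ l, cr b l (0 : F) = 0 := by
    intro l
    unfold cr
    split_ifs
    · rw [map_zero]
      rfl
    · rfl
  have hyv : ∀ o, o < 2 → ∀ i, i < nn x → ∀ κ, κ < SS p P x + 1 → ∀ l, l < e →
      yv y (idx p P e x o i κ l) = cr b l (g o i κ) := by
    intro o ho i hi κ hκ l hl
    unfold yv
    rw [dif_pos (idx_lt p P e x ho hi hκ hl), hy]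
    simp only
    rw [cO_idx p P e x hi hκ hl, cI_idx p P e x hi hκ hl, cK_idx p P e x hκ hl,
      mod_idx p P e x hl]
  have hcy : ∀ o, o < 2 → ∀ i, i < nn x → ∀ κ, κ < SS p P x + 1 → cy b P x y o i κ = g o i κ := by
    intro o ho i hi κ hκ
    unfold cy
    rw [Finset.sum_congr rfl fun l hl => by
      rw [hyv o ho i hi κ hκ l (Finset.mem_range.1 hl)]]
    exact repr_ParE b _
  have hgn : ∀ o i κ, ¬ valid p P x o i κ → g o i κ = 0 := by
    intro o i κ h
    rw [hg]
    unfold gg
    split_ifs <;> rfl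
  have hg0 : ∀ (i : Fin (nn x)) κ, valid p P x 0 i κ → g 0 i κ =
      coeff (Finsupp.equivFunOnFinite.symm fun k : Fin (nn x) => cE p P x κ k) (u i) := by
    intro i κ h
    rw [hg]
    unfold gg
    rw [dif_pos i.2, if_pos h, if_pos rfl]
  have hg1 : ∀ (i : Fin (nn x)) κ, κ < SS p P x → valid p P x 1 i κ → g 1 i κ =
      coeff (Finsupp.equivFunOnFinite.symm fun k : Fin (nn x) => c2E p P x κ k) (w i) := by
    intro i κ hκ h
    rw [hg]
    unfold gg
    rw [dif_pos i.2, if_pos h, if_neg one_ne_zero, if_neg hκ.ne]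
  refine ⟨y, ?_, ?_, ?_, ?_⟩
  · intro o ho i hi κ hκ l hl hv
    rw [hyv o ho i hi κ hκ l hl, hgn o i κ hv, cr0]
  · intro i
    unfold uP
    refine fam_eq_ParE (nn x) (SS p P x) (cE p P x) (u i) (fun κ => valid p P x 0 i κ) _
      ?_ ?_ ?_ ?_
    · intro κ hκ hV
      rw [hcy 0 (by norm_num) i i.2 κ (by omega)]
      exact hg0 i κ hV
    · intro κ hκ hV
      rw [hcy 0 (by norm_num) i i.2 κ (by omega)]
      exact hgn 0 i κ hV
    · intro κ hκ hV κ' hκ'
      rcases hV with hV | hV
      · exact hV.2.2.1 κ' hκ'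
      · exact absurd rfl hV.1
    · intro m hm
      have hex := hu i m hm
      refine ⟨Nat.find hex, (Nat.find_spec hex).1, (Nat.find_spec hex).2, Or.inl ⟨rfl,
        (Nat.find_spec hex).1, ?_, ?_⟩⟩
      · intro κ' hκ'
        by_contra hcon
        push Not at hcon
        refine Nat.find_min hex hκ' ⟨hκ'.trans (Nat.find_spec hex).1, fun k => ?_⟩
        rw [hcon k k.2]
        exact (Nat.find_spec hex).2 k
      · have h1 : (m.sum fun _ a => a) ≤ (pol x).totalDegree :=
          (le_totalDegree hm).trans (hu' i)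
        have h2 : (m.sum fun _ a => a) =
            ∑ i' ∈ Finset.range (nn x), cE p P x (Nat.find hex) i' := by
          rw [Finsupp.sum_fintype _ _ (fun _ => rfl), Finset.sum_range]
          exact Finset.sum_congr rfl fun k _ => (Nat.find_spec hex).2 k
        rw [h2] at h1
        exact ((degree_fam (nn x) (tT x) (ee x) (cc x) hx.2.2.2.1 hx.2.2.2.2).2 _ hx.1).1 h1
  · intro i
    unfold wP
    refine fam_eq_ParE (nn x) (SS p P x) (c2E p P x) (w i) (fun κ => valid p P x 1 i κ) _
      ?_ ?_ ?_ ?_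
    · intro κ hκ hV
      rw [hcy 1 (by norm_num) i i.2 κ (by omega)]
      exact hg1 i κ hκ hV
    · intro κ hκ hV
      rw [hcy 1 (by norm_num) i i.2 κ (by omega)]
      exact hgn 1 i κ hV
    · intro κ hκ hV κ' hκ'
      rcases hV with hV | hV
      · exact absurd hV.1 one_ne_zero
      · rcases hV.2.2 with h | h
        · exact absurd h hκ.ne
        · exact h.2 κ' hκ'
    · intro m hm
      have hact : act p x i := by
        by_contra h
        rw [(ha i h).1] at hm
        simp at hm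
      have hex := hw i m hm
      refine ⟨Nat.find hex, (Nat.find_spec hex).1, (Nat.find_spec hex).2, Or.inr ⟨one_ne_zero,
        hact, Or.inr ⟨(Nat.find_spec hex).1, ?_⟩⟩⟩
      intro κ' hκ'
      by_contra hcon
      push Not at hcon
      refine Nat.find_min hex hκ' ⟨hκ'.trans (Nat.find_spec hex).1, fun k => ?_⟩
      rw [hcon k k.2]
      exact (Nat.find_spec hex).2 k
  · intro i
    rw [hcy 1 (by norm_num) i i.2 _ (by omega)]
    by_cases hact : act p x i
    · have hV : valid p P x 1 i (SS p P x) := Or.inr ⟨one_ne_zero, hact, Or.inl rfl⟩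
      rw [hg]
      unfold gg
      rw [dif_pos i.2, if_pos hV, if_neg one_ne_zero, if_pos rfl]
    · rw [(ha i hact).2]
      apply hgn
      rintro (h | h)
      · exact absurd h.1 one_ne_zero
      · exact hact h.2.1

end Pool.Agent.SIRP
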