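
import Pool.Agent.SIRP.Cols
import Pool.Agent.SIRP.Cover
import Pool.Agent.SIRM.FamS

/-! # The polynomials of a vector: linearity, supports, degrees, uniqueness -/

set_option autoImplicit false

namespace Pool.Agent.SIRP

open Pool.Agent.SIRM MvPolynomial Pool.Agent.SparseIrr

variable {F : Type} [Field F] {p : ℕ} [Fact p.Prime] [Algebra (ZMod p) F] {e : ℕ}
  (b : Module.Basis (Fin e) (ZMod p) F) (P : Polynomial ℕ) (x : List (Option (F ⊕ Bool)))

private theorem yv_add_ParL {C : ℕ} (y z : Fin C → ZMod p) (c : ℕ) :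
    yv (y + z) c = yv y c + yv z c := by
  unfold yv
  split_ifs
  · rfl
  · rw [add_zero]

private theorem yv_smul_ParL {C : ℕ} (a : ZMod p) (y : Fin C → ZMod p) (c : ℕ) :
    yv (a • y) c = a * yv y c := by
  unfold yv
  split_ifs
  · rfl
  · rw [mul_zero]

theorem cy_add {C : ℕ} (y z : Fin C → ZMod p) (o i κ : ℕ) :
    cy b P x (y + z) o i κ = cy b P x y o i κ + cy b P x z o i κ := by
  unfold cy
  rw [← Finset.sum_add_distrib]
  refine Finset.sum_congr rfl fun l _ => ?_
  rw [yv_add_ParL, add_smul]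

theorem cy_smul {C : ℕ} (c : ZMod p) (y : Fin C → ZMod p) (o i κ : ℕ) :
    cy b P x (c • y) o i κ = c • cy b P x y o i κ := by
  unfold cy
  rw [Finset.smul_sum]
  refine Finset.sum_congr rfl fun l _ => ?_
  rw [yv_smul_ParL, mul_smul]

omit [Fact p.Prime] [Algebra (ZMod p) F] in
private theorem fam_add_ParL (n N : ℕ) (ex : ℕ → ℕ → ℕ) (co co' co'' : ℕ → F)
    (h : ∀ u, co'' u = co u + co' u) : fam n N ex co'' = fam n N ex co + fam n N ex co' := by
  unfold fam
  rw [← Finset.sum_add_distrib]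
  refine Finset.sum_congr rfl fun l _ => ?_
  rw [h l, map_add]

private theorem fam_smul_ParL (c : ZMod p) (n N : ℕ) (ex : ℕ → ℕ → ℕ) (co co'' : ℕ → F)
    (h : ∀ u, co'' u = c • co u) : fam n N ex co'' = c • fam n N ex co := by
  unfold fam
  rw [Finset.smul_sum]
  refine Finset.sum_congr rfl fun l _ => ?_
  rw [h l, smul_monomial]

theorem uP_add {C : ℕ} (y z : Fin C → ZMod p) (i : ℕ) :
    uP b P x (y + z) i = uP b P x y i + uP b P x z i :=
  fam_add_ParL _ _ _ _ _ _ fun _ => cy_add b P x y z _ _ _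

theorem uP_smul {C : ℕ} (c : ZMod p) (y : Fin C → ZMod p) (i : ℕ) :
    uP b P x (c • y) i = c • uP b P x y i :=
  fam_smul_ParL _ _ _ _ _ _ fun _ => cy_smul b P x c y _ _ _

theorem wP_add {C : ℕ} (y z : Fin C → ZMod p) (i : ℕ) :
    wP b P x (y + z) i = wP b P x y i + wP b P x z i :=
  fam_add_ParL _ _ _ _ _ _ fun _ => cy_add b P x y z _ _ _

theorem wP_smul {C : ℕ} (c : ZMod p) (y : Fin C → ZMod p) (i : ℕ) :
    wP b P x (c • y) i = c • wP b P x y i :=
  fam_smul_ParL _ _ _ _ _ _ fun _ => cy_smul b P x c y _ _ _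

private theorem cy_notValid_ParL (y : Fin (Cn p P e x) → ZMod p) (hy : Zv p P e x y) {o i κ : ℕ}
    (ho : o < 2) (hi : i < nn x) (hκ : κ < SS p P x + 1) (hv : ¬ valid p P x o i κ) :
    cy b P x y o i κ = 0 := by
  unfold cy
  refine Finset.sum_eq_zero fun l hl => ?_
  rw [hy o ho i hi κ hκ l (Finset.mem_range.1 hl) hv, zero_smul]

/-- A vector which is zero at the columns that are not valid: the degrees. The nonzero terms of
`uP` have exponents `cE κ` with `κ` valid, so of degree at most `∑ i', ee x j i'` for some term `j` of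
`f`; `degree_fam` (`SIRM/FamS.lean`), `good_code`-like facts from `Good x`. -/
theorem uP_totalDegree (hx : Good x) (y : Fin (Cn p P e x) → ZMod p) (hy : Zv p P e x y)
    (i : Fin (nn x)) : (uP b P x y i).totalDegree ≤ (pol x).totalDegree := by
  classical
  unfold MvPolynomial.totalDegree
  refine Finset.sup_le fun m hm => ?_
  have h1 : coeff m (uP b P x y i) ≠ 0 := mem_support_iff.1 hm
  unfold uP at h1
  rw [coeff_fam] at h1
  obtain ⟨κ, hκ, hκ'⟩ := Finset.exists_ne_zero_of_sum_ne_zero h1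
  have hκ2 := Finset.mem_range.1 hκ
  have h2 : ∀ k : Fin (nn x), cE p P x κ k = m k := by
    by_contra hcon
    exact hκ' (if_neg hcon)
  rw [if_pos h2] at hκ'
  have h3 : valid p P x 0 i κ := by
    by_contra hcon
    exact hκ' (cy_notValid_ParL b P x y hy (by norm_num) i.2 (by omega) hcon)
  rcases h3 with h3 | h3
  · obtain ⟨j, hj, hj'⟩ := h3.2.2.2
    have h4 : (m.sum fun _ a => a) = ∑ i' ∈ Finset.range (nn x), cE p P x κ i' := by
      rw [Finsupp.sum_fintype _ _ (fun _ => rfl), Finset.sum_range]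
      exact Finset.sum_congr rfl fun k _ => (h2 k).symm
    rw [h4]
    exact ((degree_fam (nn x) (tT x) (ee x) (cc x) hx.2.2.2.1 hx.2.2.2.2).2 _ hx.1).2
      ⟨j, hj, hj'⟩
  · exact absurd rfl h3.1

/-- The columns of an inactive variable are not valid. -/
theorem wP_inactive (y : Fin (Cn p P e x) → ZMod p) (hy : Zv p P e x y) (i : Fin (nn x))
    (hi : ¬ act p x i) : wP b P x y i = 0 ∧ cy b P x y 1 i (SS p P x) = 0 := by
  have h1 : ∀ κ, κ < SS p P x + 1 → cy b P x y 1 i κ = 0 := by
    intro κ hκ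
    refine cy_notValid_ParL b P x y hy (by norm_num) i.2 hκ ?_
    rintro (h | h)
    · exact absurd h.1 one_ne_zero
    · exact hi h.2.1
  refine ⟨?_, h1 _ (by omega)⟩
  unfold wP fam
  refine Finset.sum_eq_zero fun κ hκ => ?_
  beta_reduce
  rw [h1 κ (by have := Finset.mem_range.1 hκ; omega), monomial_zero]

private theorem coord_ParL (g : ℕ → ZMod p) (h : ∑ l ∈ Finset.range e, g l • bs b l = 0) :
    ∀ l, l < e → g l = 0 := by
  rw [Finset.sum_range] at h
  have h1 : ∑ l : Fin e, g (l : ℕ) • b l = 0 := by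
    rw [← h]
    refine Finset.sum_congr rfl fun l _ => ?_
    unfold bs
    rw [dif_pos l.2]
  have h2 := Fintype.linearIndependent_iff.1 b.linearIndependent (fun l : Fin e => g (l : ℕ)) h1
  intro l hl
  exact h2 ⟨l, hl⟩

omit [Fact p.Prime] [Algebra (ZMod p) F] in
private theorem coeff_first_ParL (n N : ℕ) (ex : ℕ → ℕ → ℕ) (co : ℕ → F) (V : ℕ → Prop) (κ : ℕ)
    (hκ : κ < N) (hV : V κ) (h2 : ∀ κ', κ' < N → ¬ V κ' → co κ' = 0)
    (h3 : ∀ κ, κ < N → V κ → ∀ κ', κ' < κ → ∃ i', i' < n ∧ ex κ' i' ≠ ex κ i')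
    (h0 : fam n N ex co = 0) : co κ = 0 := by
  classical
  have h1 := congrArg (coeff (Finsupp.equivFunOnFinite.symm fun i : Fin n => ex κ i)) h0
  rw [coeff_fam, coeff_zero, Finset.sum_eq_single_of_mem κ (Finset.mem_range.2 hκ)] at h1
  · rwa [if_pos] at h1
    exact fun i => rfl
  · intro κ' hκ' hne
    have hκ'' := Finset.mem_range.1 hκ'
    by_cases he : ∀ i : Fin n, ex κ' i =
        (Finsupp.equivFunOnFinite.symm fun i : Fin n => ex κ i) i
    · rw [if_pos he]
      by_cases hV' : V κ'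
      · exfalso
        rcases lt_or_gt_of_ne hne with hlt | hlt
        · obtain ⟨i', hi', hne'⟩ := h3 κ hκ hV κ' hlt
          exact hne' (he ⟨i', hi'⟩)
        · obtain ⟨i', hi', hne'⟩ := h3 κ' hκ'' hV' κ hlt
          exact hne' (he ⟨i', hi'⟩).symm
      · exact h2 κ' hκ'' hV'
    · rw [if_neg he]

/-- Uniqueness. For a valid `(0, i, κ)` the coefficient of `uP b P x y i` at `cE κ` is `cy y 0 i κ` (the
other indices with the same exponents are larger, so not valid), so all the coordinates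
`yv y (idx 0 i κ l)` vanish (`Module.Basis` is linearly independent); the same for `wP`. -/
theorem y_zero (y : Fin (Cn p P e x) → ZMod p) (hy : Zv p P e x y)
    (h1 : ∀ i : Fin (nn x), uP b P x y i = 0) (h2 : ∀ i : Fin (nn x), wP b P x y i = 0)
    (h3 : ∀ i : Fin (nn x), cy b P x y 1 i (SS p P x) = 0) : y = 0 := by
  have key : ∀ o, o < 2 → ∀ i, i < nn x → ∀ κ, κ < SS p P x + 1 → valid p P x o i κ →
      cy b P x y o i κ = 0 := by
    intro o ho i hi κ hκ hv
    rcases (show o = 0 ∨ o = 1 by omega) with rfl | rfl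
    · have hκ' : κ < SS p P x := by
        rcases hv with hv | hv
        · exact hv.2.1
        · exact absurd rfl hv.1
      refine coeff_first_ParL (nn x) (SS p P x) (cE p P x) (fun κ => cy b P x y 0 i κ)
        (fun κ => valid p P x 0 i κ) κ hκ' hv ?_ ?_ (h1 ⟨i, hi⟩)
      · intro κ' hκ'' hn
        exact cy_notValid_ParL b P x y hy ho hi (by omega) hn
      · intro κ₁ hκ₁ hV κ' hlt
        rcases hV with hV | hV
        · exact hV.2.2.1 κ' hlt
        · exact absurd rfl hV.1
    · by_cases hκS : κ = SS p P x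
      · rw [hκS]
        exact h3 ⟨i, hi⟩
      · have hκ' : κ < SS p P x := by omega
        refine coeff_first_ParL (nn x) (SS p P x) (c2E p P x) (fun κ => cy b P x y 1 i κ)
          (fun κ => valid p P x 1 i κ) κ hκ' hv ?_ ?_ (h2 ⟨i, hi⟩)
        · intro κ' hκ'' hn
          exact cy_notValid_ParL b P x y hy ho hi (by omega) hn
        · intro κ₁ hκ₁ hV κ' hlt
          rcases hV with hV | hV
          · exact absurd hV.1 one_ne_zero
          · rcases hV.2.2 with h | h
            · exact absurd h hκ₁.ne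
            · exact h.2 κ' hlt
  funext c
  obtain ⟨o, i, κ, l, ho, hi, hκ, hl, hc⟩ := exists_idx p P e x c.2
  have h4 : yv y (c : ℕ) = 0 := by
    rw [← hc]
    by_cases hv : valid p P x o i κ
    · exact coord_ParL b (fun l => yv y (idx p P e x o i κ l)) (key o ho i hi κ hκ hv) l hl
    · exact hy o ho i hi κ hκ l hl hv
  unfold yv at h4
  rw [dif_pos c.2] at h4
  exact h4

end Pool.Agent.SIRP
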