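import Pool.Agent.SIRP.Defs

/-! # Families of terms: derivations, powers of the polynomial of a word -/

set_option autoImplicit false

namespace Pool.Agent.SIRP

open Pool.Agent.SIRM MvPolynomial Pool.Agent.SparseIrr

variable {F : Type} [Field F]

/-- `theta` of a monomial. -/
theorem theta_fam (n N : ℕ) (ex : ℕ → ℕ → ℕ) (co : ℕ → F) (i : Fin n) :
    theta i (fam n N ex co) = fam n N ex (fun u => (ex u i : ℕ) * co u) := by
  classical
  apply MvPolynomial.ext
  intro m
  rw [coeff_theta, coeff_fam, coeff_fam, Finset.mul_sum]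
  refine Finset.sum_congr rfl fun v _ => ?_
  split_ifs with h
  · rw [h i]
  · rw [mul_zero]

theorem pol_eq (x : List (Option (F ⊕ Bool))) : pol x = fam (nn x) (tT x) (eE x) (cC x) := by
  unfold pol
  apply fam_congr
  · intro u hu i _
    unfold eE
    rw [if_pos hu]
  · intro u hu
    unfold cC
    rw [if_pos hu]

private theorem FamT_digit {T k r u : ℕ} (h : r < k) :
    u % T ^ k / T ^ r % T = u / T ^ r % T := by
  have h1 : T ^ k = T ^ r * T ^ (k - r) := by
    rw [← pow_add, Nat.add_sub_cancel' h.le]
  rw [h1, Nat.mod_mul_right_div_self]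
  exact Nat.mod_mod_of_dvd _ (dvd_pow_self T (by omega))

private theorem FamT_pow (x : List (Option (F ⊕ Bool))) (k : ℕ) :
    pol x ^ k = fam (nn x) (tT x ^ k)
      (fun τ i => ∑ r ∈ Finset.range k, eE x (τ / tT x ^ r % tT x) i)
      (fun τ => ∏ r ∈ Finset.range k, cC x (τ / tT x ^ r % tT x)) := by
  induction k with
  | zero =>
    unfold fam
    simp only [pow_zero, Finset.range_zero, Finset.sum_empty, Finset.prod_empty,
      Finset.sum_range_one]
    have h1 : (Finsupp.equivFunOnFinite.symm fun _ : Fin (nn x) => (0 : ℕ)) = 0 := by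
      ext i
      rfl
    rw [h1]
    rfl
  | succ k ih =>
    rw [pow_succ', ih, pol_eq, fam_mul, pow_succ']
    have hd : ∀ u, u < tT x * tT x ^ k → u / tT x ^ k % tT x = u / tT x ^ k := by
      intro u hu
      apply Nat.mod_eq_of_lt
      have hT : 0 < tT x ^ k := Nat.pos_of_ne_zero (by
        intro h0
        rw [h0, mul_zero] at hu
        exact Nat.not_lt_zero _ hu)
      exact (Nat.div_lt_iff_lt_mul hT).2 hu
    apply fam_congr
    · intro u hu i _
      rw [Finset.sum_range_succ, hd u hu, add_comm]
      congr 1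
      refine Finset.sum_congr rfl fun r hr => ?_
      rw [FamT_digit (Finset.mem_range.1 hr)]
    · intro u hu
      rw [Finset.prod_range_succ, hd u hu, mul_comm]
      congr 1
      refine Finset.prod_congr rfl fun r hr => ?_
      rw [FamT_digit (Finset.mem_range.1 hr)]

/-- More generally, by induction on `k`: `pol x ^ k` is the family with `tT x ^ k` terms, exponents
`∑ r < k, eE (τ / T ^ r % T)`, coefficients `∏ r < k, cC (τ / T ^ r % T)`; `fam_mul` with the first
factor `pol x` (index `u / T ^ k`) and the second `pol x ^ k` (index `u % T ^ k`); the digits `r < k`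
of `u % T ^ k` are those of `u`. -/
theorem pol_pow (p : ℕ) (x : List (Option (F ⊕ Bool))) :
    pol x ^ (p - 1) = fam (nn x) (tT x ^ (p - 1)) (pE p x) (pC p x) :=
  FamT_pow x (p - 1)

end Pool.Agent.SIRP
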