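import Pool.Agent.SIRP.Cols
import Pool.Agent.SIRP.FamT

/-! # The rows of the first kind -/

set_option autoImplicit false

namespace Pool.Agent.SIRP

open Pool.Agent.SIRM MvPolynomial Pool.Agent.SparseIrr

variable {F : Type} [Field F] {p : ℕ} [Fact p.Prime] [Algebra (ZMod p) F] {e : ℕ}

private theorem symm_eq_iff {n : ℕ} (f g : ℕ → ℕ) :
    (Finsupp.equivFunOnFinite.symm (fun i : Fin n => f i)) =
      Finsupp.equivFunOnFinite.symm (fun i : Fin n => g i) ↔ ∀ i', i' < n → f i' = g i' := by
  constructor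
  · intro h i hi
    exact DFunLike.congr_fun h ⟨i, hi⟩
  · intro h
    ext i
    exact h i i.2

open Classical in
private theorem coeff_fam_mul (n N M : ℕ) (ex : ℕ → ℕ → ℕ) (co : ℕ → F) (ex' : ℕ → ℕ → ℕ)
    (co' : ℕ → F) (g : ℕ → ℕ) :
    coeff (Finsupp.equivFunOnFinite.symm fun i : Fin n => g i)
      (fam n N ex co * fam n M ex' co') = ∑ κ ∈ Finset.range M, ∑ τ ∈ Finset.range N,
        if ∀ i', i' < n → ex τ i' + ex' κ i' = g i' then co τ * co' κ else 0 := by
  unfold fam
  rw [Finset.sum_mul_sum, Finset.sum_comm, coeff_sum]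
  refine Finset.sum_congr rfl fun κ _ => ?_
  rw [coeff_sum]
  refine Finset.sum_congr rfl fun τ _ => ?_
  rw [monomial_mul, coeff_monomial]
  have h1 : (Finsupp.equivFunOnFinite.symm fun i : Fin n => ex τ i) +
      (Finsupp.equivFunOnFinite.symm fun i : Fin n => ex' κ i) =
      Finsupp.equivFunOnFinite.symm fun i : Fin n => ex τ i + ex' κ i := by
    ext i
    rfl
  rw [h1]
  have h2 := symm_eq_iff (n := n) (fun i => ex τ i + ex' κ i) g
  exact if_congr h2 rfl rfl

omit [Algebra (ZMod p) F] in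
open Classical in
private theorem coeff_fam_pow [CharP F p] (n N : ℕ) (ex : ℕ → ℕ → ℕ) (co : ℕ → F) (g : ℕ → ℕ) :
    coeff (Finsupp.equivFunOnFinite.symm fun i : Fin n => g i) (fam n N ex co ^ p) =
      ∑ κ ∈ Finset.range N, if ∀ i', i' < n → p * ex κ i' = g i' then co κ ^ p else 0 := by
  have : ExpChar F p := ExpChar.prime Fact.out
  unfold fam
  rw [sum_pow_char, coeff_sum]
  refine Finset.sum_congr rfl fun κ _ => ?_
  rw [monomial_pow, coeff_monomial]
  have h1 : p • (Finsupp.equivFunOnFinite.symm fun i : Fin n => ex κ i) =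
      Finsupp.equivFunOnFinite.symm fun i : Fin n => p * ex κ i := by
    ext i
    rfl
  rw [h1]
  have h2 := symm_eq_iff (n := n) (fun i => p * ex κ i) g
  exact if_congr h2 rfl rfl

/-- `sum_cols` with `y c = yv y c`: only `o = 0`, `i0 = i`, `κ < SS` contribute. On the other side
`U = uP b P x y i` is a family, `U ^ p = ∑ κ, monomial (p • cE κ) ((cy y 0 i κ) ^ p)` and
`(∑ l, a l • bs b l) ^ p = ∑ l, a l • (bs b l) ^ p` (characteristic `p`: `sum_pow_char`,
`add_pow_char`, `ZMod.pow_card`; `CharP F p` by `charP_of_injective_algebraMap`);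
`f ^ (p - 1) * U` by `pol_pow`, `fam_mul`, `coeff_fam`, `coeff_proj`. -/
theorem row0 (b : Module.Basis (Fin e) (ZMod p) F) (P : Polynomial ℕ)
    (x : List (Option (F ⊕ Bool))) (y : Fin (Cn p P e x) → ZMod p) (i : Fin (nn x)) (a b' : ℕ) :
    ∑ c : Fin (Cn p P e x), y c • co0 b P x (cO p P e x c) (cI p P e x c) (cK p P e x c)
      ((c : ℕ) % e) i a b' =
      coeff (gv p P x a b') (uP b P x y i ^ p - proj p i (pol x ^ (p - 1) * uP b P x y i)) := by
  classical
  have hchar : CharP F p := charP_of_injective_algebraMap (algebraMap (ZMod p) F).injective p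
  have hexp : ExpChar F p := ExpChar.prime Fact.out
  -- the left-hand side
  have h1 : ∀ c : Fin (Cn p P e x), y c = yv y c := fun c => by
    rw [yv, dif_pos c.2]
  rw [Finset.sum_congr rfl fun c _ => by rw [h1 c],
    sum_cols p P e x fun c o i0 κ l => yv y c • co0 b P x o i0 κ l i a b', Finset.sum_range_succ,
    Finset.sum_range_one]
  have h2 : ∑ i0 ∈ Finset.range (nn x), ∑ κ ∈ Finset.range (SS p P x + 1), ∑ l ∈ Finset.range e,
      yv y (idx p P e x 1 i0 κ l) • co0 b P x 1 i0 κ l i a b' = 0 := by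
    refine Finset.sum_eq_zero fun i0 _ => Finset.sum_eq_zero fun κ _ =>
      Finset.sum_eq_zero fun l _ => ?_
    rw [co0, if_neg fun h => absurd h.1 one_ne_zero, smul_zero]
  rw [h2, add_zero, Finset.sum_eq_single (i : ℕ)]
  rotate_left
  · intro i0 _ hi0
    refine Finset.sum_eq_zero fun κ _ => Finset.sum_eq_zero fun l _ => ?_
    rw [co0, if_neg fun h => hi0 h.2.1, smul_zero]
  · intro h
    exact absurd (Finset.mem_range.2 i.2) h
  rw [Finset.sum_range_succ]
  have h3 : ∑ l ∈ Finset.range e, yv y (idx p P e x 0 i (SS p P x) l) •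
      co0 b P x 0 i (SS p P x) l i a b' = 0 := by
    refine Finset.sum_eq_zero fun l _ => ?_
    rw [co0, if_neg fun h => absurd h.2.2 (lt_irrefl _), smul_zero]
  rw [h3, add_zero]
  -- the right-hand side
  have hg : gv p P x a b' = Finsupp.equivFunOnFinite.symm fun j : Fin (nn x) =>
      gm p P x a b' j := rfl
  have hgi : gv p P x a b' i = gm p P x a b' i := rfl
  have hpow : ∀ κ, cy b P x y 0 i κ ^ p =
      ∑ l ∈ Finset.range e, yv y (idx p P e x 0 i κ l) • bs b l ^ p := by
    intro κ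
    unfold cy
    rw [sum_pow_char]
    refine Finset.sum_congr rfl fun l _ => ?_
    rw [smul_pow, ZMod.pow_card]
  rw [coeff_sub, coeff_proj, hgi, pol_pow, uP, hg, coeff_fam_pow, coeff_fam_mul]
  have h4 : (if p ∣ gm p P x a b' i then ∑ κ ∈ Finset.range (SS p P x),
      ∑ τ ∈ Finset.range (tT x ^ (p - 1)), (if ∀ i', i' < nn x →
        pE p x τ i' + cE p P x κ i' = gm p P x a b' i' then pC p x τ * cy b P x y 0 i κ else 0)
      else 0) = ∑ κ ∈ Finset.range (SS p P x), if p ∣ gm p P x a b' i then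
      ∑ τ ∈ Finset.range (tT x ^ (p - 1)), (if ∀ i', i' < nn x →
        pE p x τ i' + cE p P x κ i' = gm p P x a b' i' then pC p x τ * cy b P x y 0 i κ else 0)
      else 0 := by
    split_ifs
    · rfl
    · rw [Finset.sum_const_zero]
  rw [h4, ← Finset.sum_sub_distrib]
  refine Finset.sum_congr rfl fun κ hκ => ?_
  rw [Finset.mem_range] at hκ
  have h5 : ∀ l, co0 b P x 0 i κ l i a b' =
      (if ∀ i', i' < nn x → p * cE p P x κ i' = gm p P x a b' i' then bs b l ^ p else 0) -
      (if gm p P x a b' i % p = 0 then ∑ τ ∈ Finset.range (tT x ^ (p - 1)),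
        if ∀ i', i' < nn x → pE p x τ i' + cE p P x κ i' = gm p P x a b' i' then
          pC p x τ * bs b l else 0 else 0) := fun l => by
    rw [co0, if_pos ⟨rfl, rfl, hκ⟩]
  simp only [h5, smul_sub]
  rw [Finset.sum_sub_distrib]
  congr 1
  · split_ifs
    · rw [hpow]
    · simp
  · by_cases hd : p ∣ gm p P x a b' i
    · rw [if_pos hd]
      simp only [if_pos (Nat.mod_eq_zero_of_dvd hd)]
      simp only [Finset.smul_sum]
      rw [Finset.sum_comm]
      refine Finset.sum_congr rfl fun τ _ => ?_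
      split_ifs
      · rw [cy, Finset.mul_sum]
        refine Finset.sum_congr rfl fun l _ => ?_
        rw [mul_smul_comm]
      · simp
    · rw [if_neg hd]
      simp only [if_neg fun h => hd (Nat.dvd_of_mod_eq_zero h), smul_zero]
      rw [Finset.sum_const_zero]

end Pool.Agent.SIRP
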