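import Pool.Agent.SIRP.Cols
import Pool.Agent.SIRP.FamT

/-! # The rows of the second kind -/

set_option autoImplicit false

namespace Pool.Agent.SIRP

open Pool.Agent.SIRM MvPolynomial Pool.Agent.SparseIrr

variable {F : Type} [Field F] {p : ℕ} [Fact p.Prime] [Algebra (ZMod p) F] {e : ℕ}

open Classical in
omit [Fact p.Prime] [Algebra (ZMod p) F] in
private theorem coeff_mul_Row1 (n N M : ℕ) (ex : ℕ → ℕ → ℕ) (co : ℕ → F) (ex' : ℕ → ℕ → ℕ)
    (co' : ℕ → F) (γ : Fin n →₀ ℕ) (g : ℕ → ℕ) (hg : ∀ k : Fin n, γ k = g k) :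
    coeff γ (fam n N ex co * fam n M ex' co') = ∑ v ∈ Finset.range N, ∑ κ ∈ Finset.range M,
      if ∀ k, k < n → ex v k + ex' κ k = g k then co v * co' κ else 0 := by
  unfold fam
  rw [Finset.sum_mul_sum, coeff_sum]
  refine Finset.sum_congr rfl fun v _ => ?_
  rw [coeff_sum]
  refine Finset.sum_congr rfl fun κ _ => ?_
  rw [monomial_mul, coeff_monomial]
  by_cases h : ∀ k, k < n → ex v k + ex' κ k = g k
  · rw [if_pos h, if_pos]
    ext k
    rw [hg k]
    exact h k k.2
  · rw [if_neg h, if_neg]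
    intro h1
    apply h
    intro k hk
    have h2 := DFunLike.congr_fun h1 ⟨k, hk⟩
    rw [hg] at h2
    exact h2

private theorem aux_Row1 (n e : ℕ) (Y : ℕ → ℕ → ZMod p) (B : ℕ → F) (cv A A' : F) (i i' : ℕ)
    (hi : i < n) (hi' : i' < n) :
    ∑ i0 ∈ Finset.range n, ∑ l ∈ Finset.range e,
      Y i0 l • (cv * B l * ((if i0 = i then A' else 0) - (if i0 = i' then A else 0))) =
      cv * ((∑ l ∈ Finset.range e, Y i l • B l) * A' -
        (∑ l ∈ Finset.range e, Y i' l • B l) * A) := by
  have h1 : ∀ i0, ∑ l ∈ Finset.range e,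
      Y i0 l • (cv * B l * ((if i0 = i then A' else 0) - (if i0 = i' then A else 0))) =
      (if i0 = i then cv * (∑ l ∈ Finset.range e, Y i0 l • B l) * A' else 0) -
      (if i0 = i' then cv * (∑ l ∈ Finset.range e, Y i0 l • B l) * A else 0) := by
    intro i0
    have h2 : ∀ D : F, ∑ l ∈ Finset.range e, Y i0 l • (cv * B l * D) =
        cv * (∑ l ∈ Finset.range e, Y i0 l • B l) * D := by
      intro D
      rw [Finset.mul_sum, Finset.sum_mul]
      refine Finset.sum_congr rfl fun l _ => ?_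
      rw [mul_smul_comm, smul_mul_assoc]
    rw [h2]
    split_ifs <;> ring
  rw [Finset.sum_congr rfl fun i0 _ => h1 i0, Finset.sum_sub_distrib, Finset.sum_ite_eq',
    Finset.sum_ite_eq', if_pos (Finset.mem_range.2 hi), if_pos (Finset.mem_range.2 hi')]
  ring

/-- `sum_cols` with `y c = yv y c`: only `o = 0` and `i0 = i` or `i0 = i'`, `κ < SS` contribute. On
the other side `theta_fam`, `fam_mul`, `coeff_fam`; the coefficient of `f θ_i' U_i - U_i θ_i' f` at `γ` is
the sum over `v`, `κ` with `ee v + cE κ = γ` of `cc v * cy y 0 i κ * (cE κ i' - ee v i')`. For `i = i'`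
both sides are zero. -/
theorem row1 (b : Module.Basis (Fin e) (ZMod p) F) (P : Polynomial ℕ)
    (x : List (Option (F ⊕ Bool))) (y : Fin (Cn p P e x) → ZMod p) (i i' : Fin (nn x))
    (a b' : ℕ) :
    ∑ c : Fin (Cn p P e x), y c • co1 b P x (cO p P e x c) (cI p P e x c) (cK p P e x c)
      ((c : ℕ) % e) i i' a b' =
      coeff (gv p P x a b') (pol x * (theta i' (uP b P x y i) - theta i (uP b P x y i')) -
        (uP b P x y i * theta i' (pol x) - uP b P x y i' * theta i (pol x))) := by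
  classical
  have hL : ∑ c : Fin (Cn p P e x), y c • co1 b P x (cO p P e x c) (cI p P e x c)
      (cK p P e x c) ((c : ℕ) % e) i i' a b' =
      ∑ o ∈ Finset.range 2, ∑ i0 ∈ Finset.range (nn x), ∑ κ ∈ Finset.range (SS p P x + 1),
        ∑ l ∈ Finset.range e, yv y (idx p P e x o i0 κ l) • co1 b P x o i0 κ l i i' a b' := by
    rw [← sum_cols p P e x (fun c o i0 κ l => yv y c • co1 b P x o i0 κ l i i' a b')]
    refine Finset.sum_congr rfl fun c _ => ?_
    unfold yv
    rw [dif_pos c.2]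
  have h1 : ∑ i0 ∈ Finset.range (nn x), ∑ κ ∈ Finset.range (SS p P x + 1),
      ∑ l ∈ Finset.range e, yv y (idx p P e x 1 i0 κ l) • co1 b P x 1 i0 κ l i i' a b' = 0 := by
    refine Finset.sum_eq_zero fun i0 _ => Finset.sum_eq_zero fun κ _ =>
      Finset.sum_eq_zero fun l _ => ?_
    unfold co1
    rw [if_neg (by simp), smul_zero]
  rw [hL, Finset.sum_range_succ, Finset.sum_range_one, h1, add_zero, Finset.sum_comm,
    Finset.sum_range_succ]
  have h2 : ∑ i0 ∈ Finset.range (nn x), ∑ l ∈ Finset.range e,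
      yv y (idx p P e x 0 i0 (SS p P x) l) • co1 b P x 0 i0 (SS p P x) l i i' a b' = 0 := by
    refine Finset.sum_eq_zero fun i0 _ => Finset.sum_eq_zero fun l _ => ?_
    unfold co1
    rw [if_neg (by simp), smul_zero]
  rw [h2, add_zero]
  have h3 : ∀ κ ∈ Finset.range (SS p P x), ∑ i0 ∈ Finset.range (nn x), ∑ l ∈ Finset.range e,
      yv y (idx p P e x 0 i0 κ l) • co1 b P x 0 i0 κ l i i' a b' =
      ∑ v ∈ Finset.range (tT x),
        if ∀ k, k < nn x → ee x v k + cE p P x κ k = gm p P x a b' k then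
          cc x v * (cy b P x y 0 i κ * (((cE p P x κ i' : ℕ) : F) - (ee x v i' : ℕ)) -
            cy b P x y 0 i' κ * (((cE p P x κ i : ℕ) : F) - (ee x v i : ℕ))) else 0 := by
    intro κ hκ
    have hκ' := Finset.mem_range.1 hκ
    have h4 : ∀ i0 l, yv y (idx p P e x 0 i0 κ l) • co1 b P x 0 i0 κ l i i' a b' =
        ∑ v ∈ Finset.range (tT x), yv y (idx p P e x 0 i0 κ l) •
          (if ∀ k, k < nn x → ee x v k + cE p P x κ k = gm p P x a b' k then
            cc x v * bs b l * ((if i0 = (i : ℕ) then ((cE p P x κ i' : ℕ) : F) - (ee x v i' : ℕ)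
              else 0) -
              (if i0 = (i' : ℕ) then ((cE p P x κ i : ℕ) : F) - (ee x v i : ℕ) else 0))
            else 0) := by
      intro i0 l
      unfold co1
      rw [if_pos ⟨rfl, hκ'⟩, Finset.smul_sum]
    rw [Finset.sum_congr rfl fun i0 _ => Finset.sum_congr rfl fun l _ => h4 i0 l]
    rw [Finset.sum_congr rfl fun i0 _ => Finset.sum_comm, Finset.sum_comm]
    refine Finset.sum_congr rfl fun v _ => ?_
    by_cases hK : ∀ k, k < nn x → ee x v k + cE p P x κ k = gm p P x a b' k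
    · simp only [if_pos hK]
      exact aux_Row1 (nn x) e (fun i0 l => yv y (idx p P e x 0 i0 κ l)) (bs b) (cc x v) _ _
        i i' i.2 i'.2
    · simp only [if_neg hK, smul_zero, Finset.sum_const_zero]
  rw [Finset.sum_congr rfl h3, Finset.sum_comm]
  have hg : ∀ k : Fin (nn x), gv p P x a b' k = gm p P x a b' k := fun k => rfl
  have hm : ∀ (co co' : ℕ → F), coeff (gv p P x a b')
      (fam (nn x) (tT x) (ee x) co * fam (nn x) (SS p P x) (cE p P x) co') = _ :=
    fun co co' => coeff_mul_Row1 (nn x) (tT x) (SS p P x) (ee x) co (cE p P x) co'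
      (gv p P x a b') (gm p P x a b') hg
  have hf : pol x = fam (nn x) (tT x) (ee x) (cc x) := rfl
  rw [mul_sub, mul_comm (uP b P x y i) (theta i' (pol x)),
    mul_comm (uP b P x y i') (theta i (pol x))]
  unfold uP
  rw [hf, theta_fam, theta_fam, theta_fam, theta_fam, coeff_sub, coeff_sub, coeff_sub, hm, hm,
    hm, hm, ← Finset.sum_sub_distrib, ← Finset.sum_sub_distrib, ← Finset.sum_sub_distrib]
  refine Finset.sum_congr rfl fun v _ => ?_
  rw [← Finset.sum_sub_distrib, ← Finset.sum_sub_distrib, ← Finset.sum_sub_distrib]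
  refine Finset.sum_congr rfl fun κ _ => ?_
  by_cases hK : ∀ k, k < nn x → ee x v k + cE p P x κ k = gm p P x a b' k
  · simp only [if_pos hK]
    ring
  · simp only [if_neg hK, sub_zero]

end Pool.Agent.SIRP
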