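import Pool.Agent.SIRP.Cols
import Pool.Agent.SIRP.FamT

/-! # The rows of the third kind -/

set_option autoImplicit false

namespace Pool.Agent.SIRP

open Pool.Agent.SIRM MvPolynomial Pool.Agent.SparseIrr

variable {F : Type} [Field F] {p : ℕ} [Fact p.Prime] [Algebra (ZMod p) F] {e : ℕ}

omit [Fact p.Prime] [Algebra (ZMod p) F] in
open Classical in
private theorem Row2_coeff (n N M : ℕ) (ex ex' : ℕ → ℕ → ℕ) (co co' : ℕ → F) (f : ℕ → ℕ)
    (m : Fin n →₀ ℕ) (hm : ∀ i : Fin n, m i = f i) :
    coeff m (fam n N ex co * fam n M ex' co') =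
      ∑ v ∈ Finset.range N, ∑ κ ∈ Finset.range M,
        if ∀ k, k < n → ex v k + ex' κ k = f k then co v * co' κ else 0 := by
  unfold fam
  rw [Finset.sum_mul_sum, coeff_sum]
  refine Finset.sum_congr rfl fun v _ => ?_
  rw [coeff_sum]
  refine Finset.sum_congr rfl fun κ _ => ?_
  rw [monomial_mul, coeff_monomial]
  have h : ((Finsupp.equivFunOnFinite.symm fun i : Fin n => ex v i) +
      (Finsupp.equivFunOnFinite.symm fun i : Fin n => ex' κ i) = m) ↔
      ∀ k, k < n → ex v k + ex' κ k = f k := by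
    constructor
    · intro h k hk
      have h2 := DFunLike.congr_fun h ⟨k, hk⟩
      rw [hm] at h2
      exact h2
    · intro h
      ext i
      rw [hm]
      exact h i i.2
  by_cases h1 : ∀ k, k < n → ex v k + ex' κ k = f k
  · rw [if_pos h1, if_pos (h.2 h1)]
  · rw [if_neg h1, if_neg fun h2 => h1 (h.1 h2)]

/-- `sum_cols` with `y c = yv y c`: only `o = 1`, `i0 = i` contribute. On the other side `theta_fam`,
`fam_mul`, `coeff_fam`. -/
theorem row2 (b : Module.Basis (Fin e) (ZMod p) F) (P : Polynomial ℕ)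
    (x : List (Option (F ⊕ Bool))) (y : Fin (Cn p P e x) → ZMod p) (i : Fin (nn x)) (a b' : ℕ) :
    ∑ c : Fin (Cn p P e x), y c • co2 b P x (cO p P e x c) (cI p P e x c) (cK p P e x c)
      ((c : ℕ) % e) i a b' =
      coeff (gv p P x a b') (pol x * wP b P x y i -
        C (cy b P x y 1 i (SS p P x)) * theta i (pol x) ^ 2) := by
  classical
  have hL : ∑ c : Fin (Cn p P e x), y c • co2 b P x (cO p P e x c) (cI p P e x c)
      (cK p P e x c) ((c : ℕ) % e) i a b' =
      ∑ κ ∈ Finset.range (SS p P x + 1), ∑ l ∈ Finset.range e,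
        yv y (idx p P e x 1 i κ l) • co2 b P x 1 i κ l i a b' := by
    have h0 : ∀ c : Fin (Cn p P e x), y c • co2 b P x (cO p P e x c) (cI p P e x c)
        (cK p P e x c) ((c : ℕ) % e) i a b' = yv y c • co2 b P x (cO p P e x c) (cI p P e x c)
        (cK p P e x c) ((c : ℕ) % e) i a b' := by
      intro c
      simp [yv]
    rw [Finset.sum_congr rfl fun c _ => h0 c, sum_cols p P e x
      (fun c o i0 κ l => yv y c • co2 b P x o i0 κ l i a b'), Finset.sum_range_succ,
      Finset.sum_range_one]
    have h1 : ∑ i0 ∈ Finset.range (nn x), ∑ κ ∈ Finset.range (SS p P x + 1),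
        ∑ l ∈ Finset.range e,
          yv y (idx p P e x 0 i0 κ l) • co2 b P x 0 i0 κ l i a b' = 0 := by
      refine Finset.sum_eq_zero fun i0 _ => Finset.sum_eq_zero fun κ _ =>
        Finset.sum_eq_zero fun l _ => ?_
      have : co2 b P x 0 i0 κ l i a b' = 0 := by
        unfold co2
        rw [if_neg]
        rintro ⟨h, -⟩
        exact h rfl
      rw [this, smul_zero]
    rw [h1, zero_add, Finset.sum_eq_single_of_mem (i : ℕ) (Finset.mem_range.2 i.2)]
    intro i0 _ hi0
    refine Finset.sum_eq_zero fun κ _ => Finset.sum_eq_zero fun l _ => ?_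
    have : co2 b P x 1 i0 κ l i a b' = 0 := by
      unfold co2
      rw [if_neg]
      rintro ⟨-, h⟩
      exact hi0 h
    rw [this, smul_zero]
  have hcy : ∀ κ, ∑ l ∈ Finset.range e, algebraMap (ZMod p) F (yv y (idx p P e x 1 i κ l)) *
      bs b l = cy b P x y 1 i κ := by
    intro κ
    unfold cy
    exact Finset.sum_congr rfl fun l _ => (Algebra.smul_def _ _).symm
  have hA : ∀ κ, κ < SS p P x → ∑ l ∈ Finset.range e,
      yv y (idx p P e x 1 i κ l) • co2 b P x 1 i κ l i a b' =
      ∑ v ∈ Finset.range (tT x), if ∀ k, k < nn x → ee x v k + c2E p P x κ k = gm p P x a b' k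
        then cc x v * cy b P x y 1 i κ else 0 := by
    intro κ hκ
    have h1 : ∀ l, co2 b P x 1 i κ l i a b' = (∑ v ∈ Finset.range (tT x),
        if ∀ k, k < nn x → ee x v k + c2E p P x κ k = gm p P x a b' k then cc x v else 0) *
        bs b l := by
      intro l
      unfold co2
      rw [if_pos ⟨one_ne_zero, rfl⟩, if_pos hκ, Finset.sum_mul]
      refine Finset.sum_congr rfl fun v _ => ?_
      rw [ite_mul, zero_mul]
    have hR : (∑ v ∈ Finset.range (tT x), if ∀ k, k < nn x →
        ee x v k + c2E p P x κ k = gm p P x a b' k then cc x v * cy b P x y 1 i κ else 0) =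
        (∑ v ∈ Finset.range (tT x), if ∀ k, k < nn x →
          ee x v k + c2E p P x κ k = gm p P x a b' k then cc x v else 0) *
          cy b P x y 1 i κ := by
      rw [Finset.sum_mul]
      refine Finset.sum_congr rfl fun v _ => ?_
      rw [ite_mul, zero_mul]
    simp only [h1, Algebra.smul_def]
    rw [hR, ← hcy, Finset.mul_sum]
    refine Finset.sum_congr rfl fun l _ => ?_
    ring
  have hB : ∑ l ∈ Finset.range e,
      yv y (idx p P e x 1 i (SS p P x) l) • co2 b P x 1 i (SS p P x) l i a b' =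
      -(cy b P x y 1 i (SS p P x) * ∑ v ∈ Finset.range (tT x), ∑ v' ∈ Finset.range (tT x),
        if ∀ k, k < nn x → ee x v k + ee x v' k = gm p P x a b' k
          then ((ee x v i : ℕ) * cc x v) * ((ee x v' i : ℕ) * cc x v') else 0) := by
    have h1 : ∀ l, co2 b P x 1 i (SS p P x) l i a b' = -((∑ v ∈ Finset.range (tT x),
        ∑ v' ∈ Finset.range (tT x), if ∀ k, k < nn x → ee x v k + ee x v' k = gm p P x a b' k
          then ((ee x v i : ℕ) * cc x v) * ((ee x v' i : ℕ) * cc x v') else 0) * bs b l) := by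
      intro l
      unfold co2
      rw [if_pos ⟨one_ne_zero, rfl⟩, if_neg (lt_irrefl _), Finset.sum_mul]
      refine congrArg Neg.neg (Finset.sum_congr rfl fun v _ => ?_)
      rw [Finset.sum_mul]
      refine Finset.sum_congr rfl fun v' _ => ?_
      split_ifs
      · ring
      · simp
    simp only [h1, Algebra.smul_def]
    rw [← hcy, Finset.sum_mul, ← Finset.sum_neg_distrib]
    refine Finset.sum_congr rfl fun l _ => ?_
    ring
  rw [hL, Finset.sum_range_succ, hB,
    Finset.sum_congr rfl fun κ hκ => hA κ (Finset.mem_range.1 hκ), coeff_sub, coeff_C_mul]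
  have hth : theta i (pol x) = fam (nn x) (tT x) (ee x) (fun u => (ee x u i : ℕ) * cc x u) := by
    unfold pol
    rw [theta_fam]
  have hg : ∀ k : Fin (nn x), gv p P x a b' k = gm p P x a b' k := fun k => rfl
  rw [hth, sq, Row2_coeff _ _ _ _ _ _ _ (gm p P x a b') _ hg]
  unfold pol wP
  rw [Row2_coeff _ _ _ _ _ _ _ (gm p P x a b') _ hg, Finset.sum_comm, sub_eq_add_neg]

end Pool.Agent.SIRP
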