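import Pool.Agent.SIRP.RowsA
import Pool.Agent.SIRP.Row0
import Pool.Agent.SIRP.Row1
import Pool.Agent.SIRP.Row2
import Pool.Agent.SIRP.Cover

/-! # The kernel of the matrix -/

set_option autoImplicit false

namespace Pool.Agent.SIRP

open Pool.Agent.SIRM MvPolynomial Pool.Agent.SparseIrr

variable {F : Type} [Field F] {p : ℕ} [Fact p.Prime] [Algebra (ZMod p) F] {e : ℕ}

private theorem rows_zero_iff {n W : ℕ} (f : MvPolynomial (Fin n) F) (g : ℕ → ℕ → Fin n →₀ ℕ)
    (h : ∀ β ∈ f.support, ∃ a, a < W ∧ ∃ b', b' < W ∧ β = g a b') :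
    f = 0 ↔ ∀ a, a < W → ∀ b', b' < W → coeff (g a b') f = 0 := by
  constructor
  · rintro rfl a _ b' _
    exact coeff_zero _
  · intro h1
    apply MvPolynomial.ext
    intro β
    rw [coeff_zero]
    by_contra h2
    obtain ⟨a, ha, b', hb', rfl⟩ := h β (mem_support_iff.2 h2)
    exact h2 (h1 a ha b' hb')

/-- `rows_iff`, `row0`, `row1`, `row2`; a polynomial whose support is contained in the set of the
`gv a b'` is zero iff its coefficients at these exponents are (`cover0`, `cover1`, `cover2`). -/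
theorem mem_ker_iff (b : Module.Basis (Fin e) (ZMod p) F) (P : Polynomial ℕ)
    (x : List (Option (F ⊕ Bool))) (hn : 0 < nn x) (he : 0 < e)
    (y : Fin (Cn p P e x) → ZMod p) :
    y ∈ PGs.ker (Cn p P e x) (aM b P x) (4 * N0 p P e x) ↔ Zv p P e x y ∧
      (∀ i : Fin (nn x), proj p i (pol x ^ (p - 1) * uP b P x y i) = uP b P x y i ^ p) ∧
      (∀ i i' : Fin (nn x), pol x * (theta i' (uP b P x y i) - theta i (uP b P x y i')) =
        uP b P x y i * theta i' (pol x) - uP b P x y i' * theta i (pol x)) ∧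
      ∀ i : Fin (nn x), pol x * wP b P x y i =
        C (cy b P x y 1 i (SS p P x)) * theta i (pol x) ^ 2 := by
  classical
  haveI : CharP F p := charP_of_injective_algebraMap (algebraMap (ZMod p) F).injective p
  rw [rows_iff b P x hn he y]
  refine and_congr_right fun _ => ?_
  have k0 : ∀ i : Fin (nn x), (proj p i (pol x ^ (p - 1) * uP b P x y i) = uP b P x y i ^ p) ↔
      ∀ a, a < Wn p P x → ∀ b', b' < Wn p P x → coeff (gv p P x a b')
        (uP b P x y i ^ p - proj p i (pol x ^ (p - 1) * uP b P x y i)) = 0 := by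
    intro i
    have h1 := rows_zero_iff _ (gv p P x) (cover0 p P x (fun κ => cy b P x y 0 i κ) i)
    rw [sub_eq_zero] at h1
    exact eq_comm.trans h1
  have k1 : ∀ i i' : Fin (nn x),
      (pol x * (theta i' (uP b P x y i) - theta i (uP b P x y i')) =
        uP b P x y i * theta i' (pol x) - uP b P x y i' * theta i (pol x)) ↔
      ∀ a, a < Wn p P x → ∀ b', b' < Wn p P x → coeff (gv p P x a b')
        (pol x * (theta i' (uP b P x y i) - theta i (uP b P x y i')) -
        (uP b P x y i * theta i' (pol x) - uP b P x y i' * theta i (pol x))) = 0 := by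
    intro i i'
    have h1 := rows_zero_iff _ (gv p P x) (cover1 p P x (fun κ => cy b P x y 0 i κ)
      (fun κ => cy b P x y 0 i' κ) i i')
    rw [sub_eq_zero] at h1
    exact h1
  have k2 : ∀ i : Fin (nn x), (pol x * wP b P x y i =
        C (cy b P x y 1 i (SS p P x)) * theta i (pol x) ^ 2) ↔
      ∀ a, a < Wn p P x → ∀ b', b' < Wn p P x → coeff (gv p P x a b')
        (pol x * wP b P x y i - C (cy b P x y 1 i (SS p P x)) * theta i (pol x) ^ 2) = 0 := by
    intro i
    have h1 := rows_zero_iff _ (gv p P x) (cover2 p P x (fun κ => cy b P x y 1 i κ)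
      (cy b P x y 1 i (SS p P x)) i)
    rw [sub_eq_zero] at h1
    exact h1
  constructor
  · intro h
    refine ⟨fun i => (k0 i).2 fun a ha b' hb' => ?_, fun i i' => (k1 i i').2 fun a ha b' hb' => ?_,
      fun i => (k2 i).2 fun a ha b' hb' => ?_⟩
    · rw [← row0]
      exact (h i i.2 i i.2 a ha b' hb').1
    · rw [← row1]
      exact (h i i.2 i' i'.2 a ha b' hb').2.1
    · rw [← row2]
      exact (h i i.2 i i.2 a ha b' hb').2.2
  · rintro ⟨h0, h1, h2⟩ i hi i' hi' a ha b' hb'
    refine ⟨?_, ?_, ?_⟩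
    · have h3 := (k0 ⟨i, hi⟩).1 (h0 ⟨i, hi⟩) a ha b' hb'
      rw [← row0] at h3
      exact h3
    · have h3 := (k1 ⟨i, hi⟩ ⟨i', hi'⟩).1 (h1 ⟨i, hi⟩ ⟨i', hi'⟩) a ha b' hb'
      rw [← row1] at h3
      exact h3
    · have h3 := (k2 ⟨i, hi⟩).1 (h2 ⟨i, hi⟩) a ha b' hb'
      rw [← row2] at h3
      exact h3

end Pool.Agent.SIRP
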