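import Pool.Agent.SIRP.TriS
import Pool.Agent.SIRP.Rows
import Pool.Agent.SIRP.ParL
import Pool.Agent.SIRP.ParE
import Pool.Agent.SIRP.CandC

/-! # The dimension of the kernel and the criterion -/

set_option autoImplicit false

namespace Pool.Agent.SIRP

open Pool.Agent.SIRM MvPolynomial Pool.Agent.SparseIrr

variable {F : Type} [Field F] {p : ℕ} [Fact p.Prime] [Algebra (ZMod p) F] {e : ℕ}

/-- The solutions: vectors of the kernel correspond to the pairs of a solution of `SysU` and a
solution of `SysW` (`mem_ker_iff`, `uP_totalDegree`, `wP_inactive`, supports by `support_fam_sub`;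
`exists_y`). -/
theorem ker_sys (b : Module.Basis (Fin e) (ZMod p) F) (P : Polynomial ℕ)
    (x : List (Option (F ⊕ Bool))) (hx : Good x) (he : 0 < e) :
    (∀ y ∈ PGs.ker (Cn p P e x) (aM b P x) (4 * N0 p P e x),
      SysU p P x (fun i => uP b P x y i) ∧
      SysW p P x (fun i => wP b P x y i) (fun i => cy b P x y 1 i (SS p P x))) ∧
    ∀ u w v, SysU p P x u → SysW p P x w v →
      ∃ y ∈ PGs.ker (Cn p P e x) (aM b P x) (4 * N0 p P e x),
        (∀ i : Fin (nn x), uP b P x y i = u i) ∧ (∀ i : Fin (nn x), wP b P x y i = w i) ∧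
        ∀ i : Fin (nn x), cy b P x y 1 i (SS p P x) = v i := by
  have hn : 0 < nn x := hx.2.1
  constructor
  · intro y hy
    obtain ⟨hZ, h1, h2, h3⟩ := (mem_ker_iff b P x hn he y).1 hy
    refine ⟨⟨fun i => support_fam_sub _ _ _ _, fun i => uP_totalDegree b P x hx y hZ i, h1,
      fun i j => h2 i j⟩, fun i => support_fam_sub _ _ _ _, fun i hi => wP_inactive b P x y hZ i hi,
      h3⟩
  · intro u w v hu hw
    obtain ⟨y, hZ, h1, h2, h3⟩ := exists_y b P x hx u w v hu.1 hu.2.1 hw.1 hw.2.1
    refine ⟨y, (mem_ker_iff b P x hn he y).2 ⟨hZ, fun i => ?_, fun i i' => ?_, fun i => ?_⟩, h1, h2,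
      h3⟩
    · rw [h1 i]
      exact hu.2.2.1 i
    · rw [h1 i, h1 i']
      exact hu.2.2.2 i i'
    · rw [h2 i, h3 i]
      exact hw.2.2 i

omit [Fact p.Prime] [Algebra (ZMod p) F] in
private theorem pol_ne_zero_Dim (x : List (Option (F ⊕ Bool))) (hx : Good x) : pol x ≠ 0 := by
  intro h
  have h1 := (support_fam (nn x) (tT x) (ee x) (cc x) hx.2.2.2.1 hx.2.2.2.2).1
  have h2 : (pol x).support.card = tT x := h1
  rw [h, support_zero, Finset.card_empty] at h2
  exact absurd h2.symm hx.1.ne'

/-- There is a nonzero solution of `SysW` iff `f` divides `(θ_i f) ^ 2` for some active `i`: for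
`f w = v (θ_i f) ^ 2` with `v = 0` also `w = 0`; the support of the quotient by `quot_support`; for
active `i` the polynomial `θ_i f` is not zero (`act_iff`). -/
theorem sysW_iff (P : Polynomial ℕ) (x : List (Option (F ⊕ Bool))) (hx : Good x)
    (hB : Big p P x) : (∀ w v, SysW p P x w v → w = 0 ∧ v = 0) ↔
      ∀ i : Fin (nn x), act p x i → ¬ pol x ∣ theta i (pol x) ^ 2 := by
  classical
  have : CharP F p := charP_of_injective_algebraMap (algebraMap (ZMod p) F).injective p
  have h0 : pol x ≠ 0 := pol_ne_zero_Dim x hx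
  constructor
  · rintro h i hi ⟨w0, hw0⟩
    have h1 := h (fun j => if j = i then w0 else 0) (fun j => if j = i then 1 else 0) ?_
    · have h2 := congrFun h1.2 i
      rw [if_pos rfl] at h2
      exact one_ne_zero h2
    · refine ⟨fun j β hβ => ?_, fun j hj => ?_, fun j => ?_⟩
      · beta_reduce at hβ
        by_cases hji : j = i
        · rw [if_pos hji] at hβ
          refine quot_support p P x hx hB i w0 1 ?_ β hβ
          rw [C_1, one_mul, ← hw0]
        · rw [if_neg hji, support_zero] at hβ
          exact absurd hβ (Finset.notMem_empty β)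
      · have hji : j ≠ i := fun hji => hj (hji ▸ hi)
        exact ⟨if_neg hji, if_neg hji⟩
      · beta_reduce
        by_cases hji : j = i
        · rw [if_pos hji, if_pos hji, C_1, one_mul, ← hw0, hji]
        · rw [if_neg hji, if_neg hji, C_0, mul_zero, zero_mul]
  · intro h w v hs
    have h1 : ∀ i, v i = 0 := by
      intro i
      by_cases hi : act p x i
      · by_contra hv
        apply h i hi
        refine ⟨C (v i)⁻¹ * w i, ?_⟩
        rw [mul_left_comm, hs.2.2 i, ← mul_assoc, ← C_mul, inv_mul_cancel₀ hv, C_1, one_mul]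
      · exact (hs.2.1 i hi).2
    refine ⟨funext fun i => ?_, funext h1⟩
    have h2 := hs.2.2 i
    rw [h1 i, C_0, zero_mul] at h2
    exact (mul_eq_zero.1 h2).resolve_left h0

/-- **The dimension of the kernel.** The map `y ↦ ((uP y), (wP y), (cy y))` is linear and injective on
the kernel (`uP_add`, `uP_smul`, ..., `y_zero` with `Zv` from `mem_ker_iff`). The vectors of the kernel
with `uP y` in the range of `triL` and `wP y = 0`, `cy y = 0` form a subspace `T` of the kernel,
isomorphic to the range of `triL` (`sysU_triL`, `ker_sys`), so of dimension `dT p x` (`finrank_triL`). So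
the dimension of the kernel is `dT p x` iff `T` is the kernel
(`Submodule.eq_of_le_of_finrank_le`), that is iff all solutions of `SysU` are trivial (`triv_iff`) and all
solutions of `SysW` are zero (`sysW_iff`). -/
theorem finrank_ker (b : Module.Basis (Fin e) (ZMod p) F) (P : Polynomial ℕ)
    (x : List (Option (F ⊕ Bool))) (hx : Good x) (hB : Big p P x) (he : 0 < e) :
    Module.finrank (ZMod p) (PGs.ker (Cn p P e x) (aM b P x) (4 * N0 p P e x)) = dT p x ↔
      (∀ i : Fin (nn x), act p x i → ¬ pol x ∣ theta i (pol x) ^ 2) ∧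
      ∀ u, SysU p P x u → Triv (pol x) u := by
  classical
  have hn : 0 < nn x := hx.2.1
  obtain ⟨hk1, hk2⟩ := ker_sys b P x hx he
  set K := PGs.ker (Cn p P e x) (aM b P x) (4 * N0 p P e x) with hK
  have hW0 : SysW p P x 0 0 := by
    refine ⟨fun j β hβ => ?_, fun j _ => ⟨rfl, rfl⟩, fun j => ?_⟩
    · rw [Pi.zero_apply, support_zero] at hβ
      exact absurd hβ (Finset.notMem_empty β)
    · rw [Pi.zero_apply, Pi.zero_apply, C_0, mul_zero, zero_mul]
  have hU0 : SysU p P x 0 := by
    have h1 := sysU_triL P x hx hB (0 : ZMod p × (Fin (nn x) → ZMod p))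
    rwa [map_zero] at h1
  -- the linear map to the tuple of polynomials
  let uL : (Fin (Cn p P e x) → ZMod p) →ₗ[ZMod p] (Fin (nn x) → MvPolynomial (Fin (nn x)) F) :=
    { toFun := fun y i => uP b P x y i
      map_add' := fun y z => funext fun i => uP_add b P x y z i
      map_smul' := fun c y => funext fun i => uP_smul b P x c y i }
  let T : Submodule (ZMod p) (Fin (Cn p P e x) → ZMod p) :=
    { carrier := {y | y ∈ K ∧ uL y ∈ LinearMap.range (triL p x) ∧
        (∀ i : Fin (nn x), wP b P x y i = 0) ∧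
        ∀ i : Fin (nn x), cy b P x y 1 i (SS p P x) = 0}
      add_mem' := by
        rintro y z ⟨h1, h2, h3, h4⟩ ⟨g1, g2, g3, g4⟩
        refine ⟨K.add_mem h1 g1, ?_, fun i => ?_, fun i => ?_⟩
        · rw [map_add]
          exact Submodule.add_mem _ h2 g2
        · rw [wP_add, h3 i, g3 i, add_zero]
        · rw [cy_add, h4 i, g4 i, add_zero]
      zero_mem' := by
        refine ⟨K.zero_mem, ?_, fun i => ?_, fun i => ?_⟩
        · rw [map_zero]
          exact Submodule.zero_mem _
        · have h := wP_smul b P x (0 : ZMod p) (0 : Fin (Cn p P e x) → ZMod p) i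
          rwa [zero_smul, zero_smul] at h
        · have h := cy_smul b P x (0 : ZMod p) (0 : Fin (Cn p P e x) → ZMod p) 1 i (SS p P x)
          rwa [zero_smul, zero_smul] at h
      smul_mem' := by
        rintro c y ⟨h1, h2, h3, h4⟩
        refine ⟨K.smul_mem c h1, ?_, fun i => ?_, fun i => ?_⟩
        · rw [map_smul]
          exact Submodule.smul_mem _ c h2
        · rw [wP_smul, h3 i, smul_zero]
        · rw [cy_smul, h4 i, smul_zero] }
  have hTK : T ≤ K := fun y hy => hy.1
  -- `T` is isomorphic to the range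
  let φ : T →ₗ[ZMod p] LinearMap.range (triL p x) :=
    (uL.comp T.subtype).codRestrict _ fun y => y.2.2.1
  have hφ1 : Function.Injective φ := by
    rw [← LinearMap.ker_eq_bot, LinearMap.ker_eq_bot']
    rintro ⟨y, hy⟩ h
    have h1 : uL y = 0 := congrArg Subtype.val h
    have h2 : y = 0 := y_zero b P x y ((mem_ker_iff b P x hn he y).1 hy.1).1
      (fun i => congrFun h1 i) hy.2.2.1 hy.2.2.2
    exact Subtype.ext h2
  have hφ2 : Function.Surjective φ := by
    rintro ⟨u, cd, rfl⟩
    obtain ⟨y, hy, h1, h2, h3⟩ := hk2 (triL p x cd) 0 0 (sysU_triL P x hx hB cd) hW0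
    have h4 : uL y = triL p x cd := funext h1
    refine ⟨⟨y, hy, ⟨cd, h4.symm⟩, h2, h3⟩, Subtype.ext ?_⟩
    exact h4
  have hT : Module.finrank (ZMod p) T = dT p x := by
    rw [← finrank_triL x hx]
    exact (LinearEquiv.ofBijective φ ⟨hφ1, hφ2⟩).finrank_eq
  have hiff : Module.finrank (ZMod p) K = dT p x ↔ T = K := by
    constructor
    · intro h
      exact Submodule.eq_of_le_of_finrank_eq hTK (by rw [hT, h])
    · intro h
      rw [← h, hT]
  rw [hiff, ← sysW_iff P x hx hB]
  constructor
  · intro h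
    refine ⟨fun w v hs => ?_, fun u hu => ?_⟩
    · obtain ⟨y, hy, _, h2, h3⟩ := hk2 0 w v hU0 hs
      rw [← h] at hy
      exact ⟨funext fun i => by rw [← h2 i, hy.2.2.1 i]; rfl,
        funext fun i => by rw [← h3 i, hy.2.2.2 i]; rfl⟩
    · obtain ⟨y, hy, h1, _, _⟩ := hk2 u 0 0 hu hW0
      rw [← h] at hy
      have h4 : uL y = u := funext h1
      obtain ⟨cd, hcd⟩ := hy.2.1
      exact (triv_iff x u).2 ⟨cd, hcd.trans h4⟩
  · rintro ⟨hw, hu⟩
    refine le_antisymm hTK fun y hy => ?_
    obtain ⟨h1, h2⟩ := hk1 y hy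
    obtain ⟨h3, h4⟩ := hw _ _ h2
    exact ⟨hy, (triv_iff x _).1 (hu _ h1), fun i => congrFun h3 i, fun i => congrFun h4 i⟩

end Pool.Agent.SIRP
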