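import Pool.Agent.SIRP.Defs
import Pool.Agent.SIRM.ReadU

/-! # The exponents are denoted by terms -/

set_option autoImplicit false

namespace Pool.Agent.SIRP

open Pool.Agent.PT Pool.Agent.Book19 Pool.Agent.SIRM

variable {F : Type} [Field F] [Fintype F]

private theorem ExpU_ee {g h : List (Option (F ⊕ Bool)) → List Bool → (ℕ → ℕ) → ℕ}
    (hg : UF2 g) (hh : UF2 h) :
    UF2 fun (x : List (Option (F ⊕ Bool))) w e => ee x (g x w e) (h x w e) :=
  UF2.comp₂ (f := fun (x : List (Option (F ⊕ Bool))) _ a b => ee x a b) uf_ee hg hh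

/-- `UF2.sum`, `UF2.ite`, `UP2.bex`, `uf_tT`, `uf_nn`, `uf_ee`. -/
theorem uf_dd : UF2 fun (x : List (Option (F ⊕ Bool))) _ _ => dd x := by
  classical
  have h1 : UP2 fun (x : List (Option (F ⊕ Bool))) _ e =>
      ∃ u, u < tT x ∧ ∃ i, i < nn x ∧ e 0 < ee x u i := by
    refine UP2.bex (P := fun x _ e u => ∃ i, i < nn x ∧ e 0 < ee x u i) uf_tT ?_
    refine UP2.bex (P := fun x _ e i => e 1 < ee x (e 0) i) uf_nn ?_
    exact UP2.lt (UF2.var 2) (ExpU_ee (UF2.var 1) (UF2.var 0))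
  refine (UF2.sum (b := fun (x : List (Option (F ⊕ Bool))) _ _ => x.length)
    (f := fun x _ _ q => if ∃ u, u < tT x ∧ ∃ i, i < nn x ∧ q < ee x u i then 1 else 0) UF2.len
    (UF2.ite h1 (UF2.const 1) (UF2.const 0))).congr fun x w e => ?_
  unfold dd
  refine Finset.sum_congr rfl fun q _ => ?_
  congr

theorem uf_mm (p : ℕ) (hp : p.Prime) : UF2 fun (x : List (Option (F ⊕ Bool))) _ _ => mm p x := by
  exact (uf2_logp p hp uf_dd).add (UF2.const 1)

theorem uf_tt : UF2 fun (x : List (Option (F ⊕ Bool))) _ _ => tt x := by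
  exact (UF2.log uf_tT).add (UF2.const 1)

omit [Field F] in
private theorem ExpU_two (P : Polynomial ℕ)
    {g : List (Option (F ⊕ Bool)) → List Bool → (ℕ → ℕ) → ℕ} (hg : UF2 g) :
    UF2 fun (x : List (Option (F ⊕ Bool))) w e => two P x (g x w e) :=
  uf2_pw 2 Nat.prime_two (UF2.poly P UF2.len) hg

omit [Field F] in
private theorem ExpU_pwx (p : ℕ) (hp : p.Prime)
    {g : List (Option (F ⊕ Bool)) → List Bool → (ℕ → ℕ) → ℕ} (hg : UF2 g) :
    UF2 fun (x : List (Option (F ⊕ Bool))) w e => pwx p x (g x w e) :=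
  uf2_pw p hp ((UF2.const p).mul (UF2.len.add (UF2.const 1))) hg

theorem uf_SS (p : ℕ) (hp : p.Prime) (P : Polynomial ℕ) :
    UF2 fun (x : List (Option (F ⊕ Bool))) _ _ => SS p P x := by
  exact ExpU_two P (uf_tt.mul (((UF2.const (p - 1)).mul (uf_mm p hp)).add (UF2.const 2)))

theorem uf_Wn (p : ℕ) (hp : p.Prime) (P : Polynomial ℕ) :
    UF2 fun (x : List (Option (F ⊕ Bool))) _ _ => Wn p P x := by
  have h1 : UF2 fun (x : List (Option (F ⊕ Bool))) _ _ => tT x ^ (p - 1) :=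
    (UF2.poly (Polynomial.X ^ (p - 1)) uf_tT).congr fun x w e => by simp
  exact (UF2.const 5).mul ((uf_tT.add (uf_SS p hp P)).add h1)

/-- In the variables `e 0`, `e 1`. -/
theorem uf_dg (P : Polynomial ℕ) :
    UF2 fun (x : List (Option (F ⊕ Bool))) _ e => dg P x (e 0) (e 1) := by
  exact ((UF2.var 0).div (ExpU_two P (uf_tt.mul (UF2.var 1)))).mod (ExpU_two P uf_tt)

theorem uf_eE : UF2 fun (x : List (Option (F ⊕ Bool))) _ e => eE x (e 0) (e 1) := by
  exact UF2.ite (UP2.lt (UF2.var 0) uf_tT) uf_ee (UF2.const 0)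

private theorem ExpU_dg (P : Polynomial ℕ)
    {g h : List (Option (F ⊕ Bool)) → List Bool → (ℕ → ℕ) → ℕ} (hg : UF2 g) (hh : UF2 h) :
    UF2 fun (x : List (Option (F ⊕ Bool))) w e => dg P x (g x w e) (h x w e) :=
  UF2.comp₂ (f := fun (x : List (Option (F ⊕ Bool))) _ a b => dg P x a b) (uf_dg P) hg hh

private theorem ExpU_eE {g h : List (Option (F ⊕ Bool)) → List Bool → (ℕ → ℕ) → ℕ}
    (hg : UF2 g) (hh : UF2 h) :
    UF2 fun (x : List (Option (F ⊕ Bool))) w e => eE x (g x w e) (h x w e) :=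
  UF2.comp₂ (f := fun (x : List (Option (F ⊕ Bool))) _ a b => eE x a b) uf_eE hg hh

theorem uf_cE (p : ℕ) (hp : p.Prime) (P : Polynomial ℕ) :
    UF2 fun (x : List (Option (F ⊕ Bool))) _ e => cE p P x (e 0) (e 1) := by
  have h0 := ExpU_pwx (F := F) p hp (uf_mm p hp)
  have h1 : UF2 fun (x : List (Option (F ⊕ Bool))) _ e =>
      ∑ r ∈ Finset.range ((p - 1) * mm p x),
        pwx p x (r / (p - 1)) * eE x (dg P x (e 0) r) (e 1) := by
    refine UF2.sum (b := fun (x : List (Option (F ⊕ Bool))) _ _ => (p - 1) * mm p x)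
      (f := fun x _ e r => pwx p x (r / (p - 1)) * eE x (dg P x (e 0) r) (e 1))
      ((UF2.const (p - 1)).mul (uf_mm p hp)) ?_
    exact (ExpU_pwx p hp ((UF2.var 0).div (UF2.const (p - 1)))).mul
      (ExpU_eE (ExpU_dg P (UF2.var 1) (UF2.var 0)) (UF2.var 2))
  exact (h1.add (h0.sub (UF2.const 1))).div h0

theorem uf_c2E (p : ℕ) (hp : p.Prime) (P : Polynomial ℕ) :
    UF2 fun (x : List (Option (F ⊕ Bool))) _ e => c2E p P x (e 0) (e 1) := by
  have h0 := ExpU_pwx (F := F) p hp (uf_mm p hp)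
  have h1 : UF2 fun (x : List (Option (F ⊕ Bool))) _ e =>
      ∑ r ∈ Finset.range ((p - 1) * mm p x),
        pwx p x (r / (p - 1)) * eE x (dg P x (e 0) (r + 2)) (e 1) := by
    refine UF2.sum (b := fun (x : List (Option (F ⊕ Bool))) _ _ => (p - 1) * mm p x)
      (f := fun x _ e r => pwx p x (r / (p - 1)) * eE x (dg P x (e 0) (r + 2)) (e 1))
      ((UF2.const (p - 1)).mul (uf_mm p hp)) ?_
    exact (ExpU_pwx p hp ((UF2.var 0).div (UF2.const (p - 1)))).mul
      (ExpU_eE (ExpU_dg P (UF2.var 1) ((UF2.var 0).add (UF2.const 2))) (UF2.var 2))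
  exact (((ExpU_eE (ExpU_dg P (UF2.var 0) (UF2.const 0)) (UF2.var 1)).add
    (ExpU_eE (ExpU_dg P (UF2.var 0) (UF2.const 1)) (UF2.var 1))).add h1).mod h0

end Pool.Agent.SIRP
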