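import Pool.Agent.SIRP.ExpU

/-! # The powers and the list of exponents are denoted by terms -/

set_option autoImplicit false

namespace Pool.Agent.SIRP

open Pool.Agent.PT Pool.Agent.Book19 Pool.Agent.SIRM

variable {F : Type} [Field F] [Fintype F]

private theorem sumC_ExpV {Γ : Type} (N : ℕ) {f : ℕ → List Γ → List Bool → (ℕ → ℕ) → ℕ}
    (hf : ∀ r, UF2 (f r)) : UF2 fun x w e => ∑ r ∈ Finset.range N, f r x w e := by
  induction N with
  | zero => exact (UF2.const 0).congr fun x w e => by simp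
  | succ N ih => exact (ih.add (hf N)).congr fun x w e => (Finset.sum_range_succ _ _).symm

private theorem prodC_ExpV {Γ : Type} (N : ℕ) {f : ℕ → List Γ → List Bool → (ℕ → ℕ) → F}
    (hf : ∀ r, UV (f r)) : UV fun x w e => ∏ r ∈ Finset.range N, f r x w e := by
  induction N with
  | zero => exact (UV.const 1).congr fun x w e => by simp
  | succ N ih =>
    exact (UV.map₂ (fun a b : F => a * b) ih (hf N)).congr fun x w e =>
      (Finset.prod_range_succ _ _).symm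

private theorem pow_ExpV (r : ℕ) :
    UF2 fun (x : List (Option (F ⊕ Bool))) _ _ => tT x ^ r := by
  induction r with
  | zero => exact (UF2.const 1).congr fun x w e => by simp
  | succ N ih => exact (ih.mul uf_tT).congr fun x w e => (pow_succ _ _).symm

private theorem eE_ExpV {g h : List (Option (F ⊕ Bool)) → List Bool → (ℕ → ℕ) → ℕ}
    (hg : UF2 g) (hh : UF2 h) :
    UF2 fun (x : List (Option (F ⊕ Bool))) w e => eE x (g x w e) (h x w e) :=
  UF2.comp₂ (f := fun (x : List (Option (F ⊕ Bool))) _ a b => eE x a b) uf_eE hg hh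

private theorem ee_ExpV {g h : List (Option (F ⊕ Bool)) → List Bool → (ℕ → ℕ) → ℕ}
    (hg : UF2 g) (hh : UF2 h) :
    UF2 fun (x : List (Option (F ⊕ Bool))) w e => ee x (g x w e) (h x w e) :=
  UF2.comp₂ (f := fun (x : List (Option (F ⊕ Bool))) _ a b => ee x a b) uf_ee hg hh

private theorem cE_ExpV (p : ℕ) (hp : p.Prime) (P : Polynomial ℕ)
    {g h : List (Option (F ⊕ Bool)) → List Bool → (ℕ → ℕ) → ℕ} (hg : UF2 g) (hh : UF2 h) :
    UF2 fun (x : List (Option (F ⊕ Bool))) w e => cE p P x (g x w e) (h x w e) :=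
  UF2.comp₂ (f := fun (x : List (Option (F ⊕ Bool))) _ a b => cE p P x a b) (uf_cE p hp P) hg hh

private theorem c2E_ExpV (p : ℕ) (hp : p.Prime) (P : Polynomial ℕ)
    {g h : List (Option (F ⊕ Bool)) → List Bool → (ℕ → ℕ) → ℕ} (hg : UF2 g) (hh : UF2 h) :
    UF2 fun (x : List (Option (F ⊕ Bool))) w e => c2E p P x (g x w e) (h x w e) :=
  UF2.comp₂ (f := fun (x : List (Option (F ⊕ Bool))) _ a b => c2E p P x a b)
    (uf_c2E p hp P) hg hh

private theorem cC_ExpV {g : List (Option (F ⊕ Bool)) → List Bool → (ℕ → ℕ) → ℕ}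
    (hg : UF2 g) : UV fun (x : List (Option (F ⊕ Bool))) w e => cC x (g x w e) :=
  UV.ite (UP2.lt hg uf_tT)
    (UV.comp₁ (f := fun (x : List (Option (F ⊕ Bool))) _ k => cc x k) uv_cc hg) (UV.const 0)

private theorem dig_ExpV (r : ℕ) {g : List (Option (F ⊕ Bool)) → List Bool → (ℕ → ℕ) → ℕ}
    (hg : UF2 g) : UF2 fun (x : List (Option (F ⊕ Bool))) w e =>
      g x w e / tT x ^ r % tT x :=
  (hg.div (pow_ExpV r)).mod uf_tT

/-- A sum over `Finset.range (p - 1)` with a constant number of terms: induction on the number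
(`Finset.sum_range_succ`); `tT x ^ r` for a constant `r` by `UF2.mul`. -/
theorem uf_pE (p : ℕ) :
    UF2 fun (x : List (Option (F ⊕ Bool))) _ e => pE p x (e 0) (e 1) :=
  sumC_ExpV (p - 1) fun r => eE_ExpV (dig_ExpV r (UF2.var 0)) (UF2.var 1)

/-- As `uf_pE`, with `UV.map₂` and `uv_cc`. -/
theorem uv_pC (p : ℕ) : UV fun (x : List (Option (F ⊕ Bool))) _ e => pC p x (e 0) :=
  prodC_ExpV (p - 1) fun r => cC_ExpV (dig_ExpV r (UF2.var 0))

private theorem pE_ExpV (p : ℕ)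
    {g h : List (Option (F ⊕ Bool)) → List Bool → (ℕ → ℕ) → ℕ} (hg : UF2 g) (hh : UF2 h) :
    UF2 fun (x : List (Option (F ⊕ Bool))) w e => pE p x (g x w e) (h x w e) :=
  UF2.comp₂ (f := fun (x : List (Option (F ⊕ Bool))) _ a b => pE p x a b) (uf_pE p) hg hh

theorem uf_WE (p : ℕ) (hp : p.Prime) (P : Polynomial ℕ) :
    UF2 fun (x : List (Option (F ⊕ Bool))) _ e => WE p P x (e 0) (e 1) := by
  have hm : ∀ k : ℕ, UP2 fun (x : List (Option (F ⊕ Bool))) _ e => e 0 % 5 = k := fun k =>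
    UP2.eq ((UF2.var 0).mod (UF2.const 5)) (UF2.const k)
  have hd : UF2 fun (x : List (Option (F ⊕ Bool))) _ e => e 0 / 5 :=
    (UF2.var 0).div (UF2.const 5)
  exact UF2.ite (hm 0) (eE_ExpV hd (UF2.var 1)) (UF2.ite (hm 1) (cE_ExpV p hp P hd (UF2.var 1))
    (UF2.ite (hm 2) (c2E_ExpV p hp P hd (UF2.var 1)) (UF2.ite (hm 3)
      (pE_ExpV p hd (UF2.var 1)) ((UF2.const (p - 1)).mul (cE_ExpV p hp P hd (UF2.var 1))))))

private theorem WE_ExpV (p : ℕ) (hp : p.Prime) (P : Polynomial ℕ)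
    {g h : List (Option (F ⊕ Bool)) → List Bool → (ℕ → ℕ) → ℕ} (hg : UF2 g) (hh : UF2 h) :
    UF2 fun (x : List (Option (F ⊕ Bool))) w e => WE p P x (g x w e) (h x w e) :=
  UF2.comp₂ (f := fun (x : List (Option (F ⊕ Bool))) _ a b => WE p P x a b) (uf_WE p hp P) hg hh

/-- In the variables `a = e 0`, `b = e 1`, `i = e 2`. -/
theorem uf_gm (p : ℕ) (hp : p.Prime) (P : Polynomial ℕ) :
    UF2 fun (x : List (Option (F ⊕ Bool))) _ e => gm p P x (e 0) (e 1) (e 2) :=
  (WE_ExpV p hp P (UF2.var 0) (UF2.var 2)).add (WE_ExpV p hp P (UF2.var 1) (UF2.var 2))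

theorem up_act (p : ℕ) : UP2 fun (x : List (Option (F ⊕ Bool))) _ e => act p x (e 0) := by
  refine UP2.bex (P := fun x _ e u => ∃ v, v < tT x ∧ ee x u (e 0) % p ≠ ee x v (e 0) % p)
    uf_tT ?_
  refine UP2.bex (P := fun x _ e v => ee x (e 0) (e 1) % p ≠ ee x v (e 1) % p) uf_tT ?_
  exact (UP2.eq ((ee_ExpV (UF2.var 1) (UF2.var 2)).mod (UF2.const p))
    ((ee_ExpV (UF2.var 0) (UF2.var 2)).mod (UF2.const p))).not

/-- In the variables `o = e 0`, `i = e 1`, `κ = e 2`. -/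
theorem up_valid (p : ℕ) (hp : p.Prime) (P : Polynomial ℕ) :
    UP2 fun (x : List (Option (F ⊕ Bool))) _ e => valid p P x (e 0) (e 1) (e 2) := by
  have hS := uf_SS (F := F) p hp P
  have h1 : UP2 fun (x : List (Option (F ⊕ Bool))) _ e => ∀ κ', κ' < e 2 →
      ∃ i', i' < nn x ∧ cE p P x κ' i' ≠ cE p P x (e 2) i' := by
    refine UP2.ball (P := fun x _ e κ' => ∃ i', i' < nn x ∧
      cE p P x κ' i' ≠ cE p P x (e 2) i') (UF2.var 2) ?_
    refine UP2.bex (P := fun x _ e i' => cE p P x (e 0) i' ≠ cE p P x (e 3) i') uf_nn ?_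
    exact (UP2.eq (cE_ExpV p hp P (UF2.var 1) (UF2.var 0))
      (cE_ExpV p hp P (UF2.var 4) (UF2.var 0))).not
  have h2 : UP2 fun (x : List (Option (F ⊕ Bool))) _ e => ∀ κ', κ' < e 2 →
      ∃ i', i' < nn x ∧ c2E p P x κ' i' ≠ c2E p P x (e 2) i' := by
    refine UP2.ball (P := fun x _ e κ' => ∃ i', i' < nn x ∧
      c2E p P x κ' i' ≠ c2E p P x (e 2) i') (UF2.var 2) ?_
    refine UP2.bex (P := fun x _ e i' => c2E p P x (e 0) i' ≠ c2E p P x (e 3) i') uf_nn ?_
    exact (UP2.eq (c2E_ExpV p hp P (UF2.var 1) (UF2.var 0))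
      (c2E_ExpV p hp P (UF2.var 4) (UF2.var 0))).not
  have h3 : UP2 fun (x : List (Option (F ⊕ Bool))) _ e => ∃ j, j < tT x ∧
      ∑ i' ∈ Finset.range (nn x), cE p P x (e 2) i' ≤
        ∑ i' ∈ Finset.range (nn x), ee x j i' := by
    refine UP2.bex (P := fun x _ e j => ∑ i' ∈ Finset.range (nn x), cE p P x (e 2) i' ≤
      ∑ i' ∈ Finset.range (nn x), ee x j i') uf_tT ?_
    refine UP2.le (UF2.sum (f := fun x _ e i' => cE p P x (e 3) i') uf_nn ?_)
      (UF2.sum (f := fun x _ e i' => ee x (e 0) i') uf_nn ?_)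
    · exact cE_ExpV p hp P (UF2.var 4) (UF2.var 0)
    · exact ee_ExpV (UF2.var 1) (UF2.var 0)
  have h4 : UP2 fun (x : List (Option (F ⊕ Bool))) _ e => act p x (e 1) :=
    UP2.comp₁ (P := fun (x : List (Option (F ⊕ Bool))) _ i => act p x i) (up_act p) (UF2.var 1)
  have h0 : UP2 fun (x : List (Option (F ⊕ Bool))) _ e => e 0 = 0 :=
    UP2.eq (UF2.var 0) (UF2.const 0)
  exact (h0.and ((UP2.lt (UF2.var 2) hS).and (h1.and h3))).or
    (h0.not.and (h4.and ((UP2.eq (UF2.var 2) hS).or ((UP2.lt (UF2.var 2) hS).and h2))))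

end Pool.Agent.SIRP
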