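import Pool.Agent.SIRP.CoreP
import Pool.Agent.SIRP.BigB
import Pool.Agent.SIRM.MainM

/-! # Irreducibility of sparse polynomials in P -/

set_option autoImplicit false

namespace Pool.Agent.SIRP

open Pool.Agent.SIRM MvPolynomial Pool.Agent.PIt

variable {F : Type} [Field F] [Fintype F]

theorem mainP (c : ℕ) : InPoly (Irr F c) := by
  obtain ⟨p, hp⟩ := CharP.exists F
  have hpp : p.Prime :=
    (CharP.char_is_prime_or_zero F p).resolve_right (CharP.char_ne_zero_of_finite F p)
  have : Fact p.Prime := ⟨hpp⟩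
  have h1 := core_P (F := F) p (Bd c) (up_Bd c)
    (Polynomial.C (2 ^ (p + 1)) * (Polynomial.X + 1) ^ ((p + 1) * (c + 2))) ?_
  · refine (congrArg InPoly ?_).mp h1
    ext x
    exact (mem_Irr c x).symm
  · rintro x hx ⟨d, hd, hd1, hd2⟩
    have h2 := big_of p hpp c x hx d (by omega) hd1 hd2
    unfold Big
    simpa using h2

theorem mainPB (t : ℕ) : InPoly (IrrB F t) := by
  obtain ⟨p, hp⟩ := CharP.exists F
  have hpp : p.Prime :=
    (CharP.char_is_prime_or_zero F p).resolve_right (CharP.char_ne_zero_of_finite F p)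
  have : Fact p.Prime := ⟨hpp⟩
  have h1 := core_P (F := F) p _ (up_Bt t)
    ((Polynomial.C 2 * (Polynomial.X + 1)) ^ ((p - 1) * (Nat.log 2 t + 1) + 2)) ?_
  · refine (congrArg InPoly ?_).mp h1
    ext x
    exact (mem_IrrB t x).symm
  · intro x hx hd1
    have h2 := big_of_le p hpp t x hx hd1
    unfold Big
    simpa using h2

end Pool.Agent.SIRP
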