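import Pool.Agent.SIRP.ExpV

/-! # The entries of the matrix are denoted by terms: co0, co1 -/

set_option autoImplicit false

namespace Pool.Agent.SIRP

open Pool.Agent.PT Pool.Agent.Book19 Pool.Agent.SIRM

variable {F : Type} [Field F] [Fintype F] {p : ℕ} [Fact p.Prime] [Algebra (ZMod p) F] {e : ℕ}

/-- The basis elements: a finite table with remainder: `bs b l = 0` for `e ≤ l` (`UV.ite` on
`l < e`, `UV.table` on `l % (e + 1)`, or `UP2.fex` over `Fin e`). -/
theorem uv_bs (b : Module.Basis (Fin e) (ZMod p) F) {Γ : Type}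
    {l : List Γ → List Bool → (ℕ → ℕ) → ℕ} (hl : UF2 l) : UV fun x w ε => bs b (l x w ε) := by
  refine (UV.ite (inst := fun _ _ _ => inferInstance) (UP2.lt hl (UF2.const e))
    (UV.table (fun k => bs b k) (e + 1) (hl.mod (UF2.const (e + 1)))
      (fun x w ε => Nat.mod_lt _ (Nat.succ_pos e))) (UV.const (0 : F))).congr fun x w ε => ?_
  by_cases h : l x w ε < e
  · rw [if_pos h, Nat.mod_eq_of_lt (by omega)]
  · rw [if_neg h]
    unfold bs
    rw [dif_neg h]

omit [Fact p.Prime] [Algebra (ZMod p) F] in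
private theorem MatA_cE (hp : p.Prime) (P : Polynomial ℕ)
    {g h : List (Option (F ⊕ Bool)) → List Bool → (ℕ → ℕ) → ℕ} (hg : UF2 g) (hh : UF2 h) :
    UF2 fun (x : List (Option (F ⊕ Bool))) w ε => cE p P x (g x w ε) (h x w ε) :=
  UF2.comp₂ (f := fun (x : List (Option (F ⊕ Bool))) _ a b => cE p P x a b) (uf_cE p hp P) hg hh

omit [Fact p.Prime] [Algebra (ZMod p) F] in
private theorem MatA_pE
    {g h : List (Option (F ⊕ Bool)) → List Bool → (ℕ → ℕ) → ℕ} (hg : UF2 g) (hh : UF2 h) :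
    UF2 fun (x : List (Option (F ⊕ Bool))) w ε => pE p x (g x w ε) (h x w ε) :=
  UF2.comp₂ (f := fun (x : List (Option (F ⊕ Bool))) _ a b => pE p x a b) (uf_pE p) hg hh

omit [Fact p.Prime] [Algebra (ZMod p) F] in
private theorem MatA_gm (hp : p.Prime) (P : Polynomial ℕ)
    {g h k : List (Option (F ⊕ Bool)) → List Bool → (ℕ → ℕ) → ℕ} (hg : UF2 g) (hh : UF2 h)
    (hk : UF2 k) :
    UF2 fun (x : List (Option (F ⊕ Bool))) w ε => gm p P x (g x w ε) (h x w ε) (k x w ε) :=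
  (uf_gm (F := F) p hp P).subst (fun i => match i with
    | 0 => g
    | 1 => h
    | _ => k) (fun i => match i with
    | 0 => hg
    | 1 => hh
    | _ + 2 => hk)

/-- `UV.ite`, `UV.map`, `UV.map₂`, `UV.sum`, `UP2.ball`, `uf_cE`, `uf_pE`, `uv_pC`, `uf_gm`, `uv_bs`.
The variables are `o = ε 0`, `i0 = ε 1`, `κ = ε 2`, `l = ε 3`, `i = ε 4`, `a = ε 5`, `b' = ε 6`. -/
theorem uv_co0 (b : Module.Basis (Fin e) (ZMod p) F) (P : Polynomial ℕ) :
    UV fun (x : List (Option (F ⊕ Bool))) _ ε =>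
      co0 b P x (ε 0) (ε 1) (ε 2) (ε 3) (ε 4) (ε 5) (ε 6) := by
  have hp : p.Prime := Fact.out
  have h1 : UF2 fun (x : List (Option (F ⊕ Bool))) _ _ => tT x ^ (p - 1) :=
    (UF2.poly (Polynomial.X ^ (p - 1)) uf_tT).congr fun x w e => by simp
  unfold co0
  refine UV.ite ?_ ?_ (UV.const 0)
  · exact (UP2.eq (UF2.var 0) (UF2.const 0)).and ((UP2.eq (UF2.var 1) (UF2.var 4)).and
      (UP2.lt (UF2.var 2) (uf_SS p hp P)))
  · refine UV.map₂ (fun u v : F => u - v) ?_ ?_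
    · refine UV.ite ?_ (UV.map (fun u : F => u ^ p) (uv_bs b (UF2.var 3))) (UV.const 0)
      refine UP2.ball uf_nn ?_
      exact UP2.eq ((UF2.const p).mul (MatA_cE hp P (UF2.var 3) (UF2.var 0)))
        (MatA_gm hp P (UF2.var 6) (UF2.var 7) (UF2.var 0))
    · refine UV.ite ?_ ?_ (UV.const 0)
      · exact UP2.eq ((MatA_gm hp P (UF2.var 5) (UF2.var 6) (UF2.var 4)).mod (UF2.const p))
          (UF2.const 0)
      · refine UV.sum h1 ?_
        refine UV.ite ?_ (UV.map₂ (fun u v : F => u * v) (uv_pC p) (uv_bs b (UF2.var 4)))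
          (UV.const 0)
        refine UP2.ball uf_nn ?_
        exact UP2.eq ((MatA_pE (UF2.var 1) (UF2.var 0)).add (MatA_cE hp P (UF2.var 4) (UF2.var 0)))
          (MatA_gm hp P (UF2.var 7) (UF2.var 8) (UF2.var 0))

end Pool.Agent.SIRP
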