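import Pool.Agent.SIRP.MatA

/-! # The entries of the matrix are denoted by terms: co1 -/

set_option autoImplicit false

namespace Pool.Agent.SIRP

open Pool.Agent.PT Pool.Agent.Book19 Pool.Agent.SIRM

variable {F : Type} [Field F] [Fintype F] {p : ℕ} [Fact p.Prime] [Algebra (ZMod p) F] {e : ℕ}

private theorem MatB_ee {g h : List (Option (F ⊕ Bool)) → List Bool → (ℕ → ℕ) → ℕ}
    (hg : UF2 g) (hh : UF2 h) :
    UF2 fun (x : List (Option (F ⊕ Bool))) w ε => ee x (g x w ε) (h x w ε) :=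
  UF2.comp₂ (f := fun (x : List (Option (F ⊕ Bool))) _ a b => ee x a b) uf_ee hg hh

private theorem MatB_cc {g : List (Option (F ⊕ Bool)) → List Bool → (ℕ → ℕ) → ℕ}
    (hg : UF2 g) : UV fun (x : List (Option (F ⊕ Bool))) w ε => cc x (g x w ε) :=
  UV.comp₁ (f := fun (x : List (Option (F ⊕ Bool))) _ k => cc x k) uv_cc hg

omit [Fact p.Prime] [Algebra (ZMod p) F] in
private theorem MatB_cE (hp : p.Prime) (P : Polynomial ℕ)
    {g h : List (Option (F ⊕ Bool)) → List Bool → (ℕ → ℕ) → ℕ} (hg : UF2 g) (hh : UF2 h) :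
    UF2 fun (x : List (Option (F ⊕ Bool))) w ε => cE p P x (g x w ε) (h x w ε) :=
  UF2.comp₂ (f := fun (x : List (Option (F ⊕ Bool))) _ a b => cE p P x a b) (uf_cE p hp P) hg hh

omit [Fact p.Prime] [Algebra (ZMod p) F] in
private theorem MatB_gm (hp : p.Prime) (P : Polynomial ℕ)
    {g h k : List (Option (F ⊕ Bool)) → List Bool → (ℕ → ℕ) → ℕ} (hg : UF2 g) (hh : UF2 h)
    (hk : UF2 k) :
    UF2 fun (x : List (Option (F ⊕ Bool))) w ε => gm p P x (g x w ε) (h x w ε) (k x w ε) :=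
  (uf_gm (F := F) p hp P).subst (fun i => match i with
    | 0 => g
    | 1 => h
    | _ => k) (fun i => match i with
    | 0 => hg
    | 1 => hh
    | _ + 2 => hk)

private theorem MatB_dif [CharP F p] (P : Polynomial ℕ) (i j : ℕ) :
    UV fun (x : List (Option (F ⊕ Bool))) _ ε => open Classical in
      (if ε 2 = ε i then ((cE p P x (ε 3) (ε j) : ℕ) : F) - (ee x (ε 0) (ε j) : ℕ) else 0) := by
  have hp : p.Prime := Fact.out
  refine UV.ite (UP2.eq (UF2.var 2) (UF2.var i)) ?_ (UV.const 0)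
  exact UV.map₂ (fun a b : F => a - b)
    (uv_natCast p (MatB_cE hp P (UF2.var 3) (UF2.var j)))
    (uv_natCast p (MatB_ee (UF2.var 0) (UF2.var j)))

/-- As `uv_co0`, with `uv_natCast` (`CharP F p` from `Algebra (ZMod p) F`:
`charP_of_injective_algebraMap`). The variables are `o = ε 0`, `i0 = ε 1`, `κ = ε 2`, `l = ε 3`,
`i = ε 4`, `i' = ε 5`, `a = ε 6`, `b' = ε 7`. -/
theorem uv_co1 (b : Module.Basis (Fin e) (ZMod p) F) (P : Polynomial ℕ) :
    UV fun (x : List (Option (F ⊕ Bool))) _ ε =>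
      co1 b P x (ε 0) (ε 1) (ε 2) (ε 3) (ε 4) (ε 5) (ε 6) (ε 7) := by
  classical
  have hp : p.Prime := Fact.out
  have : CharP F p := charP_of_injective_algebraMap (algebraMap (ZMod p) F).injective p
  unfold co1
  refine UV.ite ?_ ?_ (UV.const 0)
  · exact (UP2.eq (UF2.var 0) (UF2.const 0)).and (UP2.lt (UF2.var 2) (uf_SS p hp P))
  · refine UV.sum (f := fun (x : List (Option (F ⊕ Bool))) _ ε v =>
      if ∀ k, k < nn x → ee x v k + cE p P x (ε 2) k = gm p P x (ε 6) (ε 7) k then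
      cc x v * bs b (ε 3) * ((if ε 1 = ε 4 then ((cE p P x (ε 2) (ε 5) : ℕ) : F) -
          (ee x v (ε 5) : ℕ) else 0) -
        (if ε 1 = ε 5 then ((cE p P x (ε 2) (ε 4) : ℕ) : F) - (ee x v (ε 4) : ℕ) else 0))
        else 0) uf_tT ?_
    refine UV.ite ?_ ?_ (UV.const 0)
    · refine UP2.ball (P := fun (x : List (Option (F ⊕ Bool))) _ ε k =>
        ee x (ε 0) k + cE p P x (ε 3) k = gm p P x (ε 7) (ε 8) k) uf_nn ?_
      exact UP2.eq ((MatB_ee (UF2.var 1) (UF2.var 0)).add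
        (MatB_cE hp P (UF2.var 4) (UF2.var 0)))
        (MatB_gm hp P (UF2.var 8) (UF2.var 9) (UF2.var 0))
    · exact UV.map₂ (fun a c : F => a * c)
        (UV.map₂ (fun a c : F => a * c) (MatB_cc (UF2.var 0)) (uv_bs b (UF2.var 4)))
        (UV.map₂ (fun a c : F => a - c) (MatB_dif P 5 6) (MatB_dif P 6 5))

end Pool.Agent.SIRP
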