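import Pool.Agent.SIRP.Cols
import Pool.Agent.PGs.Defs

/-! # Decoding the rows -/

set_option autoImplicit false

namespace Pool.Agent.SIRP

open Pool.Agent.SIRM MvPolynomial Pool.Agent.SparseIrr

variable {F : Type} [Field F] {p : ℕ} [Fact p.Prime] [Algebra (ZMod p) F] {e : ℕ}

/-- `cr b l'` is linear. -/
theorem cr_sum (b : Module.Basis (Fin e) (ZMod p) F) (l' : ℕ) {ι : Type} [Fintype ι]
    (y : ι → ZMod p) (v : ι → F) : ∑ c, y c * cr b l' (v c) = cr b l' (∑ c, y c • v c) := by
  unfold cr
  by_cases h : l' < e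
  · simp only [h, dif_pos, map_sum, map_smul, Finsupp.coe_finsetSum, Finset.sum_apply,
      Finsupp.coe_smul, Pi.smul_apply, smul_eq_mul]
  · simp only [h, dif_neg, not_false_iff, mul_zero, Finset.sum_const_zero]

theorem cr_eq_zero (b : Module.Basis (Fin e) (ZMod p) F) (v : F) :
    v = 0 ↔ ∀ l', l' < e → cr b l' v = 0 := by
  constructor
  · rintro rfl l' hl
    simp [cr]
  · intro h
    have : b.repr v = 0 := by
      ext l
      have := h l l.2
      simpa [cr] using this
    simpa using this

private theorem RowsA_divAdd {m k l : ℕ} (hl : l < k) : (m * k + l) / k = m := by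
  have hk : 0 < k := by omega
  rw [Nat.mul_comm, Nat.mul_add_div hk, Nat.div_eq_of_lt hl, Nat.add_zero]

private theorem RowsA_modAdd {m k l : ℕ} (hl : l < k) : (m * k + l) % k = l := by
  rw [Nat.mul_comm, Nat.mul_add_mod, Nat.mod_eq_of_lt hl]

private theorem RowsA_ltMul {m k l n : ℕ} (hm : m < n) (hl : l < k) : m * k + l < n * k := by
  calc m * k + l < m * k + k := by omega
    _ = (m + 1) * k := by ring
    _ ≤ n * k := Nat.mul_le_mul_right k hm

/-- decoding a row -/
private theorem RowsA_dec {n W e i i' a b l : ℕ} (hi : i < n) (hi' : i' < n) (ha : a < W)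
    (hb : b < W) (hl : l < e) :
    ((((i * n + i') * W + a) * W + b) * e + l) % e = l ∧
    ((((i * n + i') * W + a) * W + b) * e + l) / e % W = b ∧
    ((((i * n + i') * W + a) * W + b) * e + l) / (W * e) % W = a ∧
    ((((i * n + i') * W + a) * W + b) * e + l) / (W * W * e) % n = i' ∧
    ((((i * n + i') * W + a) * W + b) * e + l) / (n * W * W * e) % n = i ∧
    ((((i * n + i') * W + a) * W + b) * e + l) < n * n * W * W * e := by
  have h1 := RowsA_divAdd (m := ((i * n + i') * W + a) * W + b) hl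
  have h2 := RowsA_divAdd (m := (i * n + i') * W + a) hb
  have h3 := RowsA_divAdd (m := i * n + i') ha
  have h4 := RowsA_divAdd (m := i) hi'
  refine ⟨RowsA_modAdd hl, ?_, ?_, ?_, ?_, ?_⟩
  · rw [h1, RowsA_modAdd hb]
  · rw [Nat.mul_comm W e, ← Nat.div_div_eq_div_mul, h1, h2, RowsA_modAdd ha]
  · rw [show W * W * e = e * W * W by ring, ← Nat.div_div_eq_div_mul, ← Nat.div_div_eq_div_mul,
      h1, h2, h3, RowsA_modAdd hi']
  · rw [show n * W * W * e = e * W * W * n by ring, ← Nat.div_div_eq_div_mul,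
      ← Nat.div_div_eq_div_mul, ← Nat.div_div_eq_div_mul, h1, h2, h3, h4, Nat.mod_eq_of_lt hi]
  · exact RowsA_ltMul (RowsA_ltMul (RowsA_ltMul (RowsA_ltMul hi hi') ha) hb) hl

private theorem RowsA_SS_pos (P : Polynomial ℕ) (x : List (Option (F ⊕ Bool))) :
    0 < SS p P x := pw_pos _ _ _

private theorem RowsA_Cn_le (P : Polynomial ℕ) (x : List (Option (F ⊕ Bool))) (hn : 0 < nn x) :
    Cn p P e x ≤ N0 p P e x := by
  have hS : 0 < SS p P x := RowsA_SS_pos P x
  have h1 : SS p P x + 1 ≤ Wn p P x := by unfold Wn; omega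
  have h2 : 2 ≤ Wn p P x := by unfold Wn; omega
  unfold Cn N0
  calc 2 * nn x * (SS p P x + 1) * e = 1 * nn x * 2 * (SS p P x + 1) * e := by ring
    _ ≤ nn x * nn x * Wn p P x * Wn p P x * e := by gcongr; exact hn

/-- The rows `j < 4 * N0`, decoded: `j = t * N0 + (((i * n + i') * Wn + a) * Wn + b') * e + l'`
(division with remainder). For `t = 3` the row `r` is `y r` if the column `r` is not valid, and
nothing otherwise; every column occurs as `Cn ≤ N0` (`SS + 1 ≤ Wn`, `2 ≤ Wn`). -/
theorem rows_iff (b : Module.Basis (Fin e) (ZMod p) F) (P : Polynomial ℕ)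
    (x : List (Option (F ⊕ Bool))) (hn : 0 < nn x) (he : 0 < e)
    (y : Fin (Cn p P e x) → ZMod p) :
    y ∈ PGs.ker (Cn p P e x) (aM b P x) (4 * N0 p P e x) ↔ Zv p P e x y ∧
      ∀ i, i < nn x → ∀ i', i' < nn x → ∀ a, a < Wn p P x → ∀ b', b' < Wn p P x →
        (∑ c : Fin (Cn p P e x), y c • co0 b P x (cO p P e x c) (cI p P e x c) (cK p P e x c)
          ((c : ℕ) % e) i a b' = 0) ∧
        (∑ c : Fin (Cn p P e x), y c • co1 b P x (cO p P e x c) (cI p P e x c) (cK p P e x c)
          ((c : ℕ) % e) i i' a b' = 0) ∧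
        (∑ c : Fin (Cn p P e x), y c • co2 b P x (cO p P e x c) (cI p P e x c) (cK p P e x c)
          ((c : ℕ) % e) i a b' = 0) := by
  classical
  have hmem : y ∈ PGs.ker (Cn p P e x) (aM b P x) (4 * N0 p P e x) ↔
      ∀ j, j < 4 * N0 p P e x → ∑ c, y c * aM b P x c j = 0 := Iff.rfl
  rw [hmem]
  constructor
  · intro h
    refine ⟨?_, ?_⟩
    · intro o ho i hi κ hκ l hl hv
      have hc := idx_lt p P e x ho hi hκ hl
      have hc' : idx p P e x o i κ l < N0 p P e x := lt_of_lt_of_le hc (RowsA_Cn_le P x hn)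
      have hj := h (3 * N0 p P e x + idx p P e x o i κ l) (by omega)
      have hd : (3 * N0 p P e x + idx p P e x o i κ l) / N0 p P e x = 3 := RowsA_divAdd hc'
      have hm : (3 * N0 p P e x + idx p P e x o i κ l) % N0 p P e x = idx p P e x o i κ l :=
        RowsA_modAdd hc'
      simp only [aM, hd, hm] at hj
      rw [Finset.sum_eq_single (⟨idx p P e x o i κ l, hc⟩ : Fin (Cn p P e x))] at hj
      · simp only [cO_idx p P e x hi hκ hl, cI_idx p P e x hi hκ hl, cK_idx p P e x hκ hl] at hj
        simp only [hv, not_false_iff, and_self, if_true, mul_one, OfNat.ofNat_ne_zero,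
          if_false, OfNat.ofNat_ne_one, Nat.succ_ne_self] at hj
        simp only [yv, hc, dif_pos]
        simpa using hj
      · intro c _ hne
        have : (c : ℕ) ≠ idx p P e x o i κ l := fun hh => hne (Fin.ext hh)
        simp [this]
      · intro hh
        exact absurd (Finset.mem_univ _) hh
    · intro i hi i' hi' a ha b' hb'
      have key : ∀ t, t < 4 → ∀ l', l' < e → ∑ c, y c * aM b P x c
          (t * N0 p P e x + ((((i * nn x + i') * Wn p P x + a) * Wn p P x + b') * e + l')) = 0 := by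
        intro t ht l' hl'
        obtain ⟨-, -, -, -, -, h6⟩ := RowsA_dec hi hi' ha hb' hl'
        refine h _ ?_
        have h6' : (((i * nn x + i') * Wn p P x + a) * Wn p P x + b') * e + l' < N0 p P e x := h6
        exact RowsA_ltMul ht h6'
      have dec : ∀ l', l' < e → ∀ t,
          (t * N0 p P e x + ((((i * nn x + i') * Wn p P x + a) * Wn p P x + b') * e + l')) /
            N0 p P e x = t ∧
          (t * N0 p P e x + ((((i * nn x + i') * Wn p P x + a) * Wn p P x + b') * e + l')) %
            N0 p P e x = (((i * nn x + i') * Wn p P x + a) * Wn p P x + b') * e + l' := by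
        intro l' hl' t
        obtain ⟨-, -, -, -, -, h6⟩ := RowsA_dec hi hi' ha hb' hl'
        exact ⟨RowsA_divAdd h6, RowsA_modAdd h6⟩
      refine ⟨?_, ?_, ?_⟩
      · rw [cr_eq_zero b]
        intro l' hl'
        rw [← cr_sum]
        have hk := key 0 (by omega) l' hl'
        obtain ⟨hd, hm⟩ := dec l' hl' 0
        obtain ⟨h1, h2, h3, h4, h5, -⟩ := RowsA_dec hi hi' ha hb' hl'
        simp only [aM, hd, hm, h1, h2, h3, h4, h5, if_true] at hk
        exact hk
      · rw [cr_eq_zero b]
        intro l' hl'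
        rw [← cr_sum]
        have hk := key 1 (by omega) l' hl'
        obtain ⟨hd, hm⟩ := dec l' hl' 1
        obtain ⟨h1, h2, h3, h4, h5, -⟩ := RowsA_dec hi hi' ha hb' hl'
        simp only [aM, hd, hm, h1, h2, h3, h4, h5, if_true, one_ne_zero, if_false] at hk
        exact hk
      · rw [cr_eq_zero b]
        intro l' hl'
        rw [← cr_sum]
        have hk := key 2 (by omega) l' hl'
        obtain ⟨hd, hm⟩ := dec l' hl' 2
        obtain ⟨h1, h2, h3, h4, h5, -⟩ := RowsA_dec hi hi' ha hb' hl'
        have t0 : ¬ (2 = 0) := by omega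
        have t1 : ¬ (2 = 1) := by omega
        simp only [aM, hd, hm, h1, h2, h3, h4, h5, if_true, t0, t1, if_false] at hk
        exact hk
  · rintro ⟨hZ, h⟩ j hj
    have hN : 0 < N0 p P e x := by omega
    have hWn : 0 < Wn p P x := by
      have hS : 0 < SS p P x := RowsA_SS_pos P x
      unfold Wn; omega
    have ht : j / N0 p P e x < 4 := (Nat.div_lt_iff_lt_mul hN).2 hj
    obtain ⟨h0, h1, h2⟩ := h _ (Nat.mod_lt (j % N0 p P e x / (nn x * Wn p P x * Wn p P x * e)) hn)
      _ (Nat.mod_lt (j % N0 p P e x / (Wn p P x * Wn p P x * e)) hn)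
      _ (Nat.mod_lt (j % N0 p P e x / (Wn p P x * e)) hWn)
      _ (Nat.mod_lt (j % N0 p P e x / e) hWn)
    by_cases t0 : j / N0 p P e x = 0
    · simp only [aM, t0, if_true]
      rw [cr_sum, h0]
      simp [cr]
    by_cases t1 : j / N0 p P e x = 1
    · simp only [aM, t1, if_true, one_ne_zero, if_false]
      rw [cr_sum, h1]
      simp [cr]
    by_cases t2 : j / N0 p P e x = 2
    · have u0 : ¬ (2 = 0) := by omega
      have u1 : ¬ (2 = 1) := by omega
      simp only [aM, t2, if_true, u0, u1, if_false]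
      rw [cr_sum, h2]
      simp [cr]
    simp only [aM, t0, t1, t2, if_false]
    refine Finset.sum_eq_zero fun c _ => ?_
    split_ifs with hc
    · obtain ⟨o, i, κ, l, ho, hi, hκ, hl, hidx⟩ := exists_idx p P e x c.2
      have hv := hc.2
      rw [← hidx, cO_idx p P e x hi hκ hl, cI_idx p P e x hi hκ hl, cK_idx p P e x hκ hl] at hv
      have := hZ o ho i hi κ hκ l hl hv
      rw [hidx] at this
      simp only [yv, c.2, dif_pos] at this
      rw [show y c = 0 from this, zero_mul]
    · rw [mul_zero]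

end Pool.Agent.SIRP
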