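import Pool.Agent.SIRP.Act
import Pool.Agent.SparseIrr.LinearMain

/-! # The dimension of the trivial solutions -/

set_option autoImplicit false

namespace Pool.Agent.SIRP

open Pool.Agent.SIRM MvPolynomial Pool.Agent.SparseIrr

variable {F : Type} [Field F] {p : ℕ} [Fact p.Prime] [Algebra (ZMod p) F]

/-- the trivial solutions `u i = c θ_i f + d_i f` -/
noncomputable def triL (p : ℕ) [Fact p.Prime] [Algebra (ZMod p) F]
    (x : List (Option (F ⊕ Bool))) : (ZMod p × (Fin (nn x) → ZMod p)) →ₗ[ZMod p]
      (Fin (nn x) → MvPolynomial (Fin (nn x)) F) where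
  toFun cd := fun i => cd.1 • theta i (pol x) + cd.2 i • pol x
  map_add' := by
    intro a b
    funext i
    simp only [Prod.fst_add, Prod.snd_add, Pi.add_apply, add_smul]
    abel
  map_smul' := by
    intro c a
    funext i
    simp only [Prod.smul_fst, Prod.smul_snd, Pi.smul_apply, smul_add, smul_smul, smul_eq_mul,
      RingHom.id_apply]

open Classical in
/-- number of trivial solutions (dimension) -/
noncomputable def dT (p : ℕ) (x : List (Option (F ⊕ Bool))) : ℕ :=
  nn x + if ∃ i, i < nn x ∧ act p x i then 1 else 0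

private theorem smul_Tri {σ : Type} (a : ℤ) (g : MvPolynomial σ F) :
    ((a : ℤ) : ZMod p) • g = C (a : F) * g := by
  rw [Algebra.smul_def, map_intCast, map_intCast]

private theorem smulA_Tri {σ : Type} (a : ZMod p) (g : MvPolynomial σ F) :
    a • g = C (algebraMap (ZMod p) F a) * g := by
  rw [Algebra.smul_def, MvPolynomial.algebraMap_apply]

private theorem ne_Tri (x : List (Option (F ⊕ Bool))) (hx : Good x) : pol x ≠ 0 := by
  obtain ⟨hcard, -, -⟩ := support_fam (nn x) (tT x) (ee x) (cc x) hx.2.2.2.1 hx.2.2.2.2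
  have hcard' : (pol x).support.card = tT x := hcard
  have hT : 0 < tT x := hx.1
  intro h0
  rw [h0, support_zero, Finset.card_empty] at hcard'
  omega

private theorem charP_Tri (F : Type) [Field F] (p : ℕ) [Fact p.Prime] [Algebra (ZMod p) F] :
    CharP F p :=
  charP_of_injective_algebraMap (algebraMap (ZMod p) F).injective p

private theorem dom_Tri (p n : ℕ) [Fact p.Prime] :
    Module.finrank (ZMod p) (ZMod p × (Fin n → ZMod p)) = 1 + n := by
  rw [Module.finrank_prod, Module.finrank_self, Module.finrank_fin_fun]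

/-- `u` is trivial iff it is in the range: integers and elements of `ZMod p`. -/
theorem triv_iff (x : List (Option (F ⊕ Bool)))
    (u : Fin (nn x) → MvPolynomial (Fin (nn x)) F) :
    Triv (pol x) u ↔ ∃ cd, triL p x cd = u := by
  constructor
  · rintro ⟨c, d, h⟩
    refine ⟨((c : ZMod p), fun i => (d i : ZMod p)), ?_⟩
    funext i
    show (c : ZMod p) • theta i (pol x) + (d i : ZMod p) • pol x = u i
    rw [smul_Tri, smul_Tri, h i]
  · rintro ⟨⟨c, d⟩, rfl⟩
    obtain ⟨c', rfl⟩ := ZMod.intCast_surjective c
    have hd : ∀ i, ∃ a : ℤ, (a : ZMod p) = d i := fun i => ZMod.intCast_surjective (d i)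
    choose d' hd' using hd
    refine ⟨c', d', fun i => ?_⟩
    show (c' : ZMod p) • theta i (pol x) + d i • pol x = _
    rw [← hd' i, smul_Tri, smul_Tri]

/-- The kernel of `triL` is zero if some variable is active (`c θ_i f = - d_i f` with `c ≠ 0` would
make `θ_i f` a constant multiple of `f`, `act_iff`, and `d_i f = 0` gives `d_i = 0`); otherwise
`θ_i f = a_i f` with `a_i` the common value of the exponents of the variable `i` in `ZMod p` and the
kernel is the line of `(1, (- a_i))`. Rank and nullity, the domain has dimension `nn x + 1`. -/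
theorem finrank_triL (x : List (Option (F ⊕ Bool))) (hx : Good x) :
    Module.finrank (ZMod p) (LinearMap.range (triL p x)) = dT p x := by
  classical
  have hC : CharP F p := charP_Tri F p
  have hf0 := ne_Tri x hx
  have hrn := LinearMap.finrank_range_add_finrank_ker (triL p x)
  rw [dom_Tri] at hrn
  have hmem : ∀ cd : ZMod p × (Fin (nn x) → ZMod p), cd ∈ LinearMap.ker (triL p x) ↔
      ∀ i, cd.1 • theta i (pol x) + cd.2 i • pol x = 0 := by
    intro cd
    rw [LinearMap.mem_ker]
    exact ⟨fun h i => congrFun h i, fun h => funext h⟩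
  by_cases hact : ∃ i, i < nn x ∧ act p x i
  · have hk : LinearMap.ker (triL p x) = ⊥ := by
      rw [eq_bot_iff]
      intro cd hcd
      rw [hmem] at hcd
      rw [Submodule.mem_bot]
      have hc : cd.1 = 0 := by
        by_contra hc
        obtain ⟨i, hi, ha⟩ := hact
        apply (act_iff p x hx ⟨i, hi⟩).mp ha
        refine ⟨algebraMap (ZMod p) F (-(cd.1)⁻¹ * cd.2 ⟨i, hi⟩), ?_⟩
        have h1 := hcd ⟨i, hi⟩
        have h2 : theta ⟨i, hi⟩ (pol x) = (-(cd.1)⁻¹ * cd.2 ⟨i, hi⟩) • pol x := by
          have h3 : cd.1 • theta ⟨i, hi⟩ (pol x) = -(cd.2 ⟨i, hi⟩ • pol x) :=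
            eq_neg_of_add_eq_zero_left h1
          rw [neg_mul, neg_smul, mul_smul, ← smul_neg, ← h3, smul_smul, inv_mul_cancel₀ hc,
            one_smul]
        rw [h2, smulA_Tri]
      refine Prod.ext hc (funext fun i => ?_)
      have h1 := hcd i
      rw [hc, zero_smul, zero_add, smul_eq_zero] at h1
      exact h1.resolve_right hf0
    rw [hk, finrank_bot] at hrn
    unfold dT
    rw [if_pos hact]
    omega
  · obtain ⟨α, hα⟩ := support_nonempty.mpr hf0
    have hα0 := mem_support_iff.mp hα
    have hth : ∀ i, theta i (pol x) = ((α i : ℕ) : ZMod p) • pol x := by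
      intro i
      have h1 : ∃ c : F, theta i (pol x) = C c * pol x := by
        by_contra h2
        exact hact ⟨i, i.2, (act_iff p x hx i).mpr h2⟩
      obtain ⟨c, hc⟩ := h1
      have h3 : coeff α (theta i (pol x)) = c * coeff α (pol x) := by
        rw [hc, coeff_C_mul]
      rw [coeff_theta] at h3
      have h4 : c = (α i : F) := (mul_right_cancel₀ hα0 h3).symm
      rw [hc, h4, smulA_Tri, map_natCast (algebraMap (ZMod p) F)]
    have hk : LinearMap.ker (triL p x) =
        Submodule.span (ZMod p) {((1 : ZMod p), fun i : Fin (nn x) => -((α i : ℕ) : ZMod p))} := by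
      ext cd
      rw [hmem, Submodule.mem_span_singleton]
      constructor
      · intro h
        refine ⟨cd.1, Prod.ext ?_ (funext fun i => ?_)⟩
        · simp
        · have h1 := h i
          rw [hth i, smul_smul, ← add_smul, smul_eq_zero] at h1
          have h2 := h1.resolve_right hf0
          simp only [Prod.smul_snd, Pi.smul_apply, smul_eq_mul]
          linear_combination -h2
      · rintro ⟨c, rfl⟩ i
        simp only [Prod.smul_fst, Prod.smul_snd, Pi.smul_apply, smul_eq_mul, mul_one]
        rw [hth i, smul_smul, ← add_smul]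
        have h5 : c * ((α i : ℕ) : ZMod p) + c * -((α i : ℕ) : ZMod p) = 0 := by ring
        rw [h5, zero_smul]
    have hv : ((1 : ZMod p), fun i : Fin (nn x) => -((α i : ℕ) : ZMod p)) ≠ 0 := by
      intro h
      exact one_ne_zero (congrArg Prod.fst h)
    rw [hk, finrank_span_singleton hv] at hrn
    unfold dT
    rw [if_neg hact]
    omega

end Pool.Agent.SIRP
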