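import Pool.Agent.SIRP.Tri
import Pool.Agent.SIRP.CandB

/-! # The trivial solutions are solutions -/

set_option autoImplicit false

namespace Pool.Agent.SIRP

open Pool.Agent.SIRM MvPolynomial Pool.Agent.SparseIrr

variable {F : Type} [Field F] {p : ℕ} [Fact p.Prime] [Algebra (ZMod p) F]

private theorem TriS_sum (q : ℕ) (hq : 0 < q) (m : ℕ) :
    ∑ r ∈ Finset.range (q * m), (q + 1) ^ (r / q) + 1 = (q + 1) ^ m := by
  induction m with
  | zero => simp
  | succ m ih =>
    rw [Nat.mul_succ, Finset.sum_range_add]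
    have h1 : ∑ s ∈ Finset.range q, (q + 1) ^ ((q * m + s) / q) = q * (q + 1) ^ m := by
      rw [Finset.sum_congr rfl (g := fun _ => (q + 1) ^ m), Finset.sum_const, Finset.card_range,
        smul_eq_mul]
      intro s hs
      rw [Nat.mul_add_div hq, Nat.div_eq_of_lt (Finset.mem_range.1 hs), add_zero]
    rw [h1, pow_succ, ← ih]
    ring

private theorem TriS_div (β q : ℕ) (h : β < q) : ((q - 1) * β + (q - 1)) / q = β := by
  obtain ⟨t, rfl⟩ : ∃ t, q = t + 1 := ⟨q - 1, by omega⟩
  rw [Nat.add_sub_cancel]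
  have h1 : t * β + t = (t + 1) * β + (t - β) := by
    have h2 : (t + 1) * β = t * β + β := by ring
    omega
  rw [h1, Nat.mul_add_div (Nat.succ_pos t), Nat.div_eq_of_lt (by omega), add_zero]

private theorem TriS_smul (c : ZMod p) {n : ℕ} (h : MvPolynomial (Fin n) F) :
    c • h = C (algebraMap (ZMod p) F c) * h := by
  rw [← MvPolynomial.smul_eq_C_mul, algebraMap_smul]

private theorem TriS_proj_C (q : ℕ) {n : ℕ} (i : Fin n) (a : F) (h : MvPolynomial (Fin n) F) :
    proj q i (C a * h) = C a * proj q i h := by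
  ext β
  rw [coeff_proj, coeff_C_mul, coeff_C_mul, coeff_proj]
  split_ifs
  · rfl
  · rw [mul_zero]

/-- The exponents of `f` are candidates: `support_subset_cand` does not cover `f`, so directly:
`β = ⌈(∑ j < m, p ^ j (p - 1) β) / p ^ m⌉` for `β < p ^ m`, that is `κ` with all digits equal
(`exists_digits`, `pwx_eq`, `∑ r < (p - 1) m, p ^ (r / (p - 1)) = p ^ m - 1`, `ee_lt`). -/
theorem ee_cand (P : Polynomial ℕ) (x : List (Option (F ⊕ Bool))) (hx : Good x)
    (hB : Big p P x) : ∀ β ∈ (pol x).support, ∃ κ, κ < SS p P x ∧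
      ∀ k : Fin (nn x), β k = cE p P x κ k := by
  intro β hβ
  have hp : p.Prime := Fact.out
  obtain ⟨d, hd, hs⟩ := support_pow x 1 β (by rwa [pow_one])
  have hv : d 0 < tT x := hd 0 one_pos
  obtain ⟨κ, hκ, hdg⟩ := exists_digits p P x hB (fun _ => d 0) fun _ => hv
  refine ⟨κ, hκ, fun k => ?_⟩
  have hk : β k = ee x (d 0) k := by
    rw [hs k, Finset.sum_range_one]
  unfold cE
  have hq : 0 < p - 1 := by
    have := hp.two_le
    omega
  have h1 : ∑ r ∈ Finset.range ((p - 1) * mm p x), pwx p x (r / (p - 1)) * eE x (dg P x κ r) k =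
      (p ^ mm p x - 1) * β k := by
    have h2 : ∀ r ∈ Finset.range ((p - 1) * mm p x),
        pwx p x (r / (p - 1)) * eE x (dg P x κ r) k = (p - 1 + 1) ^ (r / (p - 1)) * β k := by
      intro r hr
      have hr' := Finset.mem_range.1 hr
      have h3 : r / (p - 1) < mm p x := Nat.div_lt_of_lt_mul hr'
      rw [pwx_eq p hp x _ h3.le, hdg r (by omega), Nat.sub_add_cancel hp.one_le]
      unfold eE
      rw [if_pos hv, hk]
    rw [Finset.sum_congr rfl h2, ← Finset.sum_mul]
    congr 1
    have h4 := TriS_sum (p - 1) hq (mm p x)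
    rw [Nat.sub_add_cancel hp.one_le] at h4 ⊢
    omega
  rw [h1, pwx_eq p hp x _ le_rfl, TriS_div]
  rw [hk]
  exact ee_lt p hp x hx _ hv _ k.2

/-- The supports by `ee_cand` and `support_theta_subset`; the degrees by
`totalDegree_theta_le`; `proj p i (f ^ (p - 1) θ_i f) = (θ_i f) ^ p` is `proj_log` (`SparseIrr/Linear.lean`)
with `G = f`, `K = 1`, `proj p i (f ^ p) = f ^ p` (all exponents of `f ^ p` are divisible by `p`), and
`c ^ p = c` in `ZMod p`; the last equation by `theta_comm`. -/
theorem sysU_triL (P : Polynomial ℕ) (x : List (Option (F ⊕ Bool))) (hx : Good x)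
    (hB : Big p P x) (cd : ZMod p × (Fin (nn x) → ZMod p)) : SysU p P x (triL p x cd) := by
  classical
  have hp : p.Prime := Fact.out
  have hc : CharP F p := charP_of_injective_algebraMap (algebraMap (ZMod p) F).injective p
  have hE : ExpChar F p := ExpChar.prime hp
  obtain ⟨c, d⟩ := cd
  have hu : ∀ i, triL p x (c, d) i = C (algebraMap (ZMod p) F c) * theta i (pol x) +
      C (algebraMap (ZMod p) F (d i)) * pol x := by
    intro i
    rw [← TriS_smul, ← TriS_smul]
    rfl
  have hC : ∀ a : ZMod p, (C (algebraMap (ZMod p) F a) : MvPolynomial (Fin (nn x)) F) ^ p =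
      C (algebraMap (ZMod p) F a) := by
    intro a
    rw [← C_pow, ← map_pow, ZMod.pow_card]
  refine ⟨fun i β hβ => ?_, fun i => ?_, fun i => ?_, fun i j => ?_⟩
  · refine ee_cand P x hx hB β ?_
    rw [hu i] at hβ
    rcases Finset.mem_union.1 (support_add hβ) with h | h
    · refine support_theta_subset i (pol x) ?_
      rw [mem_support_iff] at h ⊢
      rw [coeff_C_mul] at h
      exact right_ne_zero_of_mul h
    · rw [mem_support_iff] at h ⊢
      rw [coeff_C_mul] at h
      exact right_ne_zero_of_mul h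
  · rw [hu i]
    refine (totalDegree_add _ _).trans (max_le ?_ ?_)
    · rw [← MvPolynomial.smul_eq_C_mul]
      exact (totalDegree_smul_le _ _).trans (totalDegree_theta_le i _)
    · rw [← MvPolynomial.smul_eq_C_mul]
      exact totalDegree_smul_le _ _
  · rw [hu i]
    have h1 : pol x ^ (p - 1) * (C (algebraMap (ZMod p) F c) * theta i (pol x) +
        C (algebraMap (ZMod p) F (d i)) * pol x) =
        C (algebraMap (ZMod p) F c) * (pol x ^ (p - 1) * theta i (pol x)) +
        C (algebraMap (ZMod p) F (d i)) * (pol x) ^ p := by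
      obtain ⟨k, hk⟩ : ∃ k, p = k + 1 := ⟨p - 1, by have := hp.pos; omega⟩
      have h2 : p - 1 = k := by omega
      have h3 : (pol x) ^ p = pol x ^ k * pol x := by
        conv_lhs => rw [hk, pow_succ]
      rw [h2, h3]
      ring
    have h4 : proj p i ((pol x) ^ p) = (pol x) ^ p := by
      ext β
      rw [coeff_proj]
      split_ifs with h
      · rfl
      · rw [coeff_pow_char_eq_zero p _ β i h]
    rw [h1, proj_add, TriS_proj_C, TriS_proj_C, proj_pow_mul_theta, h4, add_pow_expChar, mul_pow,
      mul_pow, hC, hC]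
  · rw [hu i, hu j, theta_add, theta_add, theta_C_mul, theta_C_mul, theta_C_mul, theta_C_mul,
      theta_comm i j]
    ring

end Pool.Agent.SIRP
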